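import Pool.Agent.DCW.St

/-!
# B1: meaning of the bits of `stepT`
-/

set_option autoImplicit false

namespace Pool.Agent.DCW

namespace B1

/-- the bits from `A` on vanish -/
def Z (A x : ℕ) : Prop := ∀ p, A ≤ p → x.testBit p = false

theorem Z_or {A x y : ℕ} (hx : Z A x) (hy : Z A y) : Z A (x ||| y) := by
  intro p hp
  rw [Nat.testBit_or, hx p hp, hy p hp]
  rfl

theorem sub_bit {A q t p : ℕ} (hp : p < A) :
    (sub A (2 ^ A - 1) q t).testBit p = t.testBit (A * q + p) := by
  unfold sub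
  rw [Nat.testBit_and, Nat.testBit_shiftRight, Nat.testBit_two_pow_sub_one]
  simp [hp]

theorem sub_Z (A q t : ℕ) : Z A (sub A (2 ^ A - 1) q t) := by
  intro p hp
  unfold sub
  rw [Nat.testBit_and, Nat.testBit_two_pow_sub_one, decide_eq_false (not_lt.2 hp), Bool.and_false]

theorem blkG_lt {A x : ℕ} (hx : Z A x) : ∀ (h r p : ℕ), p < A →
    (blkG A x h).testBit (A * r + p) = true → r < 3 ^ h ∧ x.testBit p = true := by
  intro h
  induction h with
  | zero =>
    intro r p hp hb
    unfold blkG at hb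
    have h1 : ¬ A ≤ A * r + p := by
      intro h'
      rw [hx _ h'] at hb
      exact absurd hb (by simp)
    have h2 : r = 0 := by
      by_contra hr
      have := Nat.le_mul_of_pos_right A (Nat.pos_of_ne_zero hr)
      omega
    subst h2
    rw [mul_zero, zero_add] at hb
    exact ⟨by norm_num, hb⟩
  | succ h ih =>
    intro r p hp hb
    unfold blkG at hb
    rw [Nat.testBit_or, Nat.testBit_or, Nat.testBit_shiftLeft, Nat.testBit_shiftLeft,
      Bool.or_eq_true, Bool.or_eq_true, Bool.and_eq_true, Bool.and_eq_true, decide_eq_true_eq,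
      decide_eq_true_eq] at hb
    have h3 : 3 ^ (h + 1) = 3 * 3 ^ h := by rw [pow_succ, mul_comm]
    rcases hb with (hb | ⟨hb1, hb2⟩) | ⟨hb1, hb2⟩
    · obtain ⟨e1, e2⟩ := ih r p hp hb
      exact ⟨by omega, e2⟩
    · have hr : 3 ^ h ≤ r := by
        by_contra hc
        have h4 : r + 1 ≤ 3 ^ h := by omega
        have h5 := Nat.mul_le_mul_left A h4
        rw [mul_add, mul_one] at h5
        omega
      obtain ⟨r', rfl⟩ := Nat.exists_eq_add_of_le hr
      have h6 : A * (3 ^ h + r') + p - A * 3 ^ h = A * r' + p := by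
        rw [mul_add]
        omega
      rw [h6] at hb2
      obtain ⟨e1, e2⟩ := ih r' p hp hb2
      exact ⟨by omega, e2⟩
    · have hr : 2 * 3 ^ h ≤ r := by
        by_contra hc
        have h4 : r + 1 ≤ 2 * 3 ^ h := by omega
        have h5 := Nat.mul_le_mul_left A h4
        have h6 : A * (2 * 3 ^ h) = 2 * (A * 3 ^ h) := by ring
        rw [mul_add, mul_one, h6] at h5
        omega
      obtain ⟨r', rfl⟩ := Nat.exists_eq_add_of_le hr
      have h6 : A * (2 * 3 ^ h + r') + p - 2 * (A * 3 ^ h) = A * r' + p := by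
        have h7 : A * (2 * 3 ^ h + r') = 2 * (A * 3 ^ h) + A * r' := by ring
        omega
      rw [h6] at hb2
      obtain ⟨e1, e2⟩ := ih r' p hp hb2
      exact ⟨by omega, e2⟩

theorem blk_succ {A x y z h : ℕ} {e : Bool} {r p : ℕ} (hp : p < A)
    (hb : (blk A x y z (h + 1) e).testBit (A * r + p) = true) :
    (blk A x y z h true).testBit (A * r + p) = true ∨
    (3 ^ h ≤ r ∧ (blk A x y z h e).testBit (A * (r - 3 ^ h) + p) = true) ∨
    (2 * 3 ^ h ≤ r ∧ (blkG A x h).testBit (A * (r - 2 * 3 ^ h) + p) = true) := by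
  unfold blk at hb
  rw [Nat.testBit_or, Nat.testBit_or, Nat.testBit_shiftLeft, Nat.testBit_shiftLeft,
    Bool.or_eq_true, Bool.or_eq_true, Bool.and_eq_true, Bool.and_eq_true, decide_eq_true_eq,
    decide_eq_true_eq] at hb
  rcases hb with (hb | ⟨hb1, hb2⟩) | ⟨hb1, hb2⟩
  · exact Or.inl hb
  · right; left
    have hr : 3 ^ h ≤ r := by
      by_contra hc
      have h4 : r + 1 ≤ 3 ^ h := by omega
      have h5 := Nat.mul_le_mul_left A h4
      rw [mul_add, mul_one] at h5
      omega
    obtain ⟨r', rfl⟩ := Nat.exists_eq_add_of_le hr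
    have h6 : A * (3 ^ h + r') + p - A * 3 ^ h = A * r' + p := by
      rw [mul_add]
      omega
    rw [h6] at hb2
    exact ⟨hr, by rw [Nat.add_sub_cancel_left]; exact hb2⟩
  · right; right
    have hr : 2 * 3 ^ h ≤ r := by
      by_contra hc
      have h4 : r + 1 ≤ 2 * 3 ^ h := by omega
      have h5 := Nat.mul_le_mul_left A h4
      have h6 : A * (2 * 3 ^ h) = 2 * (A * 3 ^ h) := by ring
      rw [mul_add, mul_one, h6] at h5
      omega
    obtain ⟨r', rfl⟩ := Nat.exists_eq_add_of_le hr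
    have h6 : A * (2 * 3 ^ h + r') + p - 2 * (A * 3 ^ h) = A * r' + p := by
      have h7 : A * (2 * 3 ^ h + r') = 2 * (A * 3 ^ h) + A * r' := by ring
      omega
    rw [h6] at hb2
    exact ⟨hr, by rw [Nat.add_sub_cancel_left]; exact hb2⟩

theorem blk_lt {A x y z : ℕ} (hx : Z A x) (hy : Z A y) (hz : Z A z) :
    ∀ (h : ℕ) (e : Bool) (r p : ℕ), p < A →
    (blk A x y z h e).testBit (A * r + p) = true → r < 3 ^ h := by
  intro h
  induction h with
  | zero =>
    intro e r p hp hb
    unfold blk at hb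
    have hw : Z A (bif e then y else z) := by cases e <;> assumption
    have h1 : ¬ A ≤ A * r + p := by
      intro h'
      rw [hw _ h'] at hb
      exact absurd hb (by simp)
    have h2 : r = 0 := by
      by_contra hr
      have := Nat.le_mul_of_pos_right A (Nat.pos_of_ne_zero hr)
      omega
    subst h2
    norm_num
  | succ h ih =>
    intro e r p hp hb
    have h3 : 3 ^ (h + 1) = 3 * 3 ^ h := by rw [pow_succ, mul_comm]
    rcases blk_succ hp hb with hb | ⟨hr, hb⟩ | ⟨hr, hb⟩
    · have := ih _ _ _ hp hb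
      omega
    · have := ih _ _ _ hp hb
      omega
    · have := (blkG_lt hx h _ p hp hb).1
      omega

theorem blk_bit (hlt : ∀ l : List (Fin 3), i3 l < 3 ^ l.length)
    (happ : ∀ l m : List (Fin 3), i3 (l ++ m) = i3 l + 3 ^ l.length * i3 m) {A x y z : ℕ}
    (hx : Z A x) (hy : Z A y) (hz : Z A z) : ∀ (h : ℕ) (e : Bool) (m : List (Fin 3)) (p : ℕ),
    m.length = h → p < A → (blk A x y z h e).testBit (A * i3 m + p) = true →
      (x.testBit p = true) ∨ (2 ∉ m ∧ (0 ∈ m ∨ e = true) ∧ y.testBit p = true) ∨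
      (2 ∉ m ∧ e = false ∧ z.testBit p = true) := by
  intro h
  induction h with
  | zero =>
    intro e m p hm hp hb
    rw [List.length_eq_zero_iff] at hm
    subst hm
    have h0 : A * i3 [] + p = p := by simp [i3]
    rw [h0] at hb
    unfold blk at hb
    cases e
    · exact Or.inr (Or.inr ⟨by simp, rfl, hb⟩)
    · exact Or.inr (Or.inl ⟨by simp, Or.inr rfl, hb⟩)
  | succ h ih =>
    intro e m p hm hp hb
    rcases List.eq_nil_or_concat' m with rfl | ⟨m', a, rfl⟩
    · simp at hm
    · have hm' : m'.length = h := by simpa using hm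
      have hi : i3 (m' ++ [a]) = i3 m' + 3 ^ h * a.val := by
        rw [happ, hm']
        simp [i3]
      have hl := hlt m'
      rw [hm'] at hl
      rw [hi] at hb
      have ha : a = 0 ∨ a = 1 ∨ a = 2 := by
        have h3 : ∀ a : Fin 3, a = 0 ∨ a = 1 ∨ a = 2 := by decide
        exact h3 a
      rcases ha with rfl | rfl | rfl
      · have h0 : i3 m' + 3 ^ h * (0 : Fin 3).val = i3 m' := by simp
        rw [h0] at hb
        rcases blk_succ hp hb with hb | ⟨hr, hb⟩ | ⟨hr, hb⟩
        · rcases ih true m' p hm' hp hb with h1 | ⟨h1, -, h2⟩ | ⟨-, h1, -⟩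
          · exact Or.inl h1
          · exact Or.inr (Or.inl ⟨by simp [h1], Or.inl (by simp), h2⟩)
          · exact absurd h1 (by simp)
        · omega
        · omega
      · have h0 : i3 m' + 3 ^ h * (1 : Fin 3).val = i3 m' + 3 ^ h := by simp
        rw [h0] at hb
        rcases blk_succ hp hb with hb | ⟨hr, hb⟩ | ⟨hr, hb⟩
        · have := blk_lt hx hy hz h _ _ p hp hb
          omega
        · rw [Nat.add_sub_cancel] at hb
          rcases ih e m' p hm' hp hb with h1 | ⟨h1, h3, h2⟩ | ⟨h1, h3, h2⟩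
          · exact Or.inl h1
          · refine Or.inr (Or.inl ⟨by simp [h1], ?_, h2⟩)
            rcases h3 with h3 | h3
            · exact Or.inl (by simp [h3])
            · exact Or.inr h3
          · exact Or.inr (Or.inr ⟨by simp [h1], h3, h2⟩)
        · omega
      · have h0 : i3 m' + 3 ^ h * (2 : Fin 3).val = i3 m' + 2 * 3 ^ h := by
          have : (2 : Fin 3).val = 2 := rfl
          rw [this, mul_comm]
        rw [h0] at hb
        rcases blk_succ hp hb with hb | ⟨hr, hb⟩ | ⟨hr, hb⟩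
        · have := blk_lt hx hy hz h _ _ p hp hb
          omega
        · have := blk_lt hx hy hz h _ _ p hp hb
          omega
        · exact Or.inl (blkG_lt hx h _ p hp hb).2

theorem rep0 (j : ℕ) : i3 (List.replicate j 0) = 0 := by
  induction j with
  | zero => rfl
  | succ j ih =>
    rw [List.replicate_succ]
    simp [i3, ih]

theorem rep1 (j : ℕ) (hj : j ≤ 3) : (3 ^ j - 1) / 2 = i3 (List.replicate j 1) := by
  interval_cases j <;> rfl

theorem sub3_bit {A t j p : ℕ} (hj : j ≤ 3) (hp : p < A)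
    (h : (sub3 A (2 ^ A - 1) t j).testBit p = true) :
    ∃ i, i < j ∧ t.testBit (A * i3 ((List.replicate j 1).set i 2) + p) = true := by
  interval_cases j
  · simp [sub3] at h
  · unfold sub3 at h
    rw [sub_bit hp] at h
    exact ⟨0, by norm_num, h⟩
  · unfold sub3 at h
    rw [Nat.testBit_or, sub_bit hp, sub_bit hp, Bool.or_eq_true] at h
    rcases h with h | h
    · exact ⟨0, by norm_num, h⟩
    · exact ⟨1, by norm_num, h⟩
  · unfold sub3 at h
    rw [Nat.testBit_or, Nat.testBit_or, sub_bit hp, sub_bit hp, sub_bit hp, Bool.or_eq_true,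
      Bool.or_eq_true] at h
    rcases h with (h | h) | h
    · exact ⟨0, by norm_num, h⟩
    · exact ⟨1, by norm_num, h⟩
    · exact ⟨2, by norm_num, h⟩

theorem sub3_Z (A t j : ℕ) : Z A (sub3 A (2 ^ A - 1) t j) := by
  unfold sub3
  split
  · intro p _
    exact Nat.zero_testBit p
  · exact sub_Z _ _ _
  · exact Z_or (sub_Z _ _ _) (sub_Z _ _ _)
  · exact Z_or (Z_or (sub_Z _ _ _) (sub_Z _ _ _)) (sub_Z _ _ _)

end B1

open B1 in
/-- [B1] meaning of `stepT` -/
theorem thm_B1 (hS0 : St_S0) : St_B1 := by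
  obtain ⟨hlt, happ, -, -, -, -, -, -, -, -, hfld⟩ := hS0
  intro b j hjb hj t l m k hl hm hk hb
  set A := K * 3 ^ (b - j) with hA
  have hZf : ∀ x, x < 2 ^ K → Z A (fld K x (fun _ => true) (3 ^ (b - j))) := by
    intro x hx p hp
    have h1 := hfld K x (fun _ => true) (3 ^ (b - j)) (p / K) (p % K) hx
      (Nat.mod_lt _ (by norm_num))
    rw [Nat.div_add_mod] at h1
    have h2 : ¬ p / K < 3 ^ (b - j) := by
      rw [not_lt, Nat.le_div_iff_mul_le (by norm_num), mul_comm]
      exact hp
    rw [h1, decide_eq_false h2]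
    rfl
  have hp : K * i3 l + k < A := by
    have h1 := hlt l
    rw [hl] at h1
    have h2 : i3 l + 1 ≤ 3 ^ (b - j) := h1
    have h3 := Nat.mul_le_mul_left K h2
    rw [mul_add, mul_one] at h3
    omega
  have hpos : K * i3 (l ++ m) + k = A * i3 m + (K * i3 l + k) := by
    rw [happ, hl, hA]
    ring
  set lo := fld K (2 ^ (K - 1) - 1) (fun _ => true) (3 ^ (b - j)) with hlo
  set hi := fld K (2 ^ K - 4) (fun _ => true) (3 ^ (b - j)) with hhi
  set o1 := (sub A (2 ^ A - 1) 0 t <<< 2) &&& hi with ho1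
  set o2 := dn lo (sub A (2 ^ A - 1) ((3 ^ j - 1) / 2) t) with ho2
  set o3 := dn lo (sub3 A (2 ^ A - 1) t j) with ho3
  have hstep : stepT b j t = blk A o1 (o1 ||| o2 ||| o3) (o1 ||| o3) (3 - j) false := rfl
  have hZlo : Z A lo := hZf _ (by norm_num)
  have hZhi : Z A hi := hZf _ (by norm_num)
  have hZ1 : Z A o1 := by
    intro p hp
    rw [ho1, Nat.testBit_and, hZhi p hp, Bool.and_false]
  have hZdn : ∀ v, Z A v → Z A (dn lo v) := by
    intro v hv p hp
    unfold dn
    rw [Nat.testBit_or, Nat.testBit_and, hZlo p hp, hv p hp, Bool.and_false]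
    rfl
  have hZ2 : Z A o2 := hZdn _ (sub_Z _ _ _)
  have hZ3 : Z A o3 := hZdn _ (sub3_Z _ _ _)
  have hdn : ∀ v, (dn lo v).testBit (K * i3 l + k) = true →
      ∃ k', k' ≤ k + 1 ∧ k' < K ∧ v.testBit (K * i3 l + k') = true := by
    intro v hv
    unfold dn at hv
    rw [Nat.testBit_or, Nat.testBit_and, Nat.testBit_shiftRight, Bool.or_eq_true,
      Bool.and_eq_true] at hv
    rcases hv with ⟨h1, h2⟩ | h1
    · rw [hlo, hfld K _ _ _ _ _ (by norm_num) hk, Nat.testBit_two_pow_sub_one, Bool.and_eq_true,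
        decide_eq_true_eq] at h2
      have h3 : k < K - 1 := h2.2
      refine ⟨k + 1, le_rfl, by omega, ?_⟩
      rw [← h1]
      congr 1
      omega
    · exact ⟨k, by omega, hk, h1⟩
  have hc1 : o1.testBit (K * i3 l + k) = true →
      ∃ k', k' + 2 = k ∧ t.testBit (K * i3 (l ++ List.replicate j 0) + k') = true := by
    intro h
    rw [ho1, Nat.testBit_and, Nat.testBit_shiftLeft, Bool.and_eq_true, Bool.and_eq_true,
      decide_eq_true_eq] at h
    obtain ⟨⟨-, h1⟩, h2⟩ := h
    rw [hhi, hfld K _ _ _ _ _ (by norm_num) hk, Bool.and_eq_true] at h2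
    have h3 : 2 ≤ k := by
      by_contra hc
      have h4 := h2.2
      have h5 : k = 0 ∨ k = 1 := by omega
      rcases h5 with rfl | rfl
      · exact absurd h4 (by decide)
      · exact absurd h4 (by decide)
    obtain ⟨k', rfl⟩ := Nat.exists_eq_add_of_le h3
    refine ⟨k', by omega, ?_⟩
    have h4 : K * i3 l + (2 + k') - 2 = K * i3 l + k' := by omega
    rw [h4, sub_bit (by omega)] at h1
    rw [happ, rep0, mul_zero, add_zero, ← h1]
    congr 1
    omega
  have hc2 : o2.testBit (K * i3 l + k) = true → ∃ k', k' ≤ k + 1 ∧ k' < K ∧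
      t.testBit (K * i3 (l ++ List.replicate j 1) + k') = true := by
    intro h
    obtain ⟨k', h1, h2, h3⟩ := hdn _ h
    have h4 : K * i3 l + k' < A := by
      have h1 := hlt l
      rw [hl] at h1
      have h2 : i3 l + 1 ≤ 3 ^ (b - j) := h1
      have h3 := Nat.mul_le_mul_left K h2
      rw [mul_add, mul_one] at h3
      omega
    refine ⟨k', h1, h2, ?_⟩
    rw [sub_bit h4, rep1 j hj] at h3
    rw [happ, hl, ← h3, hA]
    congr 1
    ring
  have hc3 : o3.testBit (K * i3 l + k) = true → ∃ i, i < j ∧ ∃ k', k' ≤ k + 1 ∧ k' < K ∧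
      t.testBit (K * i3 (l ++ (List.replicate j 1).set i 2) + k') = true := by
    intro h
    obtain ⟨k', h1, h2, h3⟩ := hdn _ h
    have h4 : K * i3 l + k' < A := by
      have h1 := hlt l
      rw [hl] at h1
      have h2 : i3 l + 1 ≤ 3 ^ (b - j) := h1
      have h3 := Nat.mul_le_mul_left K h2
      rw [mul_add, mul_one] at h3
      omega
    obtain ⟨i, hi, h5⟩ := sub3_bit hj h4 h3
    refine ⟨i, hi, k', h1, h2, ?_⟩
    rw [happ, hl, ← h5, hA]
    congr 1
    ring
  rw [hstep, hpos] at hb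
  rcases blk_bit hlt happ hZ1 (Z_or (Z_or hZ1 hZ2) hZ3) (Z_or hZ1 hZ3) (3 - j) false m _ hm hp hb
    with h | ⟨h1, h2, h3⟩ | ⟨h1, -, h3⟩
  · exact Or.inl (hc1 h)
  · rcases h2 with h2 | h2
    · rw [Nat.testBit_or, Nat.testBit_or, Bool.or_eq_true, Bool.or_eq_true] at h3
      rcases h3 with (h3 | h3) | h3
      · exact Or.inl (hc1 h3)
      · exact Or.inr (Or.inl ⟨h1, h2, hc2 h3⟩)
      · exact Or.inr (Or.inr ⟨h1, hc3 h3⟩)
    · exact absurd h2 (by simp)
  · rw [Nat.testBit_or, Bool.or_eq_true] at h3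
    rcases h3 with h3 | h3
    · exact Or.inl (hc1 h3)
    · exact Or.inr (Or.inr ⟨h1, hc3 h3⟩)

end Pool.Agent.DCW
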