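import Pool.Agent.DCW.St

/-!
# Meaning of `stepC` and `pr`
-/

set_option autoImplicit false

namespace Pool.Agent.DCW

namespace B2

theorem hic_bit (hS0 : St_S0) (N s n : ℕ) (hn : n < 3) :
    (fld 3 6 (fun _ => true) N).testBit (3 * s + n) = (decide (s < N) && (6 : ℕ).testBit n) := by
  obtain ⟨-, -, -, -, -, -, -, -, -, -, h⟩ := hS0
  have := h 3 6 (fun _ => true) N s n (by norm_num) hn
  simpa using this

theorem hic_lt (hS0 : St_S0) (N : ℕ) : fld 3 6 (fun _ => true) N < 2 ^ (3 * N) := by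
  apply Nat.lt_pow_two_of_testBit
  intro i hi
  have h1 := hic_bit hS0 N (i / 3) (i % 3) (Nat.mod_lt _ (by norm_num))
  rw [Nat.div_add_mod] at h1
  rw [h1]
  have : ¬ i / 3 < N := by omega
  simp [this]

theorem and_lt (x y n : ℕ) (h : y < 2 ^ n) : x &&& y < 2 ^ n :=
  lt_of_le_of_lt Nat.and_le_right h

theorem up_lt (hS0 : St_S0) (N x : ℕ) :
    (x <<< 1) &&& fld 3 6 (fun _ => true) N < 2 ^ (3 * N) :=
  and_lt _ _ _ (hic_lt hS0 N)

theorem up_bit (hS0 : St_S0) (N x s n : ℕ) (hn : n < 3)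
    (h : ((x <<< 1) &&& fld 3 6 (fun _ => true) N).testBit (3 * s + n) = true) :
    ∃ n', n' + 1 = n ∧ x.testBit (3 * s + n') = true := by
  rw [Nat.testBit_and, Bool.and_eq_true, hic_bit hS0 N s n hn, Bool.and_eq_true] at h
  obtain ⟨h1, h2, h3⟩ := h
  have hn0 : n ≠ 0 := by
    rintro rfl
    revert h3
    decide
  obtain ⟨n', rfl⟩ : ∃ n', n = n' + 1 := ⟨n - 1, by omega⟩
  refine ⟨n', rfl, ?_⟩
  rw [Nat.testBit_shiftLeft, Bool.and_eq_true] at h1
  have h4 := h1.2
  rwa [show 3 * s + (n' + 1) - 1 = 3 * s + n' by omega] at h4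

theorem blkC_lt (hS0 : St_S0) (N : ℕ) : ∀ (h x y : ℕ), x < 2 ^ (3 * N) → y < 2 ^ (3 * N) →
    blkC (3 * N) (fld 3 6 (fun _ => true) N) h x y < 2 ^ (3 * N * 2 ^ h)
  | 0, x, y, hx, hy => by
    simp only [blkC, pow_zero, mul_one]
    exact Nat.or_lt_two_pow hx hy
  | h + 1, x, y, hx, hy => by
    simp only [blkC]
    have h1 := blkC_lt hS0 N h x _ hx (up_lt hS0 N y)
    have h2 := blkC_lt hS0 N h _ y (up_lt hS0 N x) hy
    apply Nat.or_lt_two_pow
    · exact lt_of_lt_of_le h1 (Nat.pow_le_pow_right (by norm_num)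
        (Nat.mul_le_mul le_rfl (Nat.pow_le_pow_right (by norm_num) (Nat.le_succ h))))
    · rw [Nat.shiftLeft_eq, show 3 * N * 2 ^ (h + 1) = 3 * N * 2 ^ h + 3 * N * 2 ^ h by ring,
        pow_add]
      exact Nat.mul_lt_mul_of_pos_right h2 (by positivity)

theorem i2_snoc (hS0 : St_S0) (m : List Bool) (a : Bool) :
    i2 (m ++ [a]) = i2 m + 2 ^ m.length * a.toNat := by
  obtain ⟨-, -, -, -, -, -, h, -⟩ := hS0
  rw [h]
  simp [i2]

theorem blkC_spec (hS0 : St_S0) (N : ℕ) : ∀ (h x y : ℕ), x < 2 ^ (3 * N) → y < 2 ^ (3 * N) →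
    ∀ (m : List Bool), m.length = h → ∀ s n : ℕ, s < N → n < 3 →
    (blkC (3 * N) (fld 3 6 (fun _ => true) N) h x y).testBit (3 * N * i2 m + (3 * s + n)) = true →
    (∃ n', n' + m.count true = n ∧ x.testBit (3 * s + n') = true) ∨
    (∃ n', n' + m.count false = n ∧ y.testBit (3 * s + n') = true)
  | 0, x, y, hx, hy, m, hm, s, n, hs, hn, hb => by
    rw [List.length_eq_zero_iff] at hm
    subst hm
    simp only [blkC, i2, mul_zero, zero_add, Nat.testBit_or, Bool.or_eq_true] at hb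
    rcases hb with hb | hb
    · exact Or.inl ⟨n, by simp, hb⟩
    · exact Or.inr ⟨n, by simp, hb⟩
  | h + 1, x, y, hx, hy, m, hm, s, n, hs, hn, hb => by
    obtain ⟨m', a, rfl⟩ : ∃ m' a, m = m' ++ [a] := by
      rcases List.eq_nil_or_concat m with h1 | ⟨m', a, h1⟩
      · rw [h1] at hm
        simp at hm
      · exact ⟨m', a, by simpa using h1⟩
    have hm' : m'.length = h := by simpa using hm
    have hi2 : i2 m' < 2 ^ h := by
      obtain ⟨-, -, -, -, -, h1, -⟩ := hS0
      simpa [hm'] using h1 m'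
    have hpos : 3 * N * i2 m' + (3 * s + n) < 3 * N * 2 ^ h := by
      have h1 : 3 * N * (i2 m' + 1) ≤ 3 * N * 2 ^ h := Nat.mul_le_mul le_rfl hi2
      have h2 : 3 * s + n < 3 * N := by omega
      calc 3 * N * i2 m' + (3 * s + n) < 3 * N * i2 m' + 3 * N := by omega
        _ = 3 * N * (i2 m' + 1) := by ring
        _ ≤ _ := h1
    rw [i2_snoc hS0, hm'] at hb
    simp only [blkC, Nat.testBit_or, Bool.or_eq_true] at hb
    cases a with
    | false =>
      simp only [Bool.toNat_false, mul_zero, add_zero] at hb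
      rcases hb with hb | hb
      · rcases blkC_spec hS0 N h x _ hx (up_lt hS0 N y) m' hm' s n hs hn hb with
          ⟨n', h1, h2⟩ | ⟨n', h1, h2⟩
        · exact Or.inl ⟨n', by simpa using h1, h2⟩
        · obtain ⟨n'', h3, h4⟩ := up_bit hS0 N y s n' (by omega) h2
          refine Or.inr ⟨n'', ?_, h4⟩
          simp
          omega
      · rw [Nat.testBit_shiftLeft, Bool.and_eq_true, decide_eq_true_eq] at hb
        exact absurd hb.1 (by omega)
    | true =>
      simp only [Bool.toNat_true, mul_one] at hb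
      have hpos2 : 3 * N * (i2 m' + 2 ^ h) + (3 * s + n) =
          3 * N * 2 ^ h + (3 * N * i2 m' + (3 * s + n)) := by ring
      rw [hpos2] at hb
      rcases hb with hb | hb
      · exfalso
        have h1 := blkC_lt hS0 N h x _ hx (up_lt hS0 N y)
        rw [Nat.testBit_lt_two_pow (lt_of_lt_of_le h1
          (Nat.pow_le_pow_right (by norm_num) (Nat.le_add_right _ _)))] at hb
        exact absurd hb (by simp)
      · rw [Nat.testBit_shiftLeft, Bool.and_eq_true] at hb
        have h3 := hb.2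
        rw [show 3 * N * 2 ^ h + (3 * N * i2 m' + (3 * s + n)) - 3 * N * 2 ^ h =
          3 * N * i2 m' + (3 * s + n) by omega] at h3
        rcases blkC_spec hS0 N h _ y (up_lt hS0 N x) hy m' hm' s n hs hn h3 with
          ⟨n', h1, h2⟩ | ⟨n', h1, h2⟩
        · obtain ⟨n'', h3, h4⟩ := up_bit hS0 N x s n' (by omega) h2
          refine Or.inl ⟨n'', ?_, h4⟩
          simp
          omega
        · exact Or.inr ⟨n', by simpa using h1, h2⟩

theorem i2_rep_false : ∀ j : ℕ, i2 (List.replicate j false) = 0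
  | 0 => rfl
  | j + 1 => by
    simp [List.replicate_succ, i2, i2_rep_false j]

theorem i2_rep_true : ∀ j : ℕ, i2 (List.replicate j true) + 1 = 2 ^ j
  | 0 => rfl
  | j + 1 => by
    have := i2_rep_true j
    simp only [List.replicate_succ, i2, Bool.toNat_true, pow_succ]
    omega

theorem sub_lt (B q c : ℕ) : sub B (2 ^ B - 1) q c < 2 ^ B := by
  apply lt_of_le_of_lt Nat.and_le_right
  have : 0 < 2 ^ B := by positivity
  omega

theorem sub_bit (B q c p : ℕ) (h : (sub B (2 ^ B - 1) q c).testBit p = true) :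
    c.testBit (B * q + p) = true := by
  unfold sub at h
  rw [Nat.testBit_and, Bool.and_eq_true] at h
  have h1 := h.1
  rwa [Nat.testBit_shiftRight] at h1

end B2

theorem thm_B2 (hS0 : St_S0) : St_B2 := by
  intro b j hj hj3 c
  have happ := hS0.2.2.2.2.2.2.1
  have hlt := hS0.2.2.2.2.2.1
  refine ⟨?_, ?_⟩
  · intro l m n hl hm hn hb
    have hs : i2 l < 2 ^ (b - j) := by simpa [hl] using hlt l
    rw [happ, hl, show 3 * (i2 l + 2 ^ (b - j) * i2 m) + n =
      3 * 2 ^ (b - j) * i2 m + (3 * i2 l + n) by ring] at hb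
    rcases B2.blkC_spec hS0 (2 ^ (b - j)) (3 - j) _ _ (B2.sub_lt _ _ c) (B2.sub_lt _ _ c) m hm
      (i2 l) n hs hn hb with ⟨n', h1, h2⟩ | ⟨n', h1, h2⟩
    · refine Or.inl ⟨n', h1, ?_⟩
      have h3 := B2.sub_bit _ _ _ _ h2
      rw [happ, hl, B2.i2_rep_false, mul_zero, add_zero]
      simpa using h3
    · refine Or.inr ⟨n', h1, ?_⟩
      have h3 := B2.sub_bit _ _ _ _ h2
      rw [happ, hl]
      have h4 : i2 (List.replicate j true) = 2 ^ j - 1 := by
        have := B2.i2_rep_true j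
        omega
      rw [h4, show 3 * (i2 l + 2 ^ (b - j) * (2 ^ j - 1)) + n' =
        3 * 2 ^ (b - j) * (2 ^ j - 1) + (3 * i2 l + n') by ring]
      exact h3
  · intro hp
    have h1 : (c >>> (3 * 2 ^ (b - j) * (2 ^ j - 1))) % 2 ^ j ≠ 0 := by
      simpa [pr] using hp
    obtain ⟨n, hn, h2⟩ : ∃ n, n < j ∧
        (c >>> (3 * 2 ^ (b - j) * (2 ^ j - 1))).testBit n = true := by
      by_contra hcon
      push Not at hcon
      apply h1
      apply Nat.eq_of_testBit_eq
      intro i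
      rw [Nat.testBit_mod_two_pow, Nat.zero_testBit]
      by_cases hi : i < j
      · have := hcon i hi
        simp [this]
      · simp [hi]
    refine ⟨n, by omega, ?_⟩
    rw [Nat.testBit_shiftRight] at h2
    have h4 : i2 (List.replicate j true) = 2 ^ j - 1 := by
      have := B2.i2_rep_true j
      omega
    rw [happ, B2.i2_rep_false, h4, List.length_replicate, zero_add]
    rwa [show 3 * (2 ^ (b - j) * (2 ^ j - 1)) + n = 3 * 2 ^ (b - j) * (2 ^ j - 1) + n by ring]

end Pool.Agent.DCW
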