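import Pool.Agent.DCW.D6a
import Pool.Agent.DCW.D6b
import Pool.Agent.DCW.D6c
import Pool.Agent.DCW.D6d
import Pool.Agent.DCW.D6e
import Pool.Agent.DCW.D6f
import Pool.Agent.DCW.D6g
import Pool.Agent.DCW.D6h
import Pool.Agent.DCW.D6i

/-!
# The profiles with 6 darts
-/

set_option autoImplicit false

namespace Pool.Agent.DCW

/-- The profiles with 6 darts. -/
noncomputable def R6 : Tr :=
  (.node
   (.node
    (.node
     (.node
      (.node
       (.node
        (T6_0)
        (T6_1))
       (T6_2))
      (.node
       (T6_3)
       (T6_4)))
     (.node
      (.node
       (T6_5)
       (T6_6))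
      (.node
       (T6_7)
       (T6_8))))
    (.node
     (.node
      (.node
       (T6_9)
       (T6_10))
      (.node
       (T6_11)
       (T6_12)))
     (.node
      (.node
       (T6_13)
       (T6_14))
      (.node
       (T6_15)
       (T6_16)))))
   (.node
    (.node
     (.node
      (.node
       (.node
        (T6_17)
        (T6_18))
       (T6_19))
      (.node
       (T6_20)
       (T6_21)))
     (.node
      (.node
       (T6_22)
       (T6_23))
      (.node
       (T6_24)
       (T6_25))))
    (.node
     (.node
      (.node
       (T6_26)
       (T6_27))
      (.node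
       (T6_28)
       (T6_29)))
     (.node
      (.node
       (T6_30)
       (T6_31))
      (.node
       (T6_32)
       (T6_33))))))

end Pool.Agent.DCW
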