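import Pool.Agent.DCW.ChkA
import Pool.Agent.DCW.D4
import Pool.Agent.DCW.D6

/-!
# The check of the profiles with three and four darts
-/

set_option autoImplicit false

namespace Pool.Agent.DCW

theorem c3_0_0 : U3_0_0.all chk3 = true := by decide +kernel

theorem c3_0_1 : U3_0_1.all chk3 = true := by decide +kernel

theorem c3 : R3.all chk3 = true :=
  (all_node _ _ _
   c3_0_0
   c3_0_1)

theorem c4_0_0 : U4_0_0.all chk4 = true := by decide +kernel

theorem c4_0_1 : U4_0_1.all chk4 = true := by decide +kernel

theorem c4_0_2 : U4_0_2.all chk4 = true := by decide +kernel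

theorem c4_0_3 : U4_0_3.all chk4 = true := by decide +kernel

theorem c4_0_4 : U4_0_4.all chk4 = true := by decide +kernel

theorem c4_0_5 : U4_0_5.all chk4 = true := by decide +kernel

theorem c4_0_6 : U4_0_6.all chk4 = true := by decide +kernel

theorem c4_0_7 : U4_0_7.all chk4 = true := by decide +kernel

theorem c4_0_8 : U4_0_8.all chk4 = true := by decide +kernel

theorem c4 : R4.all chk4 = true :=
  (all_node _ _ _
   (all_node _ _ _
    (all_node _ _ _
     (all_node _ _ _
      c4_0_0
      c4_0_1)
     c4_0_2)
    (all_node _ _ _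
     c4_0_3
     c4_0_4))
   (all_node _ _ _
    (all_node _ _ _
     c4_0_5
     c4_0_6)
    (all_node _ _ _
     c4_0_7
     c4_0_8)))

end Pool.Agent.DCW
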