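import Pool.Agent.DCW.ChkA

/-!
# The check of profiles with 5 darts, part 1
-/

set_option autoImplicit false

namespace Pool.Agent.DCW

theorem c5_2_0 : U5_2_0.all chk5 = true := by decide +kernel

theorem c5_2_1 : U5_2_1.all chk5 = true := by decide +kernel

theorem c5_2_2 : U5_2_2.all chk5 = true := by decide +kernel

theorem c5_2_3 : U5_2_3.all chk5 = true := by decide +kernel

theorem c5_2_4 : U5_2_4.all chk5 = true := by decide +kernel

theorem c5_2_5 : U5_2_5.all chk5 = true := by decide +kernel

theorem c5_2_6 : U5_2_6.all chk5 = true := by decide +kernel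

theorem c5_2_7 : U5_2_7.all chk5 = true := by decide +kernel

theorem cT5_2 : T5_2.all chk5 = true :=
  (all_node _ _ _
   (all_node _ _ _
    (all_node _ _ _
     c5_2_0
     c5_2_1)
    (all_node _ _ _
     c5_2_2
     c5_2_3))
   (all_node _ _ _
    (all_node _ _ _
     c5_2_4
     c5_2_5)
    (all_node _ _ _
     c5_2_6
     c5_2_7)))

theorem c5_3_0 : U5_3_0.all chk5 = true := by decide +kernel

theorem c5_3_1 : U5_3_1.all chk5 = true := by decide +kernel

theorem c5_3_2 : U5_3_2.all chk5 = true := by decide +kernel

theorem c5_3_3 : U5_3_3.all chk5 = true := by decide +kernel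

theorem c5_3_4 : U5_3_4.all chk5 = true := by decide +kernel

theorem c5_3_5 : U5_3_5.all chk5 = true := by decide +kernel

theorem c5_3_6 : U5_3_6.all chk5 = true := by decide +kernel

theorem c5_3_7 : U5_3_7.all chk5 = true := by decide +kernel

theorem cT5_3 : T5_3.all chk5 = true :=
  (all_node _ _ _
   (all_node _ _ _
    (all_node _ _ _
     c5_3_0
     c5_3_1)
    (all_node _ _ _
     c5_3_2
     c5_3_3))
   (all_node _ _ _
    (all_node _ _ _
     c5_3_4
     c5_3_5)
    (all_node _ _ _
     c5_3_6
     c5_3_7)))

end Pool.Agent.DCW
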