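import Pool.Agent.DCW.ChkA

/-!
# The check of profiles with 5 darts, part 2
-/

set_option autoImplicit false

namespace Pool.Agent.DCW

theorem c5_4_0 : U5_4_0.all chk5 = true := by decide +kernel

theorem c5_4_1 : U5_4_1.all chk5 = true := by decide +kernel

theorem c5_4_2 : U5_4_2.all chk5 = true := by decide +kernel

theorem c5_4_3 : U5_4_3.all chk5 = true := by decide +kernel

theorem c5_4_4 : U5_4_4.all chk5 = true := by decide +kernel

theorem c5_4_5 : U5_4_5.all chk5 = true := by decide +kernel

theorem c5_4_6 : U5_4_6.all chk5 = true := by decide +kernel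

theorem c5_4_7 : U5_4_7.all chk5 = true := by decide +kernel

theorem cT5_4 : T5_4.all chk5 = true :=
  (all_node _ _ _
   (all_node _ _ _
    (all_node _ _ _
     c5_4_0
     c5_4_1)
    (all_node _ _ _
     c5_4_2
     c5_4_3))
   (all_node _ _ _
    (all_node _ _ _
     c5_4_4
     c5_4_5)
    (all_node _ _ _
     c5_4_6
     c5_4_7)))

theorem c5_5_0 : U5_5_0.all chk5 = true := by decide +kernel

theorem c5_5_1 : U5_5_1.all chk5 = true := by decide +kernel

theorem c5_5_2 : U5_5_2.all chk5 = true := by decide +kernel

theorem c5_5_3 : U5_5_3.all chk5 = true := by decide +kernel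

theorem c5_5_4 : U5_5_4.all chk5 = true := by decide +kernel

theorem c5_5_5 : U5_5_5.all chk5 = true := by decide +kernel

theorem c5_5_6 : U5_5_6.all chk5 = true := by decide +kernel

theorem c5_5_7 : U5_5_7.all chk5 = true := by decide +kernel

theorem cT5_5 : T5_5.all chk5 = true :=
  (all_node _ _ _
   (all_node _ _ _
    (all_node _ _ _
     c5_5_0
     c5_5_1)
    (all_node _ _ _
     c5_5_2
     c5_5_3))
   (all_node _ _ _
    (all_node _ _ _
     c5_5_4
     c5_5_5)
    (all_node _ _ _
     c5_5_6
     c5_5_7)))

end Pool.Agent.DCW
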