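import Pool.Agent.DCW.ChkA

/-!
# The check of profiles with 5 darts, part 3
-/

set_option autoImplicit false

namespace Pool.Agent.DCW

theorem c5_6_0 : U5_6_0.all chk5 = true := by decide +kernel

theorem c5_6_1 : U5_6_1.all chk5 = true := by decide +kernel

theorem c5_6_2 : U5_6_2.all chk5 = true := by decide +kernel

theorem c5_6_3 : U5_6_3.all chk5 = true := by decide +kernel

theorem c5_6_4 : U5_6_4.all chk5 = true := by decide +kernel

theorem c5_6_5 : U5_6_5.all chk5 = true := by decide +kernel

theorem c5_6_6 : U5_6_6.all chk5 = true := by decide +kernel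

theorem c5_6_7 : U5_6_7.all chk5 = true := by decide +kernel

theorem cT5_6 : T5_6.all chk5 = true :=
  (all_node _ _ _
   (all_node _ _ _
    (all_node _ _ _
     c5_6_0
     c5_6_1)
    (all_node _ _ _
     c5_6_2
     c5_6_3))
   (all_node _ _ _
    (all_node _ _ _
     c5_6_4
     c5_6_5)
    (all_node _ _ _
     c5_6_6
     c5_6_7)))

theorem c5_7_0 : U5_7_0.all chk5 = true := by decide +kernel

theorem c5_7_1 : U5_7_1.all chk5 = true := by decide +kernel

theorem c5_7_2 : U5_7_2.all chk5 = true := by decide +kernel

theorem c5_7_3 : U5_7_3.all chk5 = true := by decide +kernel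

theorem c5_7_4 : U5_7_4.all chk5 = true := by decide +kernel

theorem c5_7_5 : U5_7_5.all chk5 = true := by decide +kernel

theorem c5_7_6 : U5_7_6.all chk5 = true := by decide +kernel

theorem c5_7_7 : U5_7_7.all chk5 = true := by decide +kernel

theorem cT5_7 : T5_7.all chk5 = true :=
  (all_node _ _ _
   (all_node _ _ _
    (all_node _ _ _
     c5_7_0
     c5_7_1)
    (all_node _ _ _
     c5_7_2
     c5_7_3))
   (all_node _ _ _
    (all_node _ _ _
     c5_7_4
     c5_7_5)
    (all_node _ _ _
     c5_7_6
     c5_7_7)))

end Pool.Agent.DCW
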