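import Pool.Agent.DCW.ChkA

/-!
# The check of profiles with 5 darts, part 4
-/

set_option autoImplicit false

namespace Pool.Agent.DCW

theorem c5_8_0 : U5_8_0.all chk5 = true := by decide +kernel

theorem c5_8_1 : U5_8_1.all chk5 = true := by decide +kernel

theorem c5_8_2 : U5_8_2.all chk5 = true := by decide +kernel

theorem c5_8_3 : U5_8_3.all chk5 = true := by decide +kernel

theorem c5_8_4 : U5_8_4.all chk5 = true := by decide +kernel

theorem c5_8_5 : U5_8_5.all chk5 = true := by decide +kernel

theorem c5_8_6 : U5_8_6.all chk5 = true := by decide +kernel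

theorem c5_8_7 : U5_8_7.all chk5 = true := by decide +kernel

theorem cT5_8 : T5_8.all chk5 = true :=
  (all_node _ _ _
   (all_node _ _ _
    (all_node _ _ _
     c5_8_0
     c5_8_1)
    (all_node _ _ _
     c5_8_2
     c5_8_3))
   (all_node _ _ _
    (all_node _ _ _
     c5_8_4
     c5_8_5)
    (all_node _ _ _
     c5_8_6
     c5_8_7)))

theorem c5_9_0 : U5_9_0.all chk5 = true := by decide +kernel

theorem c5_9_1 : U5_9_1.all chk5 = true := by decide +kernel

theorem c5_9_2 : U5_9_2.all chk5 = true := by decide +kernel

theorem c5_9_3 : U5_9_3.all chk5 = true := by decide +kernel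

theorem c5_9_4 : U5_9_4.all chk5 = true := by decide +kernel

theorem c5_9_5 : U5_9_5.all chk5 = true := by decide +kernel

theorem cT5_9 : T5_9.all chk5 = true :=
  (all_node _ _ _
   (all_node _ _ _
    (all_node _ _ _
     c5_9_0
     c5_9_1)
    c5_9_2)
   (all_node _ _ _
    (all_node _ _ _
     c5_9_3
     c5_9_4)
    c5_9_5))

end Pool.Agent.DCW
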