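import Pool.Agent.DCW.C5a
import Pool.Agent.DCW.C5b
import Pool.Agent.DCW.C5c
import Pool.Agent.DCW.C5d
import Pool.Agent.DCW.C5e

/-!
# The check of the profiles with 5 darts
-/

set_option autoImplicit false

namespace Pool.Agent.DCW

theorem c5 : R5.all chk5 = true :=
  (all_node _ _ _
   (all_node _ _ _
    (all_node _ _ _
     (all_node _ _ _
      cT5_0
      cT5_1)
     cT5_2)
    (all_node _ _ _
     cT5_3
     cT5_4))
   (all_node _ _ _
    (all_node _ _ _
     (all_node _ _ _
      cT5_5
      cT5_6)
     cT5_7)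
    (all_node _ _ _
     cT5_8
     cT5_9)))

end Pool.Agent.DCW
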