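import Pool.Agent.DCW.ChkA

/-!
# The check of profiles with 5 darts, part 0
-/

set_option autoImplicit false

namespace Pool.Agent.DCW

theorem c5_0_0 : U5_0_0.all chk5 = true := by decide +kernel

theorem c5_0_1 : U5_0_1.all chk5 = true := by decide +kernel

theorem c5_0_2 : U5_0_2.all chk5 = true := by decide +kernel

theorem c5_0_3 : U5_0_3.all chk5 = true := by decide +kernel

theorem c5_0_4 : U5_0_4.all chk5 = true := by decide +kernel

theorem c5_0_5 : U5_0_5.all chk5 = true := by decide +kernel

theorem c5_0_6 : U5_0_6.all chk5 = true := by decide +kernel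

theorem c5_0_7 : U5_0_7.all chk5 = true := by decide +kernel

theorem cT5_0 : T5_0.all chk5 = true :=
  (all_node _ _ _
   (all_node _ _ _
    (all_node _ _ _
     c5_0_0
     c5_0_1)
    (all_node _ _ _
     c5_0_2
     c5_0_3))
   (all_node _ _ _
    (all_node _ _ _
     c5_0_4
     c5_0_5)
    (all_node _ _ _
     c5_0_6
     c5_0_7)))

theorem c5_1_0 : U5_1_0.all chk5 = true := by decide +kernel

theorem c5_1_1 : U5_1_1.all chk5 = true := by decide +kernel

theorem c5_1_2 : U5_1_2.all chk5 = true := by decide +kernel

theorem c5_1_3 : U5_1_3.all chk5 = true := by decide +kernel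

theorem c5_1_4 : U5_1_4.all chk5 = true := by decide +kernel

theorem c5_1_5 : U5_1_5.all chk5 = true := by decide +kernel

theorem c5_1_6 : U5_1_6.all chk5 = true := by decide +kernel

theorem c5_1_7 : U5_1_7.all chk5 = true := by decide +kernel

theorem cT5_1 : T5_1.all chk5 = true :=
  (all_node _ _ _
   (all_node _ _ _
    (all_node _ _ _
     c5_1_0
     c5_1_1)
    (all_node _ _ _
     c5_1_2
     c5_1_3))
   (all_node _ _ _
    (all_node _ _ _
     c5_1_4
     c5_1_5)
    (all_node _ _ _
     c5_1_6
     c5_1_7)))

end Pool.Agent.DCW
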