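import Pool.Agent.DCW.ChkB
import Pool.Agent.DCW.D6b

/-!
# The check of profiles with 6 darts, part 1
-/

set_option autoImplicit false

namespace Pool.Agent.DCW

theorem c6_4_0 : U6_4_0.all chk6 = true := by decide +kernel

theorem c6_4_1 : U6_4_1.all chk6 = true := by decide +kernel

theorem c6_4_2 : U6_4_2.all chk6 = true := by decide +kernel

theorem c6_4_3 : U6_4_3.all chk6 = true := by decide +kernel

theorem c6_4_4 : U6_4_4.all chk6 = true := by decide +kernel

theorem c6_4_5 : U6_4_5.all chk6 = true := by decide +kernel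

theorem c6_4_6 : U6_4_6.all chk6 = true := by decide +kernel

theorem c6_4_7 : U6_4_7.all chk6 = true := by decide +kernel

theorem cT6_4 : T6_4.all chk6 = true :=
  (all_node _ _ _
   (all_node _ _ _
    (all_node _ _ _
     c6_4_0
     c6_4_1)
    (all_node _ _ _
     c6_4_2
     c6_4_3))
   (all_node _ _ _
    (all_node _ _ _
     c6_4_4
     c6_4_5)
    (all_node _ _ _
     c6_4_6
     c6_4_7)))

theorem c6_5_0 : U6_5_0.all chk6 = true := by decide +kernel

theorem c6_5_1 : U6_5_1.all chk6 = true := by decide +kernel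

theorem c6_5_2 : U6_5_2.all chk6 = true := by decide +kernel

theorem c6_5_3 : U6_5_3.all chk6 = true := by decide +kernel

theorem c6_5_4 : U6_5_4.all chk6 = true := by decide +kernel

theorem c6_5_5 : U6_5_5.all chk6 = true := by decide +kernel

theorem c6_5_6 : U6_5_6.all chk6 = true := by decide +kernel

theorem c6_5_7 : U6_5_7.all chk6 = true := by decide +kernel

theorem cT6_5 : T6_5.all chk6 = true :=
  (all_node _ _ _
   (all_node _ _ _
    (all_node _ _ _
     c6_5_0
     c6_5_1)
    (all_node _ _ _
     c6_5_2
     c6_5_3))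
   (all_node _ _ _
    (all_node _ _ _
     c6_5_4
     c6_5_5)
    (all_node _ _ _
     c6_5_6
     c6_5_7)))

theorem c6_6_0 : U6_6_0.all chk6 = true := by decide +kernel

theorem c6_6_1 : U6_6_1.all chk6 = true := by decide +kernel

theorem c6_6_2 : U6_6_2.all chk6 = true := by decide +kernel

theorem c6_6_3 : U6_6_3.all chk6 = true := by decide +kernel

theorem c6_6_4 : U6_6_4.all chk6 = true := by decide +kernel

theorem c6_6_5 : U6_6_5.all chk6 = true := by decide +kernel

theorem c6_6_6 : U6_6_6.all chk6 = true := by decide +kernel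

theorem c6_6_7 : U6_6_7.all chk6 = true := by decide +kernel

theorem cT6_6 : T6_6.all chk6 = true :=
  (all_node _ _ _
   (all_node _ _ _
    (all_node _ _ _
     c6_6_0
     c6_6_1)
    (all_node _ _ _
     c6_6_2
     c6_6_3))
   (all_node _ _ _
    (all_node _ _ _
     c6_6_4
     c6_6_5)
    (all_node _ _ _
     c6_6_6
     c6_6_7)))

theorem c6_7_0 : U6_7_0.all chk6 = true := by decide +kernel

theorem c6_7_1 : U6_7_1.all chk6 = true := by decide +kernel

theorem c6_7_2 : U6_7_2.all chk6 = true := by decide +kernel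

theorem c6_7_3 : U6_7_3.all chk6 = true := by decide +kernel

theorem c6_7_4 : U6_7_4.all chk6 = true := by decide +kernel

theorem c6_7_5 : U6_7_5.all chk6 = true := by decide +kernel

theorem c6_7_6 : U6_7_6.all chk6 = true := by decide +kernel

theorem c6_7_7 : U6_7_7.all chk6 = true := by decide +kernel

theorem cT6_7 : T6_7.all chk6 = true :=
  (all_node _ _ _
   (all_node _ _ _
    (all_node _ _ _
     c6_7_0
     c6_7_1)
    (all_node _ _ _
     c6_7_2
     c6_7_3))
   (all_node _ _ _
    (all_node _ _ _
     c6_7_4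
     c6_7_5)
    (all_node _ _ _
     c6_7_6
     c6_7_7)))

end Pool.Agent.DCW
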