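import Pool.Agent.DCW.ChkB
import Pool.Agent.DCW.D6c

/-!
# The check of profiles with 6 darts, part 2
-/

set_option autoImplicit false

namespace Pool.Agent.DCW

theorem c6_8_0 : U6_8_0.all chk6 = true := by decide +kernel

theorem c6_8_1 : U6_8_1.all chk6 = true := by decide +kernel

theorem c6_8_2 : U6_8_2.all chk6 = true := by decide +kernel

theorem c6_8_3 : U6_8_3.all chk6 = true := by decide +kernel

theorem c6_8_4 : U6_8_4.all chk6 = true := by decide +kernel

theorem c6_8_5 : U6_8_5.all chk6 = true := by decide +kernel

theorem c6_8_6 : U6_8_6.all chk6 = true := by decide +kernel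

theorem c6_8_7 : U6_8_7.all chk6 = true := by decide +kernel

theorem cT6_8 : T6_8.all chk6 = true :=
  (all_node _ _ _
   (all_node _ _ _
    (all_node _ _ _
     c6_8_0
     c6_8_1)
    (all_node _ _ _
     c6_8_2
     c6_8_3))
   (all_node _ _ _
    (all_node _ _ _
     c6_8_4
     c6_8_5)
    (all_node _ _ _
     c6_8_6
     c6_8_7)))

theorem c6_9_0 : U6_9_0.all chk6 = true := by decide +kernel

theorem c6_9_1 : U6_9_1.all chk6 = true := by decide +kernel

theorem c6_9_2 : U6_9_2.all chk6 = true := by decide +kernel

theorem c6_9_3 : U6_9_3.all chk6 = true := by decide +kernel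

theorem c6_9_4 : U6_9_4.all chk6 = true := by decide +kernel

theorem c6_9_5 : U6_9_5.all chk6 = true := by decide +kernel

theorem c6_9_6 : U6_9_6.all chk6 = true := by decide +kernel

theorem c6_9_7 : U6_9_7.all chk6 = true := by decide +kernel

theorem cT6_9 : T6_9.all chk6 = true :=
  (all_node _ _ _
   (all_node _ _ _
    (all_node _ _ _
     c6_9_0
     c6_9_1)
    (all_node _ _ _
     c6_9_2
     c6_9_3))
   (all_node _ _ _
    (all_node _ _ _
     c6_9_4
     c6_9_5)
    (all_node _ _ _
     c6_9_6
     c6_9_7)))

theorem c6_10_0 : U6_10_0.all chk6 = true := by decide +kernel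

theorem c6_10_1 : U6_10_1.all chk6 = true := by decide +kernel

theorem c6_10_2 : U6_10_2.all chk6 = true := by decide +kernel

theorem c6_10_3 : U6_10_3.all chk6 = true := by decide +kernel

theorem c6_10_4 : U6_10_4.all chk6 = true := by decide +kernel

theorem c6_10_5 : U6_10_5.all chk6 = true := by decide +kernel

theorem c6_10_6 : U6_10_6.all chk6 = true := by decide +kernel

theorem c6_10_7 : U6_10_7.all chk6 = true := by decide +kernel

theorem cT6_10 : T6_10.all chk6 = true :=
  (all_node _ _ _
   (all_node _ _ _
    (all_node _ _ _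
     c6_10_0
     c6_10_1)
    (all_node _ _ _
     c6_10_2
     c6_10_3))
   (all_node _ _ _
    (all_node _ _ _
     c6_10_4
     c6_10_5)
    (all_node _ _ _
     c6_10_6
     c6_10_7)))

theorem c6_11_0 : U6_11_0.all chk6 = true := by decide +kernel

theorem c6_11_1 : U6_11_1.all chk6 = true := by decide +kernel

theorem c6_11_2 : U6_11_2.all chk6 = true := by decide +kernel

theorem c6_11_3 : U6_11_3.all chk6 = true := by decide +kernel

theorem c6_11_4 : U6_11_4.all chk6 = true := by decide +kernel

theorem c6_11_5 : U6_11_5.all chk6 = true := by decide +kernel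

theorem c6_11_6 : U6_11_6.all chk6 = true := by decide +kernel

theorem c6_11_7 : U6_11_7.all chk6 = true := by decide +kernel

theorem cT6_11 : T6_11.all chk6 = true :=
  (all_node _ _ _
   (all_node _ _ _
    (all_node _ _ _
     c6_11_0
     c6_11_1)
    (all_node _ _ _
     c6_11_2
     c6_11_3))
   (all_node _ _ _
    (all_node _ _ _
     c6_11_4
     c6_11_5)
    (all_node _ _ _
     c6_11_6
     c6_11_7)))

end Pool.Agent.DCW
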