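import Pool.Agent.DCW.ChkB
import Pool.Agent.DCW.D6d

/-!
# The check of profiles with 6 darts, part 3
-/

set_option autoImplicit false

namespace Pool.Agent.DCW

theorem c6_12_0 : U6_12_0.all chk6 = true := by decide +kernel

theorem c6_12_1 : U6_12_1.all chk6 = true := by decide +kernel

theorem c6_12_2 : U6_12_2.all chk6 = true := by decide +kernel

theorem c6_12_3 : U6_12_3.all chk6 = true := by decide +kernel

theorem c6_12_4 : U6_12_4.all chk6 = true := by decide +kernel

theorem c6_12_5 : U6_12_5.all chk6 = true := by decide +kernel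

theorem c6_12_6 : U6_12_6.all chk6 = true := by decide +kernel

theorem c6_12_7 : U6_12_7.all chk6 = true := by decide +kernel

theorem cT6_12 : T6_12.all chk6 = true :=
  (all_node _ _ _
   (all_node _ _ _
    (all_node _ _ _
     c6_12_0
     c6_12_1)
    (all_node _ _ _
     c6_12_2
     c6_12_3))
   (all_node _ _ _
    (all_node _ _ _
     c6_12_4
     c6_12_5)
    (all_node _ _ _
     c6_12_6
     c6_12_7)))

theorem c6_13_0 : U6_13_0.all chk6 = true := by decide +kernel

theorem c6_13_1 : U6_13_1.all chk6 = true := by decide +kernel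

theorem c6_13_2 : U6_13_2.all chk6 = true := by decide +kernel

theorem c6_13_3 : U6_13_3.all chk6 = true := by decide +kernel

theorem c6_13_4 : U6_13_4.all chk6 = true := by decide +kernel

theorem c6_13_5 : U6_13_5.all chk6 = true := by decide +kernel

theorem c6_13_6 : U6_13_6.all chk6 = true := by decide +kernel

theorem c6_13_7 : U6_13_7.all chk6 = true := by decide +kernel

theorem cT6_13 : T6_13.all chk6 = true :=
  (all_node _ _ _
   (all_node _ _ _
    (all_node _ _ _
     c6_13_0
     c6_13_1)
    (all_node _ _ _
     c6_13_2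
     c6_13_3))
   (all_node _ _ _
    (all_node _ _ _
     c6_13_4
     c6_13_5)
    (all_node _ _ _
     c6_13_6
     c6_13_7)))

theorem c6_14_0 : U6_14_0.all chk6 = true := by decide +kernel

theorem c6_14_1 : U6_14_1.all chk6 = true := by decide +kernel

theorem c6_14_2 : U6_14_2.all chk6 = true := by decide +kernel

theorem c6_14_3 : U6_14_3.all chk6 = true := by decide +kernel

theorem c6_14_4 : U6_14_4.all chk6 = true := by decide +kernel

theorem c6_14_5 : U6_14_5.all chk6 = true := by decide +kernel

theorem c6_14_6 : U6_14_6.all chk6 = true := by decide +kernel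

theorem c6_14_7 : U6_14_7.all chk6 = true := by decide +kernel

theorem cT6_14 : T6_14.all chk6 = true :=
  (all_node _ _ _
   (all_node _ _ _
    (all_node _ _ _
     c6_14_0
     c6_14_1)
    (all_node _ _ _
     c6_14_2
     c6_14_3))
   (all_node _ _ _
    (all_node _ _ _
     c6_14_4
     c6_14_5)
    (all_node _ _ _
     c6_14_6
     c6_14_7)))

theorem c6_15_0 : U6_15_0.all chk6 = true := by decide +kernel

theorem c6_15_1 : U6_15_1.all chk6 = true := by decide +kernel

theorem c6_15_2 : U6_15_2.all chk6 = true := by decide +kernel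

theorem c6_15_3 : U6_15_3.all chk6 = true := by decide +kernel

theorem c6_15_4 : U6_15_4.all chk6 = true := by decide +kernel

theorem c6_15_5 : U6_15_5.all chk6 = true := by decide +kernel

theorem c6_15_6 : U6_15_6.all chk6 = true := by decide +kernel

theorem c6_15_7 : U6_15_7.all chk6 = true := by decide +kernel

theorem cT6_15 : T6_15.all chk6 = true :=
  (all_node _ _ _
   (all_node _ _ _
    (all_node _ _ _
     c6_15_0
     c6_15_1)
    (all_node _ _ _
     c6_15_2
     c6_15_3))
   (all_node _ _ _
    (all_node _ _ _
     c6_15_4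
     c6_15_5)
    (all_node _ _ _
     c6_15_6
     c6_15_7)))

end Pool.Agent.DCW
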