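import Pool.Agent.DCW.ChkB
import Pool.Agent.DCW.D6e

/-!
# The check of profiles with 6 darts, part 4
-/

set_option autoImplicit false

namespace Pool.Agent.DCW

theorem c6_16_0 : U6_16_0.all chk6 = true := by decide +kernel

theorem c6_16_1 : U6_16_1.all chk6 = true := by decide +kernel

theorem c6_16_2 : U6_16_2.all chk6 = true := by decide +kernel

theorem c6_16_3 : U6_16_3.all chk6 = true := by decide +kernel

theorem c6_16_4 : U6_16_4.all chk6 = true := by decide +kernel

theorem c6_16_5 : U6_16_5.all chk6 = true := by decide +kernel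

theorem c6_16_6 : U6_16_6.all chk6 = true := by decide +kernel

theorem c6_16_7 : U6_16_7.all chk6 = true := by decide +kernel

theorem cT6_16 : T6_16.all chk6 = true :=
  (all_node _ _ _
   (all_node _ _ _
    (all_node _ _ _
     c6_16_0
     c6_16_1)
    (all_node _ _ _
     c6_16_2
     c6_16_3))
   (all_node _ _ _
    (all_node _ _ _
     c6_16_4
     c6_16_5)
    (all_node _ _ _
     c6_16_6
     c6_16_7)))

theorem c6_17_0 : U6_17_0.all chk6 = true := by decide +kernel

theorem c6_17_1 : U6_17_1.all chk6 = true := by decide +kernel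

theorem c6_17_2 : U6_17_2.all chk6 = true := by decide +kernel

theorem c6_17_3 : U6_17_3.all chk6 = true := by decide +kernel

theorem c6_17_4 : U6_17_4.all chk6 = true := by decide +kernel

theorem c6_17_5 : U6_17_5.all chk6 = true := by decide +kernel

theorem c6_17_6 : U6_17_6.all chk6 = true := by decide +kernel

theorem c6_17_7 : U6_17_7.all chk6 = true := by decide +kernel

theorem cT6_17 : T6_17.all chk6 = true :=
  (all_node _ _ _
   (all_node _ _ _
    (all_node _ _ _
     c6_17_0
     c6_17_1)
    (all_node _ _ _
     c6_17_2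
     c6_17_3))
   (all_node _ _ _
    (all_node _ _ _
     c6_17_4
     c6_17_5)
    (all_node _ _ _
     c6_17_6
     c6_17_7)))

theorem c6_18_0 : U6_18_0.all chk6 = true := by decide +kernel

theorem c6_18_1 : U6_18_1.all chk6 = true := by decide +kernel

theorem c6_18_2 : U6_18_2.all chk6 = true := by decide +kernel

theorem c6_18_3 : U6_18_3.all chk6 = true := by decide +kernel

theorem c6_18_4 : U6_18_4.all chk6 = true := by decide +kernel

theorem c6_18_5 : U6_18_5.all chk6 = true := by decide +kernel

theorem c6_18_6 : U6_18_6.all chk6 = true := by decide +kernel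

theorem c6_18_7 : U6_18_7.all chk6 = true := by decide +kernel

theorem cT6_18 : T6_18.all chk6 = true :=
  (all_node _ _ _
   (all_node _ _ _
    (all_node _ _ _
     c6_18_0
     c6_18_1)
    (all_node _ _ _
     c6_18_2
     c6_18_3))
   (all_node _ _ _
    (all_node _ _ _
     c6_18_4
     c6_18_5)
    (all_node _ _ _
     c6_18_6
     c6_18_7)))

theorem c6_19_0 : U6_19_0.all chk6 = true := by decide +kernel

theorem c6_19_1 : U6_19_1.all chk6 = true := by decide +kernel

theorem c6_19_2 : U6_19_2.all chk6 = true := by decide +kernel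

theorem c6_19_3 : U6_19_3.all chk6 = true := by decide +kernel

theorem c6_19_4 : U6_19_4.all chk6 = true := by decide +kernel

theorem c6_19_5 : U6_19_5.all chk6 = true := by decide +kernel

theorem c6_19_6 : U6_19_6.all chk6 = true := by decide +kernel

theorem c6_19_7 : U6_19_7.all chk6 = true := by decide +kernel

theorem cT6_19 : T6_19.all chk6 = true :=
  (all_node _ _ _
   (all_node _ _ _
    (all_node _ _ _
     c6_19_0
     c6_19_1)
    (all_node _ _ _
     c6_19_2
     c6_19_3))
   (all_node _ _ _
    (all_node _ _ _
     c6_19_4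
     c6_19_5)
    (all_node _ _ _
     c6_19_6
     c6_19_7)))

end Pool.Agent.DCW
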