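import Pool.Agent.DCW.ChkB
import Pool.Agent.DCW.D6f

/-!
# The check of profiles with 6 darts, part 5
-/

set_option autoImplicit false

namespace Pool.Agent.DCW

theorem c6_20_0 : U6_20_0.all chk6 = true := by decide +kernel

theorem c6_20_1 : U6_20_1.all chk6 = true := by decide +kernel

theorem c6_20_2 : U6_20_2.all chk6 = true := by decide +kernel

theorem c6_20_3 : U6_20_3.all chk6 = true := by decide +kernel

theorem c6_20_4 : U6_20_4.all chk6 = true := by decide +kernel

theorem c6_20_5 : U6_20_5.all chk6 = true := by decide +kernel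

theorem c6_20_6 : U6_20_6.all chk6 = true := by decide +kernel

theorem c6_20_7 : U6_20_7.all chk6 = true := by decide +kernel

theorem cT6_20 : T6_20.all chk6 = true :=
  (all_node _ _ _
   (all_node _ _ _
    (all_node _ _ _
     c6_20_0
     c6_20_1)
    (all_node _ _ _
     c6_20_2
     c6_20_3))
   (all_node _ _ _
    (all_node _ _ _
     c6_20_4
     c6_20_5)
    (all_node _ _ _
     c6_20_6
     c6_20_7)))

theorem c6_21_0 : U6_21_0.all chk6 = true := by decide +kernel

theorem c6_21_1 : U6_21_1.all chk6 = true := by decide +kernel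

theorem c6_21_2 : U6_21_2.all chk6 = true := by decide +kernel

theorem c6_21_3 : U6_21_3.all chk6 = true := by decide +kernel

theorem c6_21_4 : U6_21_4.all chk6 = true := by decide +kernel

theorem c6_21_5 : U6_21_5.all chk6 = true := by decide +kernel

theorem c6_21_6 : U6_21_6.all chk6 = true := by decide +kernel

theorem c6_21_7 : U6_21_7.all chk6 = true := by decide +kernel

theorem cT6_21 : T6_21.all chk6 = true :=
  (all_node _ _ _
   (all_node _ _ _
    (all_node _ _ _
     c6_21_0
     c6_21_1)
    (all_node _ _ _
     c6_21_2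
     c6_21_3))
   (all_node _ _ _
    (all_node _ _ _
     c6_21_4
     c6_21_5)
    (all_node _ _ _
     c6_21_6
     c6_21_7)))

theorem c6_22_0 : U6_22_0.all chk6 = true := by decide +kernel

theorem c6_22_1 : U6_22_1.all chk6 = true := by decide +kernel

theorem c6_22_2 : U6_22_2.all chk6 = true := by decide +kernel

theorem c6_22_3 : U6_22_3.all chk6 = true := by decide +kernel

theorem c6_22_4 : U6_22_4.all chk6 = true := by decide +kernel

theorem c6_22_5 : U6_22_5.all chk6 = true := by decide +kernel

theorem c6_22_6 : U6_22_6.all chk6 = true := by decide +kernel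

theorem c6_22_7 : U6_22_7.all chk6 = true := by decide +kernel

theorem cT6_22 : T6_22.all chk6 = true :=
  (all_node _ _ _
   (all_node _ _ _
    (all_node _ _ _
     c6_22_0
     c6_22_1)
    (all_node _ _ _
     c6_22_2
     c6_22_3))
   (all_node _ _ _
    (all_node _ _ _
     c6_22_4
     c6_22_5)
    (all_node _ _ _
     c6_22_6
     c6_22_7)))

theorem c6_23_0 : U6_23_0.all chk6 = true := by decide +kernel

theorem c6_23_1 : U6_23_1.all chk6 = true := by decide +kernel

theorem c6_23_2 : U6_23_2.all chk6 = true := by decide +kernel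

theorem c6_23_3 : U6_23_3.all chk6 = true := by decide +kernel

theorem c6_23_4 : U6_23_4.all chk6 = true := by decide +kernel

theorem c6_23_5 : U6_23_5.all chk6 = true := by decide +kernel

theorem c6_23_6 : U6_23_6.all chk6 = true := by decide +kernel

theorem c6_23_7 : U6_23_7.all chk6 = true := by decide +kernel

theorem cT6_23 : T6_23.all chk6 = true :=
  (all_node _ _ _
   (all_node _ _ _
    (all_node _ _ _
     c6_23_0
     c6_23_1)
    (all_node _ _ _
     c6_23_2
     c6_23_3))
   (all_node _ _ _
    (all_node _ _ _
     c6_23_4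
     c6_23_5)
    (all_node _ _ _
     c6_23_6
     c6_23_7)))

end Pool.Agent.DCW
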