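import Pool.Agent.DCW.ChkB
import Pool.Agent.DCW.D6g

/-!
# The check of profiles with 6 darts, part 6
-/

set_option autoImplicit false

namespace Pool.Agent.DCW

theorem c6_24_0 : U6_24_0.all chk6 = true := by decide +kernel

theorem c6_24_1 : U6_24_1.all chk6 = true := by decide +kernel

theorem c6_24_2 : U6_24_2.all chk6 = true := by decide +kernel

theorem c6_24_3 : U6_24_3.all chk6 = true := by decide +kernel

theorem c6_24_4 : U6_24_4.all chk6 = true := by decide +kernel

theorem c6_24_5 : U6_24_5.all chk6 = true := by decide +kernel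

theorem c6_24_6 : U6_24_6.all chk6 = true := by decide +kernel

theorem c6_24_7 : U6_24_7.all chk6 = true := by decide +kernel

theorem cT6_24 : T6_24.all chk6 = true :=
  (all_node _ _ _
   (all_node _ _ _
    (all_node _ _ _
     c6_24_0
     c6_24_1)
    (all_node _ _ _
     c6_24_2
     c6_24_3))
   (all_node _ _ _
    (all_node _ _ _
     c6_24_4
     c6_24_5)
    (all_node _ _ _
     c6_24_6
     c6_24_7)))

theorem c6_25_0 : U6_25_0.all chk6 = true := by decide +kernel

theorem c6_25_1 : U6_25_1.all chk6 = true := by decide +kernel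

theorem c6_25_2 : U6_25_2.all chk6 = true := by decide +kernel

theorem c6_25_3 : U6_25_3.all chk6 = true := by decide +kernel

theorem c6_25_4 : U6_25_4.all chk6 = true := by decide +kernel

theorem c6_25_5 : U6_25_5.all chk6 = true := by decide +kernel

theorem c6_25_6 : U6_25_6.all chk6 = true := by decide +kernel

theorem c6_25_7 : U6_25_7.all chk6 = true := by decide +kernel

theorem cT6_25 : T6_25.all chk6 = true :=
  (all_node _ _ _
   (all_node _ _ _
    (all_node _ _ _
     c6_25_0
     c6_25_1)
    (all_node _ _ _
     c6_25_2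
     c6_25_3))
   (all_node _ _ _
    (all_node _ _ _
     c6_25_4
     c6_25_5)
    (all_node _ _ _
     c6_25_6
     c6_25_7)))

theorem c6_26_0 : U6_26_0.all chk6 = true := by decide +kernel

theorem c6_26_1 : U6_26_1.all chk6 = true := by decide +kernel

theorem c6_26_2 : U6_26_2.all chk6 = true := by decide +kernel

theorem c6_26_3 : U6_26_3.all chk6 = true := by decide +kernel

theorem c6_26_4 : U6_26_4.all chk6 = true := by decide +kernel

theorem c6_26_5 : U6_26_5.all chk6 = true := by decide +kernel

theorem c6_26_6 : U6_26_6.all chk6 = true := by decide +kernel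

theorem c6_26_7 : U6_26_7.all chk6 = true := by decide +kernel

theorem cT6_26 : T6_26.all chk6 = true :=
  (all_node _ _ _
   (all_node _ _ _
    (all_node _ _ _
     c6_26_0
     c6_26_1)
    (all_node _ _ _
     c6_26_2
     c6_26_3))
   (all_node _ _ _
    (all_node _ _ _
     c6_26_4
     c6_26_5)
    (all_node _ _ _
     c6_26_6
     c6_26_7)))

theorem c6_27_0 : U6_27_0.all chk6 = true := by decide +kernel

theorem c6_27_1 : U6_27_1.all chk6 = true := by decide +kernel

theorem c6_27_2 : U6_27_2.all chk6 = true := by decide +kernel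

theorem c6_27_3 : U6_27_3.all chk6 = true := by decide +kernel

theorem c6_27_4 : U6_27_4.all chk6 = true := by decide +kernel

theorem c6_27_5 : U6_27_5.all chk6 = true := by decide +kernel

theorem c6_27_6 : U6_27_6.all chk6 = true := by decide +kernel

theorem c6_27_7 : U6_27_7.all chk6 = true := by decide +kernel

theorem cT6_27 : T6_27.all chk6 = true :=
  (all_node _ _ _
   (all_node _ _ _
    (all_node _ _ _
     c6_27_0
     c6_27_1)
    (all_node _ _ _
     c6_27_2
     c6_27_3))
   (all_node _ _ _
    (all_node _ _ _
     c6_27_4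
     c6_27_5)
    (all_node _ _ _
     c6_27_6
     c6_27_7)))

end Pool.Agent.DCW
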