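import Pool.Agent.DCW.ChkB
import Pool.Agent.DCW.D6h

/-!
# The check of profiles with 6 darts, part 7
-/

set_option autoImplicit false

namespace Pool.Agent.DCW

theorem c6_28_0 : U6_28_0.all chk6 = true := by decide +kernel

theorem c6_28_1 : U6_28_1.all chk6 = true := by decide +kernel

theorem c6_28_2 : U6_28_2.all chk6 = true := by decide +kernel

theorem c6_28_3 : U6_28_3.all chk6 = true := by decide +kernel

theorem c6_28_4 : U6_28_4.all chk6 = true := by decide +kernel

theorem c6_28_5 : U6_28_5.all chk6 = true := by decide +kernel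

theorem c6_28_6 : U6_28_6.all chk6 = true := by decide +kernel

theorem c6_28_7 : U6_28_7.all chk6 = true := by decide +kernel

theorem cT6_28 : T6_28.all chk6 = true :=
  (all_node _ _ _
   (all_node _ _ _
    (all_node _ _ _
     c6_28_0
     c6_28_1)
    (all_node _ _ _
     c6_28_2
     c6_28_3))
   (all_node _ _ _
    (all_node _ _ _
     c6_28_4
     c6_28_5)
    (all_node _ _ _
     c6_28_6
     c6_28_7)))

theorem c6_29_0 : U6_29_0.all chk6 = true := by decide +kernel

theorem c6_29_1 : U6_29_1.all chk6 = true := by decide +kernel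

theorem c6_29_2 : U6_29_2.all chk6 = true := by decide +kernel

theorem c6_29_3 : U6_29_3.all chk6 = true := by decide +kernel

theorem c6_29_4 : U6_29_4.all chk6 = true := by decide +kernel

theorem c6_29_5 : U6_29_5.all chk6 = true := by decide +kernel

theorem c6_29_6 : U6_29_6.all chk6 = true := by decide +kernel

theorem c6_29_7 : U6_29_7.all chk6 = true := by decide +kernel

theorem cT6_29 : T6_29.all chk6 = true :=
  (all_node _ _ _
   (all_node _ _ _
    (all_node _ _ _
     c6_29_0
     c6_29_1)
    (all_node _ _ _
     c6_29_2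
     c6_29_3))
   (all_node _ _ _
    (all_node _ _ _
     c6_29_4
     c6_29_5)
    (all_node _ _ _
     c6_29_6
     c6_29_7)))

theorem c6_30_0 : U6_30_0.all chk6 = true := by decide +kernel

theorem c6_30_1 : U6_30_1.all chk6 = true := by decide +kernel

theorem c6_30_2 : U6_30_2.all chk6 = true := by decide +kernel

theorem c6_30_3 : U6_30_3.all chk6 = true := by decide +kernel

theorem c6_30_4 : U6_30_4.all chk6 = true := by decide +kernel

theorem c6_30_5 : U6_30_5.all chk6 = true := by decide +kernel

theorem c6_30_6 : U6_30_6.all chk6 = true := by decide +kernel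

theorem c6_30_7 : U6_30_7.all chk6 = true := by decide +kernel

theorem cT6_30 : T6_30.all chk6 = true :=
  (all_node _ _ _
   (all_node _ _ _
    (all_node _ _ _
     c6_30_0
     c6_30_1)
    (all_node _ _ _
     c6_30_2
     c6_30_3))
   (all_node _ _ _
    (all_node _ _ _
     c6_30_4
     c6_30_5)
    (all_node _ _ _
     c6_30_6
     c6_30_7)))

theorem c6_31_0 : U6_31_0.all chk6 = true := by decide +kernel

theorem c6_31_1 : U6_31_1.all chk6 = true := by decide +kernel

theorem c6_31_2 : U6_31_2.all chk6 = true := by decide +kernel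

theorem c6_31_3 : U6_31_3.all chk6 = true := by decide +kernel

theorem c6_31_4 : U6_31_4.all chk6 = true := by decide +kernel

theorem c6_31_5 : U6_31_5.all chk6 = true := by decide +kernel

theorem c6_31_6 : U6_31_6.all chk6 = true := by decide +kernel

theorem c6_31_7 : U6_31_7.all chk6 = true := by decide +kernel

theorem cT6_31 : T6_31.all chk6 = true :=
  (all_node _ _ _
   (all_node _ _ _
    (all_node _ _ _
     c6_31_0
     c6_31_1)
    (all_node _ _ _
     c6_31_2
     c6_31_3))
   (all_node _ _ _
    (all_node _ _ _
     c6_31_4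
     c6_31_5)
    (all_node _ _ _
     c6_31_6
     c6_31_7)))

end Pool.Agent.DCW
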