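import Pool.Agent.DCW.ChkB
import Pool.Agent.DCW.D6i

/-!
# The check of profiles with 6 darts, part 8
-/

set_option autoImplicit false

namespace Pool.Agent.DCW

theorem c6_32_0 : U6_32_0.all chk6 = true := by decide +kernel

theorem c6_32_1 : U6_32_1.all chk6 = true := by decide +kernel

theorem c6_32_2 : U6_32_2.all chk6 = true := by decide +kernel

theorem c6_32_3 : U6_32_3.all chk6 = true := by decide +kernel

theorem c6_32_4 : U6_32_4.all chk6 = true := by decide +kernel

theorem c6_32_5 : U6_32_5.all chk6 = true := by decide +kernel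

theorem c6_32_6 : U6_32_6.all chk6 = true := by decide +kernel

theorem c6_32_7 : U6_32_7.all chk6 = true := by decide +kernel

theorem cT6_32 : T6_32.all chk6 = true :=
  (all_node _ _ _
   (all_node _ _ _
    (all_node _ _ _
     c6_32_0
     c6_32_1)
    (all_node _ _ _
     c6_32_2
     c6_32_3))
   (all_node _ _ _
    (all_node _ _ _
     c6_32_4
     c6_32_5)
    (all_node _ _ _
     c6_32_6
     c6_32_7)))

theorem c6_33_0 : U6_33_0.all chk6 = true := by decide +kernel

theorem cT6_33 : T6_33.all chk6 = true :=
  c6_33_0

end Pool.Agent.DCW
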