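import Pool.Agent.DCW.C6a
import Pool.Agent.DCW.C6b
import Pool.Agent.DCW.C6c
import Pool.Agent.DCW.C6d
import Pool.Agent.DCW.C6e
import Pool.Agent.DCW.C6f
import Pool.Agent.DCW.C6g
import Pool.Agent.DCW.C6h
import Pool.Agent.DCW.C6i
import Pool.Agent.DCW.D6

/-!
# The check of the profiles with 6 darts
-/

set_option autoImplicit false

namespace Pool.Agent.DCW

theorem c6 : R6.all chk6 = true :=
  (all_node _ _ _
   (all_node _ _ _
    (all_node _ _ _
     (all_node _ _ _
      (all_node _ _ _
       (all_node _ _ _
        cT6_0
        cT6_1)
       cT6_2)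
      (all_node _ _ _
       cT6_3
       cT6_4))
     (all_node _ _ _
      (all_node _ _ _
       cT6_5
       cT6_6)
      (all_node _ _ _
       cT6_7
       cT6_8)))
    (all_node _ _ _
     (all_node _ _ _
      (all_node _ _ _
       cT6_9
       cT6_10)
      (all_node _ _ _
       cT6_11
       cT6_12))
     (all_node _ _ _
      (all_node _ _ _
       cT6_13
       cT6_14)
      (all_node _ _ _
       cT6_15
       cT6_16))))
   (all_node _ _ _
    (all_node _ _ _
     (all_node _ _ _
      (all_node _ _ _
       (all_node _ _ _
        cT6_17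
        cT6_18)
       cT6_19)
      (all_node _ _ _
       cT6_20
       cT6_21))
     (all_node _ _ _
      (all_node _ _ _
       cT6_22
       cT6_23)
      (all_node _ _ _
       cT6_24
       cT6_25)))
    (all_node _ _ _
     (all_node _ _ _
      (all_node _ _ _
       cT6_26
       cT6_27)
      (all_node _ _ _
       cT6_28
       cT6_29))
     (all_node _ _ _
      (all_node _ _ _
       cT6_30
       cT6_31)
      (all_node _ _ _
       cT6_32
       cT6_33)))))

end Pool.Agent.DCW
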