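import Pool.Agent.DCW.ChkB
import Pool.Agent.DCW.D6a

/-!
# The check of profiles with 6 darts, part 0
-/

set_option autoImplicit false

namespace Pool.Agent.DCW

theorem c6_0_0 : U6_0_0.all chk6 = true := by decide +kernel

theorem c6_0_1 : U6_0_1.all chk6 = true := by decide +kernel

theorem c6_0_2 : U6_0_2.all chk6 = true := by decide +kernel

theorem c6_0_3 : U6_0_3.all chk6 = true := by decide +kernel

theorem c6_0_4 : U6_0_4.all chk6 = true := by decide +kernel

theorem c6_0_5 : U6_0_5.all chk6 = true := by decide +kernel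

theorem c6_0_6 : U6_0_6.all chk6 = true := by decide +kernel

theorem c6_0_7 : U6_0_7.all chk6 = true := by decide +kernel

theorem cT6_0 : T6_0.all chk6 = true :=
  (all_node _ _ _
   (all_node _ _ _
    (all_node _ _ _
     c6_0_0
     c6_0_1)
    (all_node _ _ _
     c6_0_2
     c6_0_3))
   (all_node _ _ _
    (all_node _ _ _
     c6_0_4
     c6_0_5)
    (all_node _ _ _
     c6_0_6
     c6_0_7)))

theorem c6_1_0 : U6_1_0.all chk6 = true := by decide +kernel

theorem c6_1_1 : U6_1_1.all chk6 = true := by decide +kernel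

theorem c6_1_2 : U6_1_2.all chk6 = true := by decide +kernel

theorem c6_1_3 : U6_1_3.all chk6 = true := by decide +kernel

theorem c6_1_4 : U6_1_4.all chk6 = true := by decide +kernel

theorem c6_1_5 : U6_1_5.all chk6 = true := by decide +kernel

theorem c6_1_6 : U6_1_6.all chk6 = true := by decide +kernel

theorem c6_1_7 : U6_1_7.all chk6 = true := by decide +kernel

theorem cT6_1 : T6_1.all chk6 = true :=
  (all_node _ _ _
   (all_node _ _ _
    (all_node _ _ _
     c6_1_0
     c6_1_1)
    (all_node _ _ _
     c6_1_2
     c6_1_3))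
   (all_node _ _ _
    (all_node _ _ _
     c6_1_4
     c6_1_5)
    (all_node _ _ _
     c6_1_6
     c6_1_7)))

theorem c6_2_0 : U6_2_0.all chk6 = true := by decide +kernel

theorem c6_2_1 : U6_2_1.all chk6 = true := by decide +kernel

theorem c6_2_2 : U6_2_2.all chk6 = true := by decide +kernel

theorem c6_2_3 : U6_2_3.all chk6 = true := by decide +kernel

theorem c6_2_4 : U6_2_4.all chk6 = true := by decide +kernel

theorem c6_2_5 : U6_2_5.all chk6 = true := by decide +kernel

theorem c6_2_6 : U6_2_6.all chk6 = true := by decide +kernel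

theorem c6_2_7 : U6_2_7.all chk6 = true := by decide +kernel

theorem cT6_2 : T6_2.all chk6 = true :=
  (all_node _ _ _
   (all_node _ _ _
    (all_node _ _ _
     c6_2_0
     c6_2_1)
    (all_node _ _ _
     c6_2_2
     c6_2_3))
   (all_node _ _ _
    (all_node _ _ _
     c6_2_4
     c6_2_5)
    (all_node _ _ _
     c6_2_6
     c6_2_7)))

theorem c6_3_0 : U6_3_0.all chk6 = true := by decide +kernel

theorem c6_3_1 : U6_3_1.all chk6 = true := by decide +kernel

theorem c6_3_2 : U6_3_2.all chk6 = true := by decide +kernel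

theorem c6_3_3 : U6_3_3.all chk6 = true := by decide +kernel

theorem c6_3_4 : U6_3_4.all chk6 = true := by decide +kernel

theorem c6_3_5 : U6_3_5.all chk6 = true := by decide +kernel

theorem c6_3_6 : U6_3_6.all chk6 = true := by decide +kernel

theorem c6_3_7 : U6_3_7.all chk6 = true := by decide +kernel

theorem cT6_3 : T6_3.all chk6 = true :=
  (all_node _ _ _
   (all_node _ _ _
    (all_node _ _ _
     c6_3_0
     c6_3_1)
    (all_node _ _ _
     c6_3_2
     c6_3_3))
   (all_node _ _ _
    (all_node _ _ _
     c6_3_4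
     c6_3_5)
    (all_node _ _ _
     c6_3_6
     c6_3_7)))

end Pool.Agent.DCW
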