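import Pool.Agent.DCW.St

/-!
# The checker

The functions are written with the bare `Nat` operations and the recursors, for the evaluation by
the kernel.
-/

set_option autoImplicit false

namespace Pool.Agent.DCW

/-- A profile with its certificate `w`: base `2 ^ 22` digits `720 * path + code`. -/
structure Pc where
  (t c w : ℕ)

/-- A tree of profiles. -/
inductive Tr where
  | leaf : Pc → Tr
  | node : Tr → Tr → Tr

/-- The profile at the end of a path. -/
noncomputable def Tr.get (s : Tr) : ℕ → Pc :=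
  Tr.rec (motive := fun _ => ℕ → Pc) (fun p _ => p)
    (fun _ _ gl gr n => Bool.rec (motive := fun _ => Pc) (gr (Nat.div n 2)) (gl (Nat.div n 2))
      (Nat.beq (Nat.mod n 2) 0)) s

/-- All profiles of the tree satisfy `f`. -/
noncomputable def Tr.all (f : Pc → Bool) (s : Tr) : Bool :=
  Tr.rec (motive := fun _ => Bool) (fun p => f p)
    (fun _ _ al ar => Bool.rec (motive := fun _ => Bool) false ar al) s

/-- Data for an interchange of two digits. -/
structure W2 where
  (d : Sw) (x : Sx)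

/-- The interchange of a table. -/
def apT (d : Sw) (t : ℕ) : ℕ :=
  Nat.lor (Nat.lor (Nat.lor (Nat.lor (Nat.land t d.m0) (Nat.shiftLeft (Nat.land t d.m1) d.s))
    (Nat.shiftLeft (Nat.land t d.m2) d.s2)) (Nat.shiftRight (Nat.land t d.n1) d.s))
    (Nat.shiftRight (Nat.land t d.n2) d.s2)

/-- The interchange of a cut table. -/
def apC (d : Sx) (c : ℕ) : ℕ :=
  Nat.lor (Nat.lor (Nat.land c d.m0) (Nat.shiftLeft (Nat.land c d.m1) d.s))
    (Nat.shiftRight (Nat.land c d.n1) d.s)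

/-- A list of interchanges. -/
noncomputable def seqT (l : List W2) : ℕ → ℕ :=
  List.rec (motive := fun _ => ℕ → ℕ) (fun t => t) (fun a _ ih t => ih (apT a.d t)) l

/-- A list of interchanges. -/
noncomputable def seqC (l : List W2) : ℕ → ℕ :=
  List.rec (motive := fun _ => ℕ → ℕ) (fun t => t) (fun a _ ih t => ih (apC a.x t)) l

/-- The interchange with number `n`, if there is one. -/
noncomputable def nthT (l : List W2) : ℕ → ℕ → ℕ :=
  List.rec (motive := fun _ => ℕ → ℕ → ℕ) (fun _ t => t)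
    (fun a _ ih n t => Bool.rec (motive := fun _ => ℕ) (ih (Nat.sub n 1) t) (apT a.d t)
      (Nat.beq n 0)) l

/-- The interchange with number `n`, if there is one. -/
noncomputable def nthC (l : List W2) : ℕ → ℕ → ℕ :=
  List.rec (motive := fun _ => ℕ → ℕ → ℕ) (fun _ t => t)
    (fun a _ ih n t => Bool.rec (motive := fun _ => ℕ) (ih (Nat.sub n 1) t) (apC a.x t)
      (Nat.beq n 0)) l

/-- A row of interchanges. -/
structure Rw where
  (n : ℕ) (l : List W2)

/-- The permutation with code `m`. -/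
noncomputable def perT (l : List Rw) : ℕ → ℕ → ℕ :=
  List.rec (motive := fun _ => ℕ → ℕ → ℕ) (fun _ t => t)
    (fun p _ ih m t => ih (Nat.div m p.n) (nthT p.l (Nat.mod m p.n) t)) l

/-- The permutation with code `m`. -/
noncomputable def perC (l : List Rw) : ℕ → ℕ → ℕ :=
  List.rec (motive := fun _ => ℕ → ℕ → ℕ) (fun _ t => t)
    (fun p _ ih m t => ih (Nat.div m p.n) (nthC p.l (Nat.mod m p.n) t)) l

/-- The block with number `q`. -/
def subN (A one q t : ℕ) : ℕ := Nat.land (Nat.shiftRight t (Nat.mul A q)) one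

/-- One level down. -/
def dnN (lo v : ℕ) : ℕ := Nat.lor (Nat.land (Nat.shiftRight v 1) lo) v

/-- As `blkG`. -/
noncomputable def blkGN (A x : ℕ) (h : ℕ) : ℕ :=
  Nat.rec (motive := fun _ => ℕ) x (fun h ih =>
    Nat.lor (Nat.lor ih (Nat.shiftLeft ih (Nat.mul A (Nat.pow 3 h))))
      (Nat.shiftLeft ih (Nat.mul 2 (Nat.mul A (Nat.pow 3 h))))) h

/-- As `blk`. -/
noncomputable def blkN (A x y z : ℕ) (h : ℕ) : Bool → ℕ :=
  Nat.rec (motive := fun _ => Bool → ℕ) (fun e => Bool.rec (motive := fun _ => ℕ) z y e)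
    (fun h ih e => Nat.lor (Nat.lor (ih true) (Nat.shiftLeft (ih e) (Nat.mul A (Nat.pow 3 h))))
      (Nat.shiftLeft (blkGN A x h) (Nat.mul 2 (Nat.mul A (Nat.pow 3 h))))) h

/-- As `blkC`. -/
noncomputable def blkCN (B hic : ℕ) (h : ℕ) : ℕ → ℕ → ℕ :=
  Nat.rec (motive := fun _ => ℕ → ℕ → ℕ) (fun x y => Nat.lor x y)
    (fun h ih x y => Nat.lor (ih x (Nat.land (Nat.shiftLeft y 1) hic))
      (Nat.shiftLeft (ih (Nat.land (Nat.shiftLeft x 1) hic) y) (Nat.mul B (Nat.pow 2 h)))) h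

/-- `stepT` for `j = 0`. -/
noncomputable def st0 (d : Cf) (t : ℕ) : ℕ :=
  (fun o1 o2 => blkN d.A o1 (Nat.lor (Nat.lor o1 o2) 0) (Nat.lor o1 0) 3 false)
    (Nat.land (Nat.shiftLeft (subN d.A d.one 0 t) 2) d.hi) (dnN d.lo (subN d.A d.one 0 t))

/-- `stepT` for `j = 1`. -/
noncomputable def st1 (d : Cf) (t : ℕ) : ℕ :=
  (fun o1 o2 o3 => blkN d.A o1 (Nat.lor (Nat.lor o1 o2) o3) (Nat.lor o1 o3) 2 false)
    (Nat.land (Nat.shiftLeft (subN d.A d.one 0 t) 2) d.hi) (dnN d.lo (subN d.A d.one 1 t))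
    (dnN d.lo (subN d.A d.one 2 t))

/-- `stepT` for `j = 2`. -/
def st2 (d : Cf) (t : ℕ) : ℕ :=
  (fun o1 o2 o3 => Nat.lor (Nat.lor (Nat.lor (Nat.lor o1 o2) o3)
      (Nat.shiftLeft (Nat.lor o1 o3) d.A)) (Nat.shiftLeft o1 (Nat.mul 2 d.A)))
    (Nat.land (Nat.shiftLeft (subN d.A d.one 0 t) 2) d.hi) (dnN d.lo (subN d.A d.one 4 t))
    (dnN d.lo (Nat.lor (subN d.A d.one 5 t) (subN d.A d.one 7 t)))

/-- `stepT` for `j = 3`. -/
def st3 (d : Cf) (t : ℕ) : ℕ :=
  Nat.lor (Nat.land (Nat.shiftLeft (subN d.A d.one 0 t) 2) d.hi)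
    (dnN d.lo (Nat.lor (Nat.lor (subN d.A d.one 14 t) (subN d.A d.one 16 t))
      (subN d.A d.one 22 t)))

/-- `stepC`; `q2 = 2 ^ j - 1`, `h = 3 - j`. -/
noncomputable def stC (d : Cf) (q2 h c : ℕ) : ℕ :=
  blkCN d.B d.hic h (subN d.B d.onec 0 c) (subN d.B d.onec q2 c)

/-- Not `pr`. -/
def npr (d : Cf) (q2 c : ℕ) : Bool :=
  Nat.beq (Nat.mod (Nat.shiftRight c (Nat.mul d.B q2)) (Nat.succ q2)) 0

/-- The comparison with the profile `Q`. -/
noncomputable def cmp (rows : List Rw) (m T C : ℕ) (Q : Pc) : Bool :=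
  Bool.rec (motive := fun _ => Bool) false (Nat.beq (Nat.land Q.c (perC rows m C)) Q.c)
    (Nat.beq (Nat.land Q.t (perT rows m T)) Q.t)

/-- One transition, after the preparation. -/
noncomputable def one1 (rows : List Rw) (R : Tr) (d : Cf) (st : ℕ → ℕ) (q2 h t c m : ℕ) : Bool :=
  Bool.rec (motive := fun _ => Bool) true
    (cmp rows (Nat.mod m 720) (st t) (stC d q2 h c) (R.get (Nat.div m 720))) (npr d q2 c)

/-- The transitions for a list of preparations. -/
noncomputable def trs (rows : List Rw) (R : Tr) (d : Cf) (st : ℕ → ℕ) (q2 h t c : ℕ)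
    (l : List (List W2)) : ℕ → Bool :=
  List.rec (motive := fun _ => ℕ → Bool) (fun _ => true)
    (fun s _ ih w => Bool.rec (motive := fun _ => Bool) false (ih (Nat.div w 4194304))
      (one1 rows R d st q2 h (seqT s t) (seqC s c) (Nat.mod w 4194304))) l

end Pool.Agent.DCW
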