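import Pool.Agent.DCW.Check

/-!
# Lemmas on the checker
-/

set_option autoImplicit false

namespace Pool.Agent.DCW

/-- Membership in a tree. -/
def Tr.Mem : Tr → Pc → Prop
  | .leaf q, p => p = q
  | .node a b, p => a.Mem p ∨ b.Mem p

theorem get_mem (s : Tr) : ∀ n, s.Mem (s.get n) := by
  induction s with
  | leaf q => intro n; rfl
  | node a b iha ihb =>
    intro n
    show (Tr.node a b).Mem (Bool.rec (motive := fun _ => Pc) (b.get (Nat.div n 2))
      (a.get (Nat.div n 2)) (Nat.beq (Nat.mod n 2) 0))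
    cases Nat.beq (Nat.mod n 2) 0
    · exact Or.inr (ihb _)
    · exact Or.inl (iha _)

theorem all_node (f : Pc → Bool) (a b : Tr) (ha : a.all f = true) (hb : b.all f = true) :
    (Tr.node a b).all f = true := by
  show (Bool.rec (motive := fun _ => Bool) false (b.all f) (a.all f) : Bool) = true
  rw [ha]
  exact hb

theorem and_of (x y : Bool) (h : (Bool.rec (motive := fun _ => Bool) false y x : Bool) = true) :
    x = true ∧ y = true := by
  cases x with
  | false => exact Bool.noConfusion (show false = true from h)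
  | true => exact ⟨rfl, h⟩

theorem all_mem (f : Pc → Bool) (s : Tr) (h : s.all f = true) : ∀ p, s.Mem p → f p = true := by
  induction s with
  | leaf q =>
    intro p hp
    rw [show p = q from hp]
    exact h
  | node a b iha ihb =>
    obtain ⟨h1, h2⟩ := and_of _ _ h
    intro p hp
    rcases hp with hp | hp
    · exact iha h1 p hp
    · exact ihb h2 p hp

theorem apT_eq (d : Sw) (t : ℕ) : apT d t = d.ap t := rfl

theorem apC_eq (d : Sx) (t : ℕ) : apC d t = d.ap t := rfl

/-- The interchange of `i`, `j`. -/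
def W (b i j : ℕ) : W2 := ⟨mkSw b i j, mkSx b i j⟩

theorem swT_app (b : ℕ) (u v : List (ℕ × ℕ)) (t : ℕ) :
    swT b (u ++ v) t = swT b v (swT b u t) := by
  induction u generalizing t with
  | nil => rfl
  | cons p u ih => exact ih _

theorem swC_app (b : ℕ) (u v : List (ℕ × ℕ)) (t : ℕ) :
    swC b (u ++ v) t = swC b v (swC b u t) := by
  induction u generalizing t with
  | nil => rfl
  | cons p u ih => exact ih _

theorem seqT_eq (b : ℕ) (s : List (ℕ × ℕ)) (t : ℕ) :
    seqT (s.map fun p => W b p.1 p.2) t = swT b s t := by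
  induction s generalizing t with
  | nil => rfl
  | cons p u ih => exact ih _

theorem seqC_eq (b : ℕ) (s : List (ℕ × ℕ)) (t : ℕ) :
    seqC (s.map fun p => W b p.1 p.2) t = swC b s t := by
  induction s generalizing t with
  | nil => rfl
  | cons p u ih => exact ih _

/-- The entries are interchanges. -/
def GoodL (b : ℕ) (l : List W2) : Prop := ∀ w ∈ l, ∃ i j, i < j ∧ j < b ∧ w = W b i j

theorem nth_ok (b : ℕ) (l : List W2) (hl : GoodL b l) : ∀ n, ∃ u, Val b u ∧
    (∀ T, nthT l n T = swT b u T) ∧ (∀ C, nthC l n C = swC b u C) := by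
  induction l with
  | nil =>
    intro n
    exact ⟨[], fun p hp => absurd hp (by simp), fun _ => rfl, fun _ => rfl⟩
  | cons a l ih =>
    intro n
    have e1 : ∀ T, nthT (a :: l) n T = Bool.rec (motive := fun _ => ℕ) (nthT l (Nat.sub n 1) T)
      (apT a.d T) (Nat.beq n 0) := fun _ => rfl
    have e2 : ∀ T, nthC (a :: l) n T = Bool.rec (motive := fun _ => ℕ) (nthC l (Nat.sub n 1) T)
      (apC a.x T) (Nat.beq n 0) := fun _ => rfl
    cases h : Nat.beq n 0 with
    | true =>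
      rw [h] at e1 e2
      obtain ⟨i, j, h1, h2, h3⟩ := hl a (by simp)
      refine ⟨[(i, j)], ?_, ?_, ?_⟩
      · intro p hp
        rw [List.mem_singleton] at hp
        subst hp
        exact ⟨h1, h2⟩
      · intro T
        rw [e1, h3]
        rfl
      · intro T
        rw [e2, h3]
        rfl
    | false =>
      rw [h] at e1 e2
      obtain ⟨u, h1, h2, h3⟩ := ih (fun w hw => hl w (by simp [hw])) (Nat.sub n 1)
      exact ⟨u, h1, fun T => (e1 T).trans (h2 T), fun T => (e2 T).trans (h3 T)⟩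

theorem per_ok (b : ℕ) (rows : List Rw) (hl : ∀ r ∈ rows, GoodL b r.l) : ∀ m, ∃ u, Val b u ∧
    (∀ T, perT rows m T = swT b u T) ∧ (∀ C, perC rows m C = swC b u C) := by
  induction rows with
  | nil =>
    intro n
    exact ⟨[], fun p hp => absurd hp (by simp), fun _ => rfl, fun _ => rfl⟩
  | cons r l ih =>
    intro m
    have e1 : ∀ T, perT (r :: l) m T = perT l (Nat.div m r.n) (nthT r.l (Nat.mod m r.n) T) :=
      fun _ => rfl
    have e2 : ∀ T, perC (r :: l) m T = perC l (Nat.div m r.n) (nthC r.l (Nat.mod m r.n) T) :=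
      fun _ => rfl
    obtain ⟨u, h1, h2, h3⟩ := nth_ok b r.l (hl r (by simp)) (Nat.mod m r.n)
    obtain ⟨v, k1, k2, k3⟩ := ih (fun w hw => hl w (by simp [hw])) (Nat.div m r.n)
    refine ⟨u ++ v, ?_, ?_, ?_⟩
    · intro p hp
      rcases List.mem_append.1 hp with hp | hp
      · exact h1 p hp
      · exact k1 p hp
    · intro T
      rw [e1, h2, k2, swT_app]
    · intro T
      rw [e2, h3, k3, swC_app]

theorem cmp_ok (rows : List Rw) (m T C : ℕ) (Q : Pc) (h : cmp rows m T C Q = true) :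
    Q.t &&& perT rows m T = Q.t ∧ Q.c &&& perC rows m C = Q.c := by
  obtain ⟨h1, h2⟩ := and_of _ _ h
  exact ⟨Nat.eq_of_beq_eq_true h1, Nat.eq_of_beq_eq_true h2⟩

theorem one1_ok (rows : List Rw) (R : Tr) (d : Cf) (st : ℕ → ℕ) (q2 h t c m : ℕ)
    (H : one1 rows R d st q2 h t c m = true) :
    npr d q2 c = false ∨ cmp rows (Nat.mod m 720) (st t) (stC d q2 h c)
      (R.get (Nat.div m 720)) = true := by
  have e : one1 rows R d st q2 h t c m = Bool.rec (motive := fun _ => Bool) true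
    (cmp rows (Nat.mod m 720) (st t) (stC d q2 h c) (R.get (Nat.div m 720))) (npr d q2 c) := rfl
  rw [e] at H
  cases h' : npr d q2 c with
  | false => exact Or.inl rfl
  | true =>
    rw [h'] at H
    exact Or.inr H

theorem trs_ok (rows : List Rw) (R : Tr) (d : Cf) (st : ℕ → ℕ) (q2 h t c : ℕ)
    (l : List (List W2)) : ∀ w, trs rows R d st q2 h t c l w = true → ∀ s ∈ l,
      ∃ m, one1 rows R d st q2 h (seqT s t) (seqC s c) m = true := by
  induction l with
  | nil => intro w _ s hs; exact absurd hs (by simp)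
  | cons a l ih =>
    intro w H s hs
    obtain ⟨h1, h2⟩ := and_of _ _ H
    rcases List.mem_cons.1 hs with hs | hs
    · subst hs
      exact ⟨_, h1⟩
    · exact ih _ h2 s hs

theorem blkGN_eq (A x h : ℕ) : blkGN A x h = blkG A x h := by
  induction h with
  | zero => rfl
  | succ h ih =>
    have e : blkGN A x (h + 1) = Nat.lor (Nat.lor (blkGN A x h)
      (Nat.shiftLeft (blkGN A x h) (Nat.mul A (Nat.pow 3 h))))
      (Nat.shiftLeft (blkGN A x h) (Nat.mul 2 (Nat.mul A (Nat.pow 3 h)))) := rfl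
    rw [e, ih]
    rfl

theorem blkN_eq (A x y z h : ℕ) : ∀ e, blkN A x y z h e = blk A x y z h e := by
  induction h with
  | zero => intro e; cases e <;> rfl
  | succ h ih =>
    intro e
    have e1 : blkN A x y z (h + 1) e = Nat.lor (Nat.lor (blkN A x y z h true)
      (Nat.shiftLeft (blkN A x y z h e) (Nat.mul A (Nat.pow 3 h))))
      (Nat.shiftLeft (blkGN A x h) (Nat.mul 2 (Nat.mul A (Nat.pow 3 h)))) := rfl
    rw [e1, ih, ih, blkGN_eq]
    rfl

theorem blkCN_eq (B hic h : ℕ) : ∀ x y, blkCN B hic h x y = blkC B hic h x y := by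
  induction h with
  | zero => intro x y; rfl
  | succ h ih =>
    intro x y
    have e1 : blkCN B hic (h + 1) x y = Nat.lor (blkCN B hic h x (Nat.land (Nat.shiftLeft y 1) hic))
      (Nat.shiftLeft (blkCN B hic h (Nat.land (Nat.shiftLeft x 1) hic) y)
        (Nat.mul B (Nat.pow 2 h))) := rfl
    rw [e1, ih, ih]
    rfl

theorem st0_eq (b t : ℕ) : st0 (mkCf b 0) t = stepT b 0 t := by
  have e : st0 (mkCf b 0) t = blkN (mkCf b 0).A
    ((sub (mkCf b 0).A (mkCf b 0).one 0 t <<< 2) &&& (mkCf b 0).hi)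
    (((sub (mkCf b 0).A (mkCf b 0).one 0 t <<< 2) &&& (mkCf b 0).hi) |||
      dn (mkCf b 0).lo (sub (mkCf b 0).A (mkCf b 0).one 0 t) ||| 0)
    (((sub (mkCf b 0).A (mkCf b 0).one 0 t <<< 2) &&& (mkCf b 0).hi) ||| 0) 3 false := rfl
  have e' : stepT b 0 t = blk (mkCf b 0).A
    ((sub (mkCf b 0).A (mkCf b 0).one 0 t <<< 2) &&& (mkCf b 0).hi)
    (((sub (mkCf b 0).A (mkCf b 0).one 0 t <<< 2) &&& (mkCf b 0).hi) |||
      dn (mkCf b 0).lo (sub (mkCf b 0).A (mkCf b 0).one 0 t) |||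
      dn (mkCf b 0).lo 0)
    (((sub (mkCf b 0).A (mkCf b 0).one 0 t <<< 2) &&& (mkCf b 0).hi) |||
      dn (mkCf b 0).lo 0) 3 false := rfl
  have h : ∀ lo : ℕ, dn lo 0 = 0 := by intro lo; simp [dn]
  rw [e, e', blkN_eq, h]

theorem st1_eq (b t : ℕ) : st1 (mkCf b 1) t = stepT b 1 t := by
  have e : st1 (mkCf b 1) t = blkN (mkCf b 1).A
    ((sub (mkCf b 1).A (mkCf b 1).one 0 t <<< 2) &&& (mkCf b 1).hi)
    (((sub (mkCf b 1).A (mkCf b 1).one 0 t <<< 2) &&& (mkCf b 1).hi) |||
      dn (mkCf b 1).lo (sub (mkCf b 1).A (mkCf b 1).one 1 t) |||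
      dn (mkCf b 1).lo (sub (mkCf b 1).A (mkCf b 1).one 2 t))
    (((sub (mkCf b 1).A (mkCf b 1).one 0 t <<< 2) &&& (mkCf b 1).hi) |||
      dn (mkCf b 1).lo (sub (mkCf b 1).A (mkCf b 1).one 2 t)) 2 false := rfl
  have e' : stepT b 1 t = blk (mkCf b 1).A
    ((sub (mkCf b 1).A (mkCf b 1).one 0 t <<< 2) &&& (mkCf b 1).hi)
    (((sub (mkCf b 1).A (mkCf b 1).one 0 t <<< 2) &&& (mkCf b 1).hi) |||
      dn (mkCf b 1).lo (sub (mkCf b 1).A (mkCf b 1).one 1 t) |||
      dn (mkCf b 1).lo (sub (mkCf b 1).A (mkCf b 1).one 2 t))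
    (((sub (mkCf b 1).A (mkCf b 1).one 0 t <<< 2) &&& (mkCf b 1).hi) |||
      dn (mkCf b 1).lo (sub (mkCf b 1).A (mkCf b 1).one 2 t)) 2 false := rfl
  rw [e, e', blkN_eq]

theorem st2_eq (b t : ℕ) : st2 (mkCf b 2) t = stepT b 2 t := by
  have e : stepT b 2 t = blk (mkCf b 2).A
    ((sub (mkCf b 2).A (mkCf b 2).one 0 t <<< 2) &&& (mkCf b 2).hi)
    (((sub (mkCf b 2).A (mkCf b 2).one 0 t <<< 2) &&& (mkCf b 2).hi) |||
      dn (mkCf b 2).lo (sub (mkCf b 2).A (mkCf b 2).one 4 t) |||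
      dn (mkCf b 2).lo (sub (mkCf b 2).A (mkCf b 2).one 5 t |||
        sub (mkCf b 2).A (mkCf b 2).one 7 t))
    (((sub (mkCf b 2).A (mkCf b 2).one 0 t <<< 2) &&& (mkCf b 2).hi) |||
      dn (mkCf b 2).lo (sub (mkCf b 2).A (mkCf b 2).one 5 t |||
        sub (mkCf b 2).A (mkCf b 2).one 7 t)) 1 false := rfl
  rw [e]
  simp only [blk, blkG, cond_true, cond_false, pow_zero, mul_one]
  rfl

theorem st3_eq (b t : ℕ) : st3 (mkCf b 3) t = stepT b 3 t := rfl

theorem stC_eq (b j q2 h c : ℕ) (h1 : q2 = 2 ^ j - 1) (h2 : h = 3 - j) :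
    stC (mkCf b j) q2 h c = stepC b j c := by
  subst h1 h2
  show blkCN _ _ _ _ _ = _
  rw [blkCN_eq]
  rfl

theorem beq_z (x : ℕ) : Nat.beq x 0 = (x == 0) := by
  cases x <;> rfl

theorem npr_eq (b j q2 c : ℕ) (h1 : q2 = 2 ^ j - 1) : npr (mkCf b j) q2 c = !pr b j c := by
  subst h1
  have h : Nat.succ (2 ^ j - 1) = 2 ^ j := Nat.sub_add_cancel (Nat.two_pow_pos j)
  unfold npr pr
  rw [h, Bool.not_not, beq_z]
  rfl

/-- The lists of length `n`. -/
def allB : ℕ → List (List Bool)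
  | 0 => [[]]
  | n + 1 => (allB n).flatMap fun l => [false :: l, true :: l]

theorem mem_allB (l : List Bool) : l ∈ allB l.length := by
  induction l with
  | nil => simp [allB]
  | cons a l ih =>
    simp only [allB, List.length_cons, List.mem_flatMap]
    exact ⟨l, ih, by cases a <;> simp⟩

/-- The patterns with `j` of `b` darts are brought to the end. -/
def patB (b j : ℕ) (pp : List (List (ℕ × ℕ))) : Bool :=
  (allB b).all fun π => !(π.count true == j) ||
    pp.any fun s => swlL s π == List.replicate (b - j) false ++ List.replicate j true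

theorem pat_ok (b j : ℕ) (pp : List (List (ℕ × ℕ))) (h : patB b j pp = true) (π : List Bool)
    (h1 : π.length = b) (h2 : π.count true = j) : ∃ s ∈ pp,
      swlL s π = List.replicate (b - j) false ++ List.replicate j true := by
  have h3 := List.all_eq_true.1 h π (h1 ▸ mem_allB π)
  rw [h2] at h3
  simpa using h3

theorem step_of (b j nb : ℕ) (rows : List Rw) (R : Tr) (d : Cf) (st : ℕ → ℕ) (q2 h : ℕ)
    (pre : List (List W2)) (pp : List (List (ℕ × ℕ))) (hd : d = mkCf b j)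
    (hst : ∀ t, st t = stepT b j t) (hq : q2 = 2 ^ j - 1) (hh : h = 3 - j)
    (hrows : ∀ r ∈ rows, GoodL nb r.l)
    (hpre : pre = pp.map (List.map fun p => W b p.1 p.2)) (hpp : ∀ s ∈ pp, Val b s)
    (hpat : patB b j pp = true)
    (t c w : ℕ) (H : trs rows R d st q2 h t c pre w = true) (π : List Bool)
    (h1 : π.length = b) (h2 : π.count true = j) :
    ∃ s : List (ℕ × ℕ), Val b s ∧
      swlL s π = List.replicate (b - j) false ++ List.replicate j true ∧
      (pr b j (swC b s c) = true ∨ ∃ (Q : Prof) (u : List (ℕ × ℕ)),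
        (∃ w', R.Mem ⟨Q.t, Q.c, w'⟩) ∧ Val nb u ∧
        Q.t &&& swT nb u (stepT b j (swT b s t)) = Q.t ∧
        Q.c &&& swC nb u (stepC b j (swC b s c)) = Q.c) := by
  subst hd
  obtain ⟨s, hs, hs'⟩ := pat_ok b j pp hpat π h1 h2
  refine ⟨s, hpp s hs, hs', ?_⟩
  have hm : (s.map fun p => W b p.1 p.2) ∈ pre := by
    rw [hpre]
    exact List.mem_map.2 ⟨s, hs, rfl⟩
  obtain ⟨m, hm⟩ := trs_ok rows R _ st q2 h t c pre w H _ hm
  rw [seqT_eq, seqC_eq] at hm
  rcases one1_ok _ _ _ _ _ _ _ _ _ hm with h3 | h3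
  · left
    rw [npr_eq b j q2 _ hq] at h3
    simpa using h3
  · right
    obtain ⟨k1, k2⟩ := cmp_ok _ _ _ _ _ h3
    obtain ⟨u, u1, u2, u3⟩ := per_ok nb rows hrows (Nat.mod m 720)
    rw [u2, hst] at k1
    rw [u3, stC_eq b j q2 h _ hq hh] at k2
    exact ⟨⟨(R.get (Nat.div m 720)).t, (R.get (Nat.div m 720)).c⟩, u,
      ⟨(R.get (Nat.div m 720)).w, get_mem R _⟩, u1, k1, k2⟩

end Pool.Agent.DCW
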