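import Pool.Agent.DCW.Check

/-!
# Profiles with 3 darts
-/

set_option autoImplicit false

namespace Pool.Agent.DCW

/-- Profiles with 3 darts. -/
noncomputable def U3_0_0 : Tr :=
  (.node
   (.node
    (.node
     (.leaf ⟨0x2000f003c00f003f80fe03c00fe03f80f003f80fe03f80fe03f80fe03f80fe03c00fe03f80fe03f80fe03f80fe03ff0, 0xfb6db7, 0x1c25c0709701c25cb42cf⟩)
     (.leaf ⟨0x3e00f803e00f803e00f803e00f803e00f803e00f803e00f803fc0f803fc0ff03e00f803e00f803fc0ff03e00ff03fc0, 0xfb6db7, 0x4385c10e1704385d682cf⟩))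
    (.node
     (.leaf ⟨0x3800fc03f00fc03f00fc03f00fc03fe0e003f00fc03f00fc03fe0fc03fe0ff83f00fc03f00fc03f00ff83f00ff83fe0, 0xfb6db7, 0x5a5c07bd101ef010e2a2⟩)
     (.leaf ⟨0x3800e003f00e003f00fc03f00fc03fe0e003f00fc03f00fc03f00fc03f00ff83f00fc03fe0fc03f00ff83fe0ff83fe0, 0xfb6db7, 0x32a5c0ca97032a5c2d2cf⟩)))
   (.node
    (.node
     (.leaf ⟨0x3000f803e00f803fc0ff03e00ff03fc0f803e00ff03e00ff03fc0f803fc0ff03e00f803fc0ff03fc0ff03fc0ff03ff8, 0xfb6db7, 0x13b5c0a8d7017eaccaacf⟩)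
     (.leaf ⟨0x3c00f003c00f003c00fe03f80fe03f80f003c00fe03f80fe03ff0fe03f80ffc3f80fe03f80fe03f80ffc3f80fe03ff0, 0xfb6db7, 0x875c021d70043dca8ecf⟩))
    (.node
     (.leaf ⟨0x3c00fe03f80fe03f80fe03f80fe03f80fe03f80fe03f80fe03f80fe03f80fe03f80fe03f80fe03f80fe03f80fe03f80, 0xfb6db7, 0x195340654d0195366ae60⟩)
     (.leaf ⟨0x3800fc03f00fc03f00ff83f00ff83fe0e003f00fc03f00ff83fe0fc03fe0ff83800fc03f00fc03fe0ff83f00ff83fe0, 0xfb6db7, 0x2279c0168d005a3458c22⟩))))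

/-- Profiles with 3 darts. -/
noncomputable def U3_0_1 : Tr :=
  (.leaf ⟨0x3000f803e00f803fc0ff03e00ff03fc0f803fc0ff03fc0ff03fc0ff03fc0ff03e00ff03fc0ff03fc0ff03fc0ff03fc0, 0xfb6db7, 0x384340e10d038434013af⟩)

/-- The profiles with 3 darts. -/
noncomputable def R3 : Tr :=
  (.node
   (U3_0_0)
   (U3_0_1))

/-- The certificate of the empty profile. -/
def wE : ℕ := 5765

end Pool.Agent.DCW
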