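import Pool.Agent.DCW.D5a

/-!
# The profiles with 5 darts
-/

set_option autoImplicit false

namespace Pool.Agent.DCW

/-- The profiles with 5 darts. -/
noncomputable def R5 : Tr :=
  (.node
   (.node
    (.node
     (.node
      (T5_0)
      (T5_1))
     (T5_2))
    (.node
     (T5_3)
     (T5_4)))
   (.node
    (.node
     (.node
      (T5_5)
      (T5_6))
     (T5_7))
    (.node
     (T5_8)
     (T5_9))))

end Pool.Agent.DCW
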