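import Pool.Agent.DCW.Tab
import Pool.Agent.DCW.ChkLem
import Pool.Agent.DCW.D3
import Pool.Agent.DCW.D4
import Pool.Agent.DCW.D5
import Pool.Agent.DCW.D6

/-!
# The checks of a profile with zero, three, four, five darts
-/

set_option autoImplicit false

namespace Pool.Agent.DCW

/-- The transitions from the empty profile. -/
noncomputable def chk0 : Bool :=
  trs rows3 R3 cf0_0 (st0 cf0_0) 0 3 tE 7 pre0_0 wE

/-- The transitions from a profile with three darts. -/
noncomputable def chk3 (p : Pc) : Bool :=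
  Bool.rec (motive := fun _ => Bool) false
    (Bool.rec (motive := fun _ => Bool) false
      (trs rows4 R4 cf3_1 (st1 cf3_1) 1 2 p.t p.c pre3_1 (Nat.shiftRight p.w 22))
      (trs rows6 R6 cf3_0 (st0 cf3_0) 0 3 p.t p.c pre3_0 p.w))
    (Nat.testBit (st3 cf3_3 p.t) 8)

/-- The transitions from a profile with four darts. -/
noncomputable def chk4 (p : Pc) : Bool :=
  Bool.rec (motive := fun _ => Bool) false
    (trs rows3 R3 cf4_2 (st2 cf4_2) 3 1 p.t p.c pre4_2 (Nat.shiftRight p.w 88))
    (trs rows5 R5 cf4_1 (st1 cf4_1) 1 2 p.t p.c pre4_1 p.w)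

/-- The transitions from a profile with five darts. -/
noncomputable def chk5 (p : Pc) : Bool :=
  Bool.rec (motive := fun _ => Bool) false
    (trs rows4 R4 cf5_2 (st2 cf5_2) 3 1 p.t p.c pre5_2 (Nat.shiftRight p.w 110))
    (trs rows6 R6 cf5_1 (st1 cf5_1) 1 2 p.t p.c pre5_1 p.w)

end Pool.Agent.DCW
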