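import Pool.Agent.DCW.Tab
import Pool.Agent.DCW.ChkLem
import Pool.Agent.DCW.D3
import Pool.Agent.DCW.D5

/-!
# The check of a profile with six darts
-/

set_option autoImplicit false

namespace Pool.Agent.DCW

/-- The transitions from a profile with six darts. -/
noncomputable def chk6 (p : Pc) : Bool :=
  Bool.rec (motive := fun _ => Bool) false
    (trs rows3 R3 cf6_3 (st3 cf6_3) 7 0 p.t p.c pre6_3 (Nat.shiftRight p.w 330))
    (trs rows5 R5 cf6_2 (st2 cf6_2) 3 1 p.t p.c pre6_2 p.w)

end Pool.Agent.DCW
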