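import Mathlib

/-!
# Domination of 3-connected cubic graphs of cutwidth at most six (MP_b5ee1a_co)

The vertices are added one by one along an ordering. For the set `U` of the vertices added so far
the *boundary* `bd G U` is the set of the darts leaving `U`, listed as `β`. A number `t` codes a
table of claims (for the labels `f` of the boundary there is a realizing set `D` with
`3 |D| + 7 ≤ |U| + k`), a number `c` codes claims (there is a cut of cost at most `m`).

Words: a label list is read with the first entry as the least significant digit. Labels: `0` = the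
inner end relies on the outer end of the dart, `2` = the inner end has to be in `D`, `1` = neither.
-/

set_option autoImplicit false

namespace Pool.Agent.DCW

section Graph

variable {V : Type} [Fintype V] [DecidableEq V] (G : SimpleGraph V) [DecidableRel G.Adj]

/-- The darts (ordered edges) which leave `U`. -/
def bd (U : Finset V) : Finset (V × V) :=
  Finset.univ.filter fun d => d.1 ∈ U ∧ d.2 ∉ U ∧ G.Adj d.1 d.2

/-- The number of edges from `X` to `Y`. -/
def cut (X Y : Finset V) : ℕ := ((X ×ˢ Y).filter fun d => G.Adj d.1 d.2).card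

/-- `D ⊆ U` realizes the labels `f`. -/
def Real (U : Finset V) (f : V × V → Fin 3) (D : Finset V) : Prop :=
  D ⊆ U ∧ (∀ d ∈ bd G U, f d = 2 → d.1 ∈ D) ∧
    ∀ u ∈ U, u ∈ D ∨ (∃ w ∈ D, G.Adj w u) ∨ ∃ d ∈ bd G U, d.1 = u ∧ f d = 0

/-- The cost of `X ⊆ U` relative to the sides `S` of the darts of the boundary. -/
def cost (U X : Finset V) (S : V × V → Bool) : ℕ :=
  cut G X (U \ X) + ((bd G U).filter fun d => S d ≠ decide (d.1 ∈ X)).card

end Graph

/-- The number with the base 3 digits `l`, least significant digit first. -/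
def i3 : List (Fin 3) → ℕ
  | [] => 0
  | a :: l => a.val + 3 * i3 l

/-- The number with the binary digits `l`, least significant digit first. -/
def i2 : List Bool → ℕ
  | [] => 0
  | a :: l => a.toNat + 2 * i2 l

/-- The number of levels. -/
abbrev K : ℕ := 14

section Sem

variable {V : Type} [Fintype V] [DecidableEq V] (G : SimpleGraph V) [DecidableRel G.Adj]

/-- The claims of the table `t` are true. -/
def DomOK (U : Finset V) (β : List (V × V)) (t : ℕ) : Prop :=
  ∀ (f : V × V → Fin 3) (k : ℕ), k < K → t.testBit (K * i3 (β.map f) + k) = true →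
    ∃ D, Real G U f D ∧ 3 * D.card + 7 ≤ U.card + k

/-- The claims of the cut table `c` are true. -/
def CutOK (U : Finset V) (β : List (V × V)) (c : ℕ) : Prop :=
  ∀ (S : V × V → Bool) (m : ℕ), m < 3 → c.testBit (3 * i2 (β.map S) + m) = true →
    ∃ X, X ⊆ U ∧ cost G U X S ≤ m

end Sem

/-! ### Bit operations -/

/-- The union over `q < n` with `g q` of `x` shifted by `w * q`. -/
def fld (w x : ℕ) (g : ℕ → Bool) : ℕ → ℕ
  | 0 => 0
  | n + 1 => fld w x g n ||| (if g n then x <<< (w * n) else 0)

/-- Interchange of the entries `i` and `j` of a list. -/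
def swl {α : Type} (i j : ℕ) (l : List α) : List α :=
  match l[i]?, l[j]? with
  | some x, some y => (l.set i y).set j x
  | _, _ => l

/-- Data for the interchange of two digits of a table. -/
structure Sw where
  (s s2 m0 m1 m2 n1 n2 : ℕ)

/-- The interchange applied to a table. -/
def Sw.ap (d : Sw) (t : ℕ) : ℕ :=
  (t &&& d.m0) ||| ((t &&& d.m1) <<< d.s) ||| ((t &&& d.m2) <<< d.s2) |||
    ((t &&& d.n1) >>> d.s) ||| ((t &&& d.n2) >>> d.s2)

/-- A base 3 digit. -/
def dg (q i : ℕ) : ℕ := q / 3 ^ i % 3

/-- The interchange of the digits `i < j` for tables with `b` digits. -/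
def mkSw (b i j : ℕ) : Sw where
  s := K * (3 ^ j - 3 ^ i)
  s2 := 2 * (K * (3 ^ j - 3 ^ i))
  m0 := fld K (2 ^ K - 1) (fun q => dg q i == dg q j) (3 ^ b)
  m1 := fld K (2 ^ K - 1) (fun q => dg q i == dg q j + 1) (3 ^ b)
  m2 := fld K (2 ^ K - 1) (fun q => dg q i == dg q j + 2) (3 ^ b)
  n1 := fld K (2 ^ K - 1) (fun q => dg q i + 1 == dg q j) (3 ^ b)
  n2 := fld K (2 ^ K - 1) (fun q => dg q i + 2 == dg q j) (3 ^ b)

/-- Data for the interchange of two digits of a cut table. -/
structure Sx where
  (s m0 m1 n1 : ℕ)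

/-- The interchange applied to a cut table. -/
def Sx.ap (d : Sx) (c : ℕ) : ℕ :=
  (c &&& d.m0) ||| ((c &&& d.m1) <<< d.s) ||| ((c &&& d.n1) >>> d.s)

/-- A binary digit. -/
def dx (q i : ℕ) : ℕ := q / 2 ^ i % 2

/-- The interchange of the digits `i < j` for cut tables with `b` digits. -/
def mkSx (b i j : ℕ) : Sx where
  s := 3 * (2 ^ j - 2 ^ i)
  m0 := fld 3 7 (fun q => dx q i == dx q j) (2 ^ b)
  m1 := fld 3 7 (fun q => dx q i == dx q j + 1) (2 ^ b)
  n1 := fld 3 7 (fun q => dx q i + 1 == dx q j) (2 ^ b)

/-- The constants for the absorption of the last `j` of `b` darts. `r = b - j`, `A` the size of a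
block of `3 ^ r` fields, `one` its mask, `hi` the bits of level at least two, `lo` the bits below the
highest level; the same for the cut tables. -/
structure Cf where
  (A one hi lo B onec hic : ℕ)

/-- The constants. -/
def mkCf (b j : ℕ) : Cf where
  A := K * 3 ^ (b - j)
  one := 2 ^ (K * 3 ^ (b - j)) - 1
  hi := fld K (2 ^ K - 4) (fun _ => true) (3 ^ (b - j))
  lo := fld K (2 ^ (K - 1) - 1) (fun _ => true) (3 ^ (b - j))
  B := 3 * 2 ^ (b - j)
  onec := 2 ^ (3 * 2 ^ (b - j)) - 1
  hic := fld 3 6 (fun _ => true) (2 ^ (b - j))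

/-- The block with number `q`. -/
def sub (A one q t : ℕ) : ℕ := (t >>> (A * q)) &&& one

/-- One level down. -/
def dn (lo v : ℕ) : ℕ := ((v >>> 1) &&& lo) ||| v

/-- The blocks for `h` new darts, one of the new labels (or an earlier one) being `2`. -/
def blkG (A x : ℕ) : ℕ → ℕ
  | 0 => x
  | h + 1 => blkG A x h ||| (blkG A x h <<< (A * 3 ^ h)) ||| (blkG A x h <<< (2 * (A * 3 ^ h)))

/-- The blocks for `h` new darts: `x` if a label is `2`, otherwise `y` if a label is `0` (or `e`),
otherwise `z`. -/
def blk (A x y z : ℕ) : ℕ → Bool → ℕ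
  | 0, e => bif e then y else z
  | h + 1, e => blk A x y z h true ||| (blk A x y z h e <<< (A * 3 ^ h)) |||
      (blkG A x h <<< (2 * (A * 3 ^ h)))

/-- The union of the blocks with exactly one absorbed label `2`, the others `1`. -/
def sub3 (A one t : ℕ) : ℕ → ℕ
  | 0 => 0
  | 1 => sub A one 2 t
  | 2 => sub A one 5 t ||| sub A one 7 t
  | _ + 3 => sub A one 14 t ||| sub A one 16 t ||| sub A one 22 t

/-- The table after the absorption of the last `j` darts (constants `d`). -/
def stepT' (d : Cf) (j t : ℕ) : ℕ :=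
  let o1 := (sub d.A d.one 0 t <<< 2) &&& d.hi
  let o2 := dn d.lo (sub d.A d.one ((3 ^ j - 1) / 2) t)
  let o3 := dn d.lo (sub3 d.A d.one t j)
  blk d.A o1 (o1 ||| o2 ||| o3) (o1 ||| o3) (3 - j) false

/-- The table after the absorption of the last `j` of `b` darts. -/
def stepT (b j t : ℕ) : ℕ := stepT' (mkCf b j) j t

/-- The cut blocks for `h` new darts. -/
def blkC (B hic : ℕ) : ℕ → ℕ → ℕ → ℕ
  | 0, x, y => x ||| y
  | h + 1, x, y => blkC B hic h x ((y <<< 1) &&& hic) |||
      (blkC B hic h ((x <<< 1) &&& hic) y <<< (B * 2 ^ h))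

/-- The cut table after the absorption of the last `j` darts (constants `d`). -/
def stepC' (d : Cf) (j c : ℕ) : ℕ :=
  blkC d.B d.hic (3 - j) (sub d.B d.onec 0 c) (sub d.B d.onec (2 ^ j - 1) c)

/-- The cut table after the absorption of the last `j` of `b` darts. -/
def stepC (b j c : ℕ) : ℕ := stepC' (mkCf b j) j c

/-- The absorption would produce an edge cut with at most two edges. -/
def pr (b j c : ℕ) : Bool := !((c >>> (3 * 2 ^ (b - j) * (2 ^ j - 1))) % 2 ^ j == 0)

end Pool.Agent.DCW
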