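import Pool.Agent.DCW.St

/-!
# The step for the domination tables
-/

set_option autoImplicit false

namespace Pool.Agent.DCW

namespace G1

variable {V : Type} [Fintype V] [DecidableEq V] (G : SimpleGraph V) [DecidableRel G.Adj]

theorem mem_bd {U : Finset V} {d : V × V} :
    d ∈ bd G U ↔ d.1 ∈ U ∧ d.2 ∉ U ∧ G.Adj d.1 d.2 := by
  unfold bd
  simp

/-- A dart of the new boundary starts at `v` or is an old dart which does not end at `v`. -/
theorem new_cases {U : Finset V} {v : V} {d : V × V} (h : d ∈ bd G (insert v U)) :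
    d.1 = v ∨ (d ∈ bd G U ∧ d.2 ≠ v) := by
  rw [mem_bd] at h
  obtain ⟨h1, h2, h3⟩ := h
  rw [Finset.mem_insert] at h1
  rw [Finset.mem_insert, not_or] at h2
  rcases h1 with h1 | h1
  · exact Or.inl h1
  · exact Or.inr ⟨(mem_bd G).2 ⟨h1, h2.2, h3⟩, h2.1⟩

theorem old_new {U : Finset V} {v : V} {d : V × V} (h : d ∈ bd G U) (hd : d.2 ≠ v) :
    d ∈ bd G (insert v U) := by
  rw [mem_bd] at h ⊢
  exact ⟨Finset.mem_insert_of_mem h.1, by simp [hd, h.2.1], h.2.2⟩

/-- The same set is realizing, if `v` is dominated and no new dart has the label `2`. -/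
theorem real_same {U : Finset V} {v : V} {f f' : V × V → Fin 3} {D : Finset V}
    (hD : Real G U f' D)
    (h2 : ∀ d ∈ bd G U, d.2 ≠ v → f d = 2 → f' d = 2)
    (h0 : ∀ d ∈ bd G U, f' d = 0 → d.2 ≠ v ∧ f d = 0)
    (hn : ∀ d ∈ bd G (insert v U), d.1 = v → f d ≠ 2)
    (hv : (∃ w ∈ D, G.Adj w v) ∨ ∃ d ∈ bd G (insert v U), d.1 = v ∧ f d = 0) :
    Real G (insert v U) f D := by
  obtain ⟨hD1, hD2, hD3⟩ := hD
  refine ⟨hD1.trans (Finset.subset_insert _ _), ?_, ?_⟩
  · intro d hd hf
    rcases new_cases G hd with h | ⟨h, h'⟩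
    · exact absurd hf (hn d hd h)
    · exact hD2 d h (h2 d h h' hf)
  · intro u hu
    rw [Finset.mem_insert] at hu
    rcases hu with rfl | hu
    · exact Or.inr hv
    · rcases hD3 u hu with h | h | ⟨d, hd, hdu, hf⟩
      · exact Or.inl h
      · exact Or.inr (Or.inl h)
      · obtain ⟨h3, h4⟩ := h0 d hd hf
        exact Or.inr (Or.inr ⟨d, old_new G hd h3, hdu, h4⟩)

/-- `v` is added to the set. -/
theorem real_insert {U : Finset V} {v : V} {f f' : V × V → Fin 3} {D : Finset V}
    (hD : Real G U f' D)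
    (h2 : ∀ d ∈ bd G U, d.2 ≠ v → f' d = f d) :
    Real G (insert v U) f (insert v D) := by
  obtain ⟨hD1, hD2, hD3⟩ := hD
  refine ⟨Finset.insert_subset_insert _ hD1, ?_, ?_⟩
  · intro d hd hf
    rcases new_cases G hd with h | ⟨h, h'⟩
    · rw [h]
      exact Finset.mem_insert_self _ _
    · exact Finset.mem_insert_of_mem (hD2 d h (by rw [h2 d h h', hf]))
  · intro u hu
    rw [Finset.mem_insert] at hu
    rcases hu with rfl | hu
    · exact Or.inl (Finset.mem_insert_self _ _)
    · rcases hD3 u hu with h | ⟨w, hw, h⟩ | ⟨d, hd, hdu, hf⟩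
      · exact Or.inl (Finset.mem_insert_of_mem h)
      · exact Or.inr (Or.inl ⟨w, Finset.mem_insert_of_mem hw, h⟩)
      · by_cases hv : d.2 = v
        · refine Or.inr (Or.inl ⟨v, Finset.mem_insert_self _ _, ?_⟩)
          have h3 := ((mem_bd G).1 hd).2.2
          rw [hdu, hv] at h3
          exact h3.symm
        · exact Or.inr (Or.inr ⟨d, old_new G hd hv, hdu, by rw [← h2 d hd hv, hf]⟩)

end G1

theorem thm_G1 (hB1 : St_B1) : St_G1 := by
  intro V _ _ G _ U v ρ α ν t hv hα hρ hα' hν hα3 hν3 hDom f k hk hb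
  have hcard : (insert v U).card = U.card + 1 := Finset.card_insert_of_notMem hv
  rw [List.map_append] at hb
  have hρmap : ∀ f' : V × V → Fin 3, (∀ d ∈ bd G U, d.2 ≠ v → f' d = f d) →
      ρ.map f' = ρ.map f := by
    intro f' h
    apply List.map_congr_left
    intro d hd
    obtain ⟨h1, h2⟩ := (hρ d).1 hd
    exact h d h1 h2
  have hnew : ∀ d ∈ bd G (insert v U), d.1 = v → (2 : Fin 3) ∉ ν.map f → f d ≠ 2 := by
    intro d hd hd1 h2 hf
    exact h2 (List.mem_map.2 ⟨d, (hν d).2 ⟨hd, hd1⟩, hf⟩)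
  have hαv : ∀ d ∈ α, d.2 = v := fun d hd => ((hα' d).1 hd).2
  rcases hB1 (ρ.length + α.length) α.length (by omega) hα3 t (ρ.map f) (ν.map f) k (by simp)
    (by simpa using hν3) hk hb with ⟨k', hk', h⟩ | ⟨h2, h0, k', hk', hkK, h⟩ |
    ⟨h2, i, hi, k', hk', hkK, h⟩
  · let f' : V × V → Fin 3 := fun d => if d.2 = v then 0 else f d
    have hf' : ∀ d : V × V, d.2 ≠ v → f' d = f d := fun d hd => if_neg hd
    have hmap : (ρ ++ α).map f' = ρ.map f ++ List.replicate α.length 0 := by
      rw [List.map_append, hρmap f' (fun d _ hd => hf' d hd)]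
      congr 1
      rw [List.eq_replicate_iff]
      refine ⟨by simp, ?_⟩
      intro x hx
      obtain ⟨d, hd, rfl⟩ := List.mem_map.1 hx
      exact if_pos (hαv d hd)
    obtain ⟨D, hD, hDc⟩ := hDom f' k' (by omega) (by rw [hmap]; exact h)
    refine ⟨insert v D, G1.real_insert G hD (fun d _ hd => hf' d hd), ?_⟩
    have := Finset.card_insert_le v D
    omega
  · let f' : V × V → Fin 3 := fun d => if d.2 = v then 1 else f d
    have hf' : ∀ d : V × V, d.2 ≠ v → f' d = f d := fun d hd => if_neg hd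
    have hmap : (ρ ++ α).map f' = ρ.map f ++ List.replicate α.length 1 := by
      rw [List.map_append, hρmap f' (fun d _ hd => hf' d hd)]
      congr 1
      rw [List.eq_replicate_iff]
      refine ⟨by simp, ?_⟩
      intro x hx
      obtain ⟨d, hd, rfl⟩ := List.mem_map.1 hx
      exact if_pos (hαv d hd)
    obtain ⟨D, hD, hDc⟩ := hDom f' k' hkK (by rw [hmap]; exact h)
    obtain ⟨d0, hd0, hd0'⟩ := List.mem_map.1 h0
    refine ⟨D, G1.real_same G hD (fun d _ hd hf => by rw [hf' d hd, hf]) ?_
      (fun d hd hd1 => hnew d hd hd1 h2) (Or.inr ⟨d0, ((hν d0).1 hd0).1, ((hν d0).1 hd0).2, hd0'⟩),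
      by omega⟩
    intro d _ hf
    by_cases hdv : d.2 = v
    · have h3 : f' d = 1 := if_pos hdv
      rw [h3] at hf
      exact absurd hf (by decide)
    · exact ⟨hdv, by rw [← hf' d hdv, hf]⟩
  · let f' : V × V → Fin 3 := fun d => if d = α[i] then 2 else if d.2 = v then 1 else f d
    have hαi : α[i] ∈ α := List.getElem_mem hi
    have hf' : ∀ d : V × V, d.2 ≠ v → f' d = f d := by
      intro d hd
      have h3 : d ≠ α[i] := by
        intro h3
        exact hd (by rw [h3]; exact hαv _ hαi)
      show (if d = α[i] then 2 else if d.2 = v then 1 else f d) = f d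
      rw [if_neg h3, if_neg hd]
    have hmap : (ρ ++ α).map f' = ρ.map f ++ (List.replicate α.length 1).set i 2 := by
      rw [List.map_append, hρmap f' (fun d _ hd => hf' d hd)]
      congr 1
      apply List.ext_getElem
      · simp
      · intro n h3 h4
        have hn : n < α.length := by simpa using h3
        rw [List.getElem_map, List.getElem_set]
        by_cases hin : i = n
        · subst hin
          simp [f']
        · rw [if_neg hin, List.getElem_replicate]
          have h5 : α[n] ≠ α[i] := by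
            intro h5
            exact hin ((List.Nodup.getElem_inj_iff hα).1 h5).symm
          show (if α[n] = α[i] then 2 else if (α[n]).2 = v then 1 else f α[n]) = 1
          rw [if_neg h5, if_pos (hαv _ (List.getElem_mem hn))]
    obtain ⟨D, hD, hDc⟩ := hDom f' k' hkK (by rw [hmap]; exact h)
    have hbd := (hα' _).1 hαi
    refine ⟨D, G1.real_same G hD (fun d _ hd hf => by rw [hf' d hd, hf]) ?_
      (fun d hd hd1 => hnew d hd hd1 h2) (Or.inl ⟨(α[i]).1, hD.2.1 _ hbd.1 ?_, ?_⟩), by omega⟩
    · intro d _ hf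
      by_cases hdi : d = α[i]
      · have h3 : f' d = 2 := if_pos hdi
        rw [h3] at hf
        exact absurd hf (by decide)
      · by_cases hdv : d.2 = v
        · have h3 : f' d = 1 := by
            show (if d = α[i] then 2 else if d.2 = v then 1 else f d) = 1
            rw [if_neg hdi, if_pos hdv]
          rw [h3] at hf
          exact absurd hf (by decide)
        · exact ⟨hdv, by rw [← hf' d hdv, hf]⟩
    · exact if_pos rfl
    · have h3 := ((G1.mem_bd G).1 hbd.1).2.2
      rw [hbd.2] at h3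
      exact h3

end Pool.Agent.DCW
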