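import Pool.Agent.DCW.St

/-!
# [G2] The step for the cut tables
-/

set_option autoImplicit false

namespace Pool.Agent.DCW

namespace G2

section

variable {V : Type} [Fintype V] [DecidableEq V] (G : SimpleGraph V) [DecidableRel G.Adj]

theorem cut_sum (X Y : Finset V) : cut G X Y =
    ∑ d : V × V, if d.1 ∈ X ∧ d.2 ∈ Y ∧ G.Adj d.1 d.2 then 1 else 0 := by
  rw [← Finset.card_filter]
  unfold cut
  congr 1
  ext d
  simp [Finset.mem_product, and_assoc]

theorem cost_sum (U X : Finset V) (S : V × V → Bool) : cost G U X S =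
    ∑ d : V × V, ((if d.1 ∈ X ∧ (d.2 ∈ U ∧ d.2 ∉ X) ∧ G.Adj d.1 d.2 then 1 else 0) +
      (if (d.1 ∈ U ∧ d.2 ∉ U ∧ G.Adj d.1 d.2) ∧ S d ≠ decide (d.1 ∈ X) then 1 else 0)) := by
  rw [Finset.sum_add_distrib]
  unfold cost
  rw [cut_sum]
  congr 1
  · refine Finset.sum_congr rfl fun d _ => ?_
    simp only [Finset.mem_sdiff]
  · rw [← Finset.card_filter]
    congr 1
    ext d
    simp [bd]

theorem count_sum (ν : List (V × V)) (h : ν.Nodup) (S : V × V → Bool) (a : Bool) :
    (ν.map S).count a = ∑ d : V × V, if d ∈ ν ∧ S d = a then 1 else 0 := by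
  rw [← Finset.card_filter, List.count_eq_countP, List.countP_map, List.countP_eq_length_filter,
    ← List.toFinset_card_of_nodup (h.filter _)]
  congr 1
  ext d
  simp

/-- the case in which `v` is not added -/
theorem cost_one (U : Finset V) (v : V) (ν : List (V × V)) (hv : v ∉ U) (hν : ν.Nodup)
    (h3 : ∀ d, d ∈ ν ↔ d ∈ bd G (insert v U) ∧ d.1 = v) (X : Finset V) (hX : X ⊆ U)
    (S : V × V → Bool) :
    cost G (insert v U) X S =
      cost G U X (fun d => if d.2 = v then false else S d) + (ν.map S).count true := by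
  rw [cost_sum, cost_sum, count_sum ν hν S, ← Finset.sum_add_distrib]
  refine Finset.sum_congr rfl fun d _ => ?_
  obtain ⟨x, y⟩ := d
  have hvX : v ∉ X := fun h => hv (hX h)
  have h3' := h3 (x, y)
  simp only [bd, Finset.mem_filter, Finset.mem_univ, true_and, Finset.mem_insert] at h3'
  simp only [h3', Finset.mem_insert]
  by_cases hxv : x = v
  · subst hxv
    by_cases hyx : y = x
    · subst hyx
      simp [hv]
    · by_cases hyU : y ∈ U <;> by_cases ha : G.Adj x y <;> cases hS : S (x, y) <;>
        simp [hv, hvX, hyx, hyU, ha, hS]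
  · by_cases hyv : y = v
    · subst hyv
      by_cases hxX : x ∈ X
      · have hxU := hX hxX
        by_cases ha : G.Adj x y <;> simp [hv, hvX, hxv, hxX, hxU, ha]
      · by_cases hxU : x ∈ U <;> by_cases ha : G.Adj x y <;> simp [hv, hvX, hxv, hxX, hxU, ha]
    · by_cases hxX : x ∈ X <;> by_cases hxU : x ∈ U <;> by_cases hyU : y ∈ U <;>
        by_cases hyX : y ∈ X <;> by_cases ha : G.Adj x y <;> cases hS : S (x, y) <;>
        simp [hxv, hyv, hxX, hxU, hyU, hyX, ha, hS]

theorem swap_sum (v : V) (W : Finset V) :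
    (∑ d : V × V, if d.1 = v ∧ d.2 ∈ W ∧ G.Adj d.1 d.2 then 1 else 0) =
      ∑ d : V × V, if d.2 = v ∧ d.1 ∈ W ∧ G.Adj d.1 d.2 then 1 else 0 := by
  refine Fintype.sum_equiv (Equiv.prodComm V V) _ _ fun d => ?_
  simp [G.adj_comm d.1 d.2]

/-- the case in which `v` is added -/
theorem cost_two (U : Finset V) (v : V) (ν : List (V × V)) (hv : v ∉ U) (hν : ν.Nodup)
    (h3 : ∀ d, d ∈ ν ↔ d ∈ bd G (insert v U) ∧ d.1 = v) (X : Finset V) (hX : X ⊆ U)
    (S : V × V → Bool) :
    cost G (insert v U) (insert v X) S =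
      cost G U X (fun d => if d.2 = v then true else S d) + (ν.map S).count false := by
  have key : cost G (insert v U) (insert v X) S +
      (∑ d : V × V, if d.2 = v ∧ d.1 ∈ U \ X ∧ G.Adj d.1 d.2 then 1 else 0) =
      cost G U X (fun d => if d.2 = v then true else S d) + (ν.map S).count false +
      (∑ d : V × V, if d.1 = v ∧ d.2 ∈ U \ X ∧ G.Adj d.1 d.2 then 1 else 0) := by
    rw [cost_sum, cost_sum, count_sum ν hν S, ← Finset.sum_add_distrib, ← Finset.sum_add_distrib,
      ← Finset.sum_add_distrib]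
    refine Finset.sum_congr rfl fun d _ => ?_
    obtain ⟨x, y⟩ := d
    have hvX : v ∉ X := fun h => hv (hX h)
    have h3' := h3 (x, y)
    simp only [bd, Finset.mem_filter, Finset.mem_univ, true_and, Finset.mem_insert] at h3'
    simp only [h3', Finset.mem_insert, Finset.mem_sdiff]
    by_cases hxv : x = v
    · subst hxv
      by_cases hyx : y = x
      · subst hyx
        simp [hv]
      · by_cases hyU : y ∈ U <;> by_cases hyX : y ∈ X <;> by_cases ha : G.Adj x y <;>
          cases hS : S (x, y) <;>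
          simp [hv, hvX, hyx, hyU, hyX, ha, hS]
    · by_cases hyv : y = v
      · subst hyv
        by_cases hxX : x ∈ X
        · have hxU := hX hxX
          by_cases ha : G.Adj x y <;> simp [hv, hvX, hxv, hxX, hxU, ha]
        · by_cases hxU : x ∈ U <;> by_cases ha : G.Adj x y <;> simp [hv, hvX, hxv, hxX, hxU, ha]
      · by_cases hxX : x ∈ X <;> by_cases hxU : x ∈ U <;> by_cases hyU : y ∈ U <;>
          by_cases hyX : y ∈ X <;> by_cases ha : G.Adj x y <;> cases hS : S (x, y) <;>
          simp [hxv, hyv, hxX, hxU, hyU, hyX, ha, hS]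
  have h := swap_sum G v (U \ X)
  omega

/-- the cut of `Y` is the cost for the labels `false` -/
theorem cut_cost (W Y : Finset V) (hY : Y ⊆ W) :
    cut G Y Yᶜ = cost G W Y (fun _ => false) := by
  rw [cut_sum, cost_sum]
  refine Finset.sum_congr rfl fun d _ => ?_
  obtain ⟨x, y⟩ := d
  simp only [Finset.mem_compl]
  by_cases hx : x ∈ Y
  · have hxW := hY hx
    by_cases hy : y ∈ Y
    · have hyW := hY hy
      simp [hx, hy, hyW]
    · by_cases hyW : y ∈ W <;> by_cases ha : G.Adj x y <;> simp [hx, hy, hxW, hyW, ha]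
  · simp [hx]

end

end G2

theorem thm_G2 (hB2 : St_B2) : St_G2 := by
  intro V _ _ G _ U v ρ α ν c hv hN hν h1 h2 h3 hα hνl hC
  have hb : ρ.length + α.length - α.length = ρ.length := by omega
  obtain ⟨b1, b2⟩ := hB2 (ρ.length + α.length) α.length (by omega) hα c
  rw [hb] at b1 b2
  -- the labels
  have hmap : ∀ (S : V × V → Bool) (a : Bool),
      (ρ ++ α).map (fun d => if d.2 = v then a else S d) =
        ρ.map S ++ List.replicate α.length a := by
    intro S a
    rw [List.map_append]
    congr 1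
    · refine List.map_congr_left fun d hd => ?_
      simp [((h1 d).1 hd).2]
    · rw [List.eq_replicate_iff]
      refine ⟨by simp, fun x hx => ?_⟩
      obtain ⟨d, hd, rfl⟩ := List.mem_map.1 hx
      simp [((h2 d).1 hd).2]
  refine ⟨fun S m hm hbit => ?_, fun hcut hne => ?_⟩
  · rw [List.map_append] at hbit
    rcases b1 (ρ.map S) (ν.map S) m (by simp) (by simp [hνl]) hm hbit with
      ⟨n', hn', hb'⟩ | ⟨n', hn', hb'⟩
    · rw [← hmap S false] at hb'
      obtain ⟨X, hX, hcost⟩ := hC _ n' (by omega) hb'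
      refine ⟨X, hX.trans (Finset.subset_insert _ _), ?_⟩
      rw [G2.cost_one G U v ν hv hν h3 X hX S]
      omega
    · rw [← hmap S true] at hb'
      obtain ⟨X, hX, hcost⟩ := hC _ n' (by omega) hb'
      refine ⟨insert v X, Finset.insert_subset_insert _ hX, ?_⟩
      rw [G2.cost_two G U v ν hv hν h3 X hX S]
      omega
  · by_contra hpr
    have hpr' : pr (ρ.length + α.length) α.length c = true := by
      simpa using hpr
    obtain ⟨n, hn, hbit⟩ := b2 hpr'
    have hm := hmap (fun _ => false) true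
    rw [List.map_const'] at hm
    rw [← hm] at hbit
    obtain ⟨X, hX, hcost⟩ := hC _ n (by omega) hbit
    have hY : insert v X ⊆ insert v U := Finset.insert_subset_insert _ hX
    have h4 := hcut (insert v X) ⟨v, Finset.mem_insert_self _ _⟩ (fun h => hne (by
      rw [Finset.eq_univ_iff_forall] at h ⊢
      exact fun x => hY (h x)))
    rw [G2.cut_cost G (insert v U) (insert v X) hY,
      G2.cost_two G U v ν hv hν h3 X hX (fun _ => false)] at h4
    have h5 : (ν.map (fun _ => false)).count false = ν.length := by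
      simp
    omega

end Pool.Agent.DCW
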