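import Pool.Agent.DCW.Defs

/-!
# Statements
-/

set_option autoImplicit false

namespace Pool.Agent.DCW

/-- [S0] Facts on the codes.
Proof. `i3_lt`, `i3_app`: induction. `i3` is injective on lists of the same length and every `q < 3 ^ b`
is `i3 l` with `l.length = b`; digits: `dg (i3 l) i = l[i]`. The last clause: a bit of `fld` (induction
on `n`; bits of `x <<< (w * n)` are at positions `w * n + k` with `k < w`). -/
def St_S0 : Prop :=
  (∀ l : List (Fin 3), i3 l < 3 ^ l.length) ∧
  (∀ l m : List (Fin 3), i3 (l ++ m) = i3 l + 3 ^ l.length * i3 m) ∧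
  (∀ l m : List (Fin 3), l.length = m.length → i3 l = i3 m → l = m) ∧
  (∀ b q : ℕ, q < 3 ^ b → ∃ l : List (Fin 3), l.length = b ∧ i3 l = q) ∧
  (∀ (l : List (Fin 3)) (i : ℕ) (h : i < l.length), dg (i3 l) i = (l[i]).val) ∧
  (∀ l : List Bool, i2 l < 2 ^ l.length) ∧
  (∀ l m : List Bool, i2 (l ++ m) = i2 l + 2 ^ l.length * i2 m) ∧
  (∀ l m : List Bool, l.length = m.length → i2 l = i2 m → l = m) ∧
  (∀ b q : ℕ, q < 2 ^ b → ∃ l : List Bool, l.length = b ∧ i2 l = q) ∧
  (∀ (l : List Bool) (i : ℕ) (h : i < l.length), dx (i2 l) i = (l[i]).toNat) ∧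
  (∀ (w x : ℕ) (g : ℕ → Bool) (n q k : ℕ), x < 2 ^ w → k < w →
    (fld w x g n).testBit (w * q + k) = (decide (q < n) && g q && x.testBit k))

/-- [S1] (uses S0) Interchange of two digits of a table.
Proof. A set bit at `K * i3 l + k` comes from a set bit of `t` at `K * q + k` for a `q < 3 ^ b` with `dg q i =
dg q j + e` and `i3 l = q + e * (3 ^ j - 3 ^ i)`, `e = 0, 1, 2`, or `dg q i + e = dg q j` and `i3 l + e * (3 ^
j - 3 ^ i) = q` (the shifts are multiples of `K`, so the level `k` and the field are shifted correctly).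
With `q = i3 l'`: `i3 l = i3 (swl i j l')` (`i3 (l'.set i x) + l'[i] * 3 ^ i = i3 l' + x * 3 ^ i`), so
`l = swl i j l'` and `l' = swl i j l`. -/
def St_S1 : Prop := ∀ (b i j : ℕ), i < j → j < b → ∀ (t : ℕ) (l : List (Fin 3)) (k : ℕ),
  l.length = b → k < K → ((mkSw b i j).ap t).testBit (K * i3 l + k) = true →
    t.testBit (K * i3 (swl i j l) + k) = true

/-- [S2] (uses S0) The same for cut tables. -/
def St_S2 : Prop := ∀ (b i j : ℕ), i < j → j < b → ∀ (c : ℕ) (l : List Bool) (m : ℕ),
  l.length = b → m < 3 → ((mkSx b i j).ap c).testBit (3 * i2 l + m) = true →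
    c.testBit (3 * i2 (swl i j l) + m) = true

/-- [B1] (uses S0) Meaning of `stepT`. `l` are the labels of the darts which stay, `m` the labels of
the new darts.
Proof. `blkG`, `blk`: induction on `h`, `m = m' ++ [a]`, `i3 m = i3 m' + 3 ^ h * a`: the bit `A * i3 m + p`, `p <
A`, of `blk A x y z h e` implies the bit `p` of `x` if `2 ∈ m`, of `y` if `2 ∉ m` and (`0 ∈ m` or `e`), of `z`
otherwise (all of `x, y, z` are `< 2 ^ A`). `K * i3 (l ++ m) + k = A * i3 m + (K * i3 l + k)`. `sub A one q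
t` has the bit `p < A` iff `t` has the bit `A * q + p`. The masks `hi`, `lo` by the last clause of S0. The
bit `K * s + k` of `dn lo v` implies the same bit of `v` or (`k + 1 < K`) the bit `K * s + (k + 1)`. The
block numbers `2; 5, 7; 14, 16, 22` are `i3 ((replicate j 1).set i 2)`. -/
def St_B1 : Prop := ∀ (b j : ℕ), j ≤ b → j ≤ 3 → ∀ (t : ℕ) (l m : List (Fin 3)) (k : ℕ),
  l.length = b - j → m.length = 3 - j → k < K →
  (stepT b j t).testBit (K * i3 (l ++ m) + k) = true →
    (∃ k', k' + 2 = k ∧ t.testBit (K * i3 (l ++ List.replicate j 0) + k') = true) ∨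
    (2 ∉ m ∧ 0 ∈ m ∧ ∃ k', k' ≤ k + 1 ∧ k' < K ∧
      t.testBit (K * i3 (l ++ List.replicate j 1) + k') = true) ∨
    (2 ∉ m ∧ ∃ i, i < j ∧ ∃ k', k' ≤ k + 1 ∧ k' < K ∧
      t.testBit (K * i3 (l ++ (List.replicate j 1).set i 2) + k') = true)

/-- [B2] (uses S0) Meaning of `stepC` and `pr`. Proof: as B1; `blkC B hic h x y` at `B * i2 m + (3 * s + n)`
implies the bit `3 * s + (n - #true)` of `x` or `3 * s + (n - #false)` of `y`. `pr`: a number which is not
divisible by `2 ^ j` has a bit below `j`, and `i2 (replicate (b - j) false ++ replicate j true) =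
2 ^ (b - j) * (2 ^ j - 1)`. -/
def St_B2 : Prop := ∀ (b j : ℕ), j ≤ b → j ≤ 3 → ∀ c : ℕ,
  (∀ (l m : List Bool) (n : ℕ), l.length = b - j → m.length = 3 - j → n < 3 →
    (stepC b j c).testBit (3 * i2 (l ++ m) + n) = true →
    (∃ n', n' + m.count true = n ∧
      c.testBit (3 * i2 (l ++ List.replicate j false) + n') = true) ∨
    (∃ n', n' + m.count false = n ∧
      c.testBit (3 * i2 (l ++ List.replicate j true) + n') = true)) ∧
  (pr b j c = true → ∃ n, n + (3 - j) ≤ 2 ∧
    c.testBit (3 * i2 (List.replicate (b - j) false ++ List.replicate j true) + n) = true)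

/-- [G1] (uses B1) The step for the domination tables. `α` lists the darts from `U` to `v`, `ρ` the
other darts of the boundary of `U`, `ν` the new darts.
Proof. Let `f`, `k` be given and apply B1 with `l = ρ.map f`, `m = ν.map f`. In the three cases use
`DomOK` for the labels `f'` equal to `f` on the darts `d` with `d.2 ≠ v`, and on the darts into `v`: `0`;
`1`; `2` on the `i`-th dart of `α` and `1` on the others (`α` is a list without repetitions; `ρ.map f' =
ρ.map f`, `α.map f' = replicate ..`). The realizing set is `insert v D`, `D`, `D`, and `|insert v U| = |U| +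
1`. `bd G (insert v U)` consists of `ρ` and `ν`. -/
def St_G1 : Prop := ∀ (V : Type) [Fintype V] [DecidableEq V] (G : SimpleGraph V)
  [DecidableRel G.Adj] (U : Finset V) (v : V) (ρ α ν : List (V × V)) (t : ℕ),
  v ∉ U → α.Nodup → (∀ d, d ∈ ρ ↔ d ∈ bd G U ∧ d.2 ≠ v) → (∀ d, d ∈ α ↔ d ∈ bd G U ∧ d.2 = v) →
  (∀ d, d ∈ ν ↔ d ∈ bd G (insert v U) ∧ d.1 = v) → α.length ≤ 3 → ν.length = 3 - α.length →
  DomOK G U (ρ ++ α) t →
    DomOK G (insert v U) (ρ ++ ν) (stepT (ρ.length + α.length) α.length t)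

/-- [G2] (uses B2) The step for the cut tables, and the meaning of `pr`.
Proof. Let `S`, `m` be given and apply B2 with `l = ρ.map S`, `m = ν.map S`. Case 1: `S'` = `S` on the darts
`d` with `d.2 ≠ v`, `false` on the darts into `v`; the same `X`: `cut G X (insert v U \ X) = cut G X (U \ X)
+ #{x ∈ X, Adj x v}`, and the darts into `v` with `S' d ≠ decide (d.1 ∈ X)` are those with `d.1 ∈ X`; the new
darts with label `true` count once each (`ν` has no repetitions). Case 2: `S' = true` on the darts into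
`v`, `insert v X`. Last clause: with the labels `true` on the darts into `v` and `false` elsewhere let `Y :=
insert v X`: `cut G Y Yᶜ` is the cost plus the number `3 - j` of new darts, at most two, and `Y` is neither
empty nor everything. -/
def St_G2 : Prop := ∀ (V : Type) [Fintype V] [DecidableEq V] (G : SimpleGraph V)
  [DecidableRel G.Adj] (U : Finset V) (v : V) (ρ α ν : List (V × V)) (c : ℕ),
  v ∉ U → (ρ ++ α).Nodup → ν.Nodup → (∀ d, d ∈ ρ ↔ d ∈ bd G U ∧ d.2 ≠ v) →
  (∀ d, d ∈ α ↔ d ∈ bd G U ∧ d.2 = v) →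
  (∀ d, d ∈ ν ↔ d ∈ bd G (insert v U) ∧ d.1 = v) → α.length ≤ 3 → ν.length = 3 - α.length →
  CutOK G U (ρ ++ α) c →
    CutOK G (insert v U) (ρ ++ ν) (stepC (ρ.length + α.length) α.length c) ∧
    ((∀ Y : Finset V, Y.Nonempty → Y ≠ Finset.univ → 3 ≤ cut G Y Yᶜ) →
      insert v U ≠ Finset.univ → pr (ρ.length + α.length) α.length c = false)

/-- [G3] 3-connected cubic graphs are 3-edge-connected.
Proof. Let `cut G Y Yᶜ ≤ 2`. If `|Y| = 1` the cut has `3` edges, if `|Y| = 2` at least `4`; so `|Y|, |Yᶜ| ≥ 3`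
(symmetry). Let `S` be the set of the ends in `Y` of the darts of the cut: `|S| ≤ 2`, `S ⊆ Y`. In the graph
induced on `Sᶜ` there is no edge from `Y \ S` to `Yᶜ`, both are nonempty: not connected. -/
def St_G3 : Prop := ∀ (V : Type) [Fintype V] [DecidableEq V] (G : SimpleGraph V)
  [DecidableRel G.Adj], G.IsRegularOfDegree 3 →
  (4 ≤ Fintype.card V ∧
    ∀ S : Finset V, S.card ≤ 2 → (G.induce ((↑S : Set V)ᶜ)).Connected) →
  ∀ Y : Finset V, Y.Nonempty → Y ≠ Finset.univ → 3 ≤ cut G Y Yᶜ

/-! ### The certificate -/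

/-- A profile: a table and a cut table. -/
structure Prof where
  (t c : ℕ)

/-- A list of interchanges. -/
def swlL {α : Type} : List (ℕ × ℕ) → List α → List α
  | [], l => l
  | p :: s, l => swlL s (swl p.1 p.2 l)

/-- A list of interchanges applied to a table. -/
def swT (b : ℕ) : List (ℕ × ℕ) → ℕ → ℕ
  | [], t => t
  | p :: s, t => swT b s ((mkSw b p.1 p.2).ap t)

/-- A list of interchanges applied to a cut table. -/
def swC (b : ℕ) : List (ℕ × ℕ) → ℕ → ℕ
  | [], c => c
  | p :: s, c => swC b s ((mkSx b p.1 p.2).ap c)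

/-- The interchanges are interchanges of positions `< b`. -/
def Val (b : ℕ) (s : List (ℕ × ℕ)) : Prop := ∀ p ∈ s, p.1 < p.2 ∧ p.2 < b

/-- The table of the empty set: the levels `k ≥ 7`. -/
def tE : ℕ := 2 ^ 14 - 2 ^ 7

/-- `L b` is the set of the profiles with `b` darts; it is closed under the addition of a vertex. -/
structure Closed (L : ℕ → Prof → Prop) : Prop where
  empty : L 0 ⟨tE, 7⟩
  fin : ∀ P, L 3 P → (stepT 3 3 P.t).testBit 8 = true
  step : ∀ (b j : ℕ) (P : Prof), L b P → j ≤ b → j ≤ 3 → 3 ≤ b + 3 - 2 * j → b + 3 - 2 * j ≤ 6 →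
    ∀ π : List Bool, π.length = b → π.count true = j → ∃ s : List (ℕ × ℕ), Val b s ∧
      swlL s π = List.replicate (b - j) false ++ List.replicate j true ∧
      (pr b j (swC b s P.c) = true ∨ ∃ (Q : Prof) (u : List (ℕ × ℕ)), L (b + 3 - 2 * j) Q ∧
        Val (b + 3 - 2 * j) u ∧
        Q.t &&& swT (b + 3 - 2 * j) u (stepT b j (swT b s P.t)) = Q.t ∧
        Q.c &&& swC (b + 3 - 2 * j) u (stepC b j (swC b s P.c)) = Q.c)

/-- [M] (uses S1, S2, G1, G2) The bound from a closed family of profiles.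
Proof. Let `U i` be the set of the `v` with `(e v : ℕ) < i`. Claim, by induction on `i ≤ n`: if `i < n` or
`i = 0` there are a list `β` without repetitions whose members are `bd G (U i)` and a `P` with `L β.length
P`, `DomOK G (U i) β P.t`, `CutOK G (U i) β P.c`. `i = 0`: `β = []`, `D = ∅`, `X = ∅`. Step from `i` to `i + 1 <
n`: `v` the vertex with `e v = i`, `U = U i`. `π := β.map (fun d => decide (d.2 = v))`, `j := π.count true =`
number of neighbours of `v` in `U`; `b + 3 - 2 j = |bd G (insert v U)| ≤ 6` by hypothesis and `≥ 3` by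
3-edge-connectivity (`bd G W` has `cut G W Wᶜ` elements); `j ≤ 3`, as `v` has degree three, and `v` has
`3 - j` neighbours outside `insert v U`. Take `s` from `step` and `β1 := swlL s β`: `DomOK` and `CutOK` pass
to `β1` and the tables `swT b s P.t`, `swC b s P.c` (S1, S2; `map` commutes with `swl`, `swl` is an
involution and permutes the list), and `β1.map (fun d => decide (d.2 = v)) = swlL s π`, so `β1 = ρ ++ α`
with `α` the darts into `v`. `ν` := any list of the new darts. G1, G2. `pr` is false by G2. Then permute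
`ρ ++ ν` by `u`, and `Q.t &&& t' = Q.t` says that the claims of `Q.t` are claims of `t'`. Last step: `i + 1 =
n`: `bd G univ = ∅`, so all darts of `bd G U` end in `v`, `j = b = 3` (`v` has three neighbours in `U`); G1
with `ρ = []`, `ν = []`: `DomOK G univ [] (stepT 3 3 P.t)`, `fin` gives `D` with `3 |D| + 7 ≤ n + 8`, which
dominates by `Real`. (`n = 0`: `D = ∅`; `n ≥ 4` here.) -/
def St_M : Prop := ∀ (L : ℕ → Prof → Prop), Closed L →
  ∀ (V : Type) [Fintype V] [DecidableEq V] (G : SimpleGraph V) [DecidableRel G.Adj],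
  G.IsRegularOfDegree 3 → 4 ≤ Fintype.card V →
  (∀ Y : Finset V, Y.Nonempty → Y ≠ Finset.univ → 3 ≤ cut G Y Yᶜ) →
  ∀ e : V ≃ Fin (Fintype.card V),
  (∀ i : ℕ, (bd G (Finset.univ.filter fun v => (e v : ℕ) < i)).card ≤ 6) →
  ∃ D : Finset V, 3 * D.card ≤ Fintype.card V + 1 ∧ ∀ v : V, v ∈ D ∨ ∃ u ∈ D, G.Adj u v

end Pool.Agent.DCW
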