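import Mathlib
import Pool.Agent.DCW.St

set_option autoImplicit false
set_option linter.unusedSectionVars false

namespace Pool.Agent.DCW

namespace G3

variable {V : Type} [Fintype V] [DecidableEq V] (G : SimpleGraph V) [DecidableRel G.Adj]

theorem cut_eq_sum (X Z : Finset V) :
    cut G X Z = ∑ x ∈ X, (Z.filter fun z => G.Adj x z).card := by
  unfold cut
  rw [Finset.card_filter, Finset.sum_product]
  refine Finset.sum_congr rfl (fun x _ => ?_)
  rw [Finset.card_filter]

theorem cut_symm (X Z : Finset V) : cut G X Z = cut G Z X := by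
  unfold cut
  refine Finset.card_bij (fun d _ => (d.2, d.1)) ?_ ?_ ?_
  · intro d hd
    rw [Finset.mem_filter, Finset.mem_product] at hd ⊢
    exact ⟨⟨hd.1.2, hd.1.1⟩, hd.2.symm⟩
  · intro d _ d' _ h
    have h1 := congrArg Prod.fst h
    have h2 := congrArg Prod.snd h
    exact Prod.ext h2 h1
  · intro d hd
    rw [Finset.mem_filter, Finset.mem_product] at hd
    refine ⟨(d.2, d.1), ?_, rfl⟩
    rw [Finset.mem_filter, Finset.mem_product]
    exact ⟨⟨hd.1.2, hd.1.1⟩, hd.2.symm⟩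

theorem out_deg (hreg : G.IsRegularOfDegree 3) (Y : Finset V) (y : V) (hy : y ∈ Y) :
    3 ≤ (Y.card - 1) + (Yᶜ.filter fun z => G.Adj y z).card := by
  have h1 : (G.neighborFinset y).card = 3 := hreg y
  have h2 : G.neighborFinset y ⊆ (Y.erase y) ∪ (Yᶜ.filter fun z => G.Adj y z) := by
    intro z hz
    rw [SimpleGraph.mem_neighborFinset] at hz
    rw [Finset.mem_union, Finset.mem_erase, Finset.mem_filter, Finset.mem_compl]
    by_cases h : z ∈ Y
    · left
      exact ⟨hz.ne.symm, h⟩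
    · right
      exact ⟨h, hz⟩
  have h3 := Finset.card_le_card h2
  have h4 := Finset.card_union_le (Y.erase y) (Yᶜ.filter fun z => G.Adj y z)
  rw [Finset.card_erase_of_mem hy] at h4
  omega

theorem small (hreg : G.IsRegularOfDegree 3) (Y : Finset V) (hY : Y.Nonempty)
    (hc : cut G Y Yᶜ ≤ 2) : 4 ≤ Y.card := by
  by_contra hlt
  have hpos := Finset.card_pos.mpr hY
  have h1 : Y.card * (4 - Y.card) ≤ cut G Y Yᶜ := by
    rw [cut_eq_sum, ← smul_eq_mul]
    refine Finset.card_nsmul_le_sum _ _ _ (fun y hy => ?_)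
    have := out_deg G hreg Y y hy
    omega
  have h2 : Y.card = 1 ∨ Y.card = 2 ∨ Y.card = 3 := by omega
  rcases h2 with h | h | h <;> rw [h] at h1 <;> omega

end G3

theorem thm_G3 : St_G3 := by
  intro V _ _ G _ hreg hconn Y hY hYne
  by_contra hlt
  have hc : cut G Y Yᶜ ≤ 2 := by omega
  have hY4 := G3.small G hreg Y hY hc
  set T : Finset (V × V) := (Y ×ˢ Yᶜ).filter fun d => G.Adj d.1 d.2 with hT
  have hTc : T.card ≤ 2 := hc
  set S : Finset V := T.image Prod.fst with hS
  have hSc : S.card ≤ 2 := le_trans Finset.card_image_le hTc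
  have hSY : S ⊆ Y := by
    intro s hs
    rw [hS, Finset.mem_image] at hs
    obtain ⟨d, hd, rfl⟩ := hs
    rw [hT, Finset.mem_filter, Finset.mem_product] at hd
    exact hd.1.1
  obtain ⟨a, haY, haS⟩ : ∃ a ∈ Y, a ∉ S := by
    by_contra hno
    have hsub : Y ⊆ S := by
      intro y hy
      by_contra hyS
      exact hno ⟨y, hy, hyS⟩
    have := Finset.card_le_card hsub
    omega
  obtain ⟨b, hb⟩ : ∃ b, b ∉ Y := by
    by_contra hno
    apply hYne
    rw [Finset.eq_univ_iff_forall]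
    intro b
    by_contra hb
    exact hno ⟨b, hb⟩
  have hbS : b ∉ S := fun h => hb (hSY h)
  have hc2 := hconn.2 S hSc
  have ha' : a ∈ ((↑S : Set V)ᶜ) := by
    rw [Set.mem_compl_iff]
    exact fun h => haS (Finset.mem_coe.mp h)
  have hb' : b ∈ ((↑S : Set V)ᶜ) := by
    rw [Set.mem_compl_iff]
    exact fun h => hbS (Finset.mem_coe.mp h)
  obtain ⟨p⟩ := hc2.preconnected ⟨a, ha'⟩ ⟨b, hb'⟩
  obtain ⟨d, _, hd1, hd2⟩ := p.exists_boundary_dart {x | (x : V) ∈ Y} haY hb
  have hadj : G.Adj (d.fst : V) (d.snd : V) := d.adj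
  have hmem : ((d.fst : V), (d.snd : V)) ∈ T := by
    rw [hT, Finset.mem_filter, Finset.mem_product, Finset.mem_compl]
    exact ⟨⟨hd1, hd2⟩, hadj⟩
  have hfS : (d.fst : V) ∈ S := Finset.mem_image.mpr ⟨_, hmem, rfl⟩
  exact d.fst.2 (Finset.mem_coe.mpr hfS)

end Pool.Agent.DCW
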