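import Pool.Agent.DCW.St

/-! helper68. Module M of DCW: the bound from a closed family of profiles. -/

set_option autoImplicit false

namespace Pool.Agent.DCW

namespace M

section Lists

variable {α β : Type}

theorem swl_eq {i j : ℕ} {l : List α} (hi : i < l.length) (hj : j < l.length) :
    swl i j l = (l.set i l[j]).set j l[i] := by
  unfold swl
  rw [List.getElem?_eq_getElem hi, List.getElem?_eq_getElem hj]

theorem swl_length (i j : ℕ) (l : List α) : (swl i j l).length = l.length := by
  unfold swl
  split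
  · rw [List.length_set, List.length_set]
  · rfl

theorem swl_map (f : α → β) (i j : ℕ) (l : List α) : (swl i j l).map f = swl i j (l.map f) := by
  unfold swl
  rw [List.getElem?_map, List.getElem?_map]
  cases l[i]? with
  | none => rfl
  | some x =>
    cases l[j]? with
    | none => rfl
    | some y =>
      show ((l.set i y).set j x).map f = ((l.map f).set i (f y)).set j (f x)
      rw [List.map_set, List.map_set]

theorem swl_perm {i j : ℕ} {l : List α} (hi : i < l.length) (hj : j < l.length) :
    (swl i j l).Perm l := by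
  rw [swl_eq hi hj]
  exact List.set_set_perm hi hj

theorem swl_swl {i j : ℕ} {l : List α} (hij : i < j) (hj : j < l.length) :
    swl i j (swl i j l) = l := by
  have hi : i < l.length := hij.trans hj
  have h1 := swl_eq hi hj
  have hi' : i < (swl i j l).length := by rw [swl_length]; exact hi
  have hj' : j < (swl i j l).length := by rw [swl_length]; exact hj
  rw [swl_eq hi' hj']
  have e1 : (swl i j l)[j] = l[i] := by
    simp only [h1, List.getElem_set_self]
  have e2 : (swl i j l)[i] = l[j] := by
    simp only [h1]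
    rw [List.getElem_set_ne (by omega), List.getElem_set_self]
  rw [e1, e2]
  apply List.ext_getElem
  · rw [List.length_set, List.length_set, swl_length]
  · intro k hk1 hk2
    by_cases hkj : k = j
    · subst hkj
      rw [List.getElem_set_self]
    · rw [List.getElem_set_ne (Ne.symm hkj)]
      by_cases hki : k = i
      · subst hki
        rw [List.getElem_set_self]
      · rw [List.getElem_set_ne (Ne.symm hki)]
        simp only [h1]
        rw [List.getElem_set_ne (Ne.symm hkj), List.getElem_set_ne (Ne.symm hki)]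

theorem swlL_length (s : List (ℕ × ℕ)) : ∀ l : List α, (swlL s l).length = l.length := by
  induction s with
  | nil => intro l; rfl
  | cons p s ih =>
    intro l
    show (swlL s (swl p.1 p.2 l)).length = l.length
    rw [ih, swl_length]

theorem swlL_map (f : α → β) (s : List (ℕ × ℕ)) :
    ∀ l : List α, (swlL s l).map f = swlL s (l.map f) := by
  induction s with
  | nil => intro l; rfl
  | cons p s ih =>
    intro l
    show (swlL s (swl p.1 p.2 l)).map f = swlL s (swl p.1 p.2 (l.map f))
    rw [ih, swl_map]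

theorem swlL_perm (s : List (ℕ × ℕ)) : ∀ l : List α, Val l.length s → (swlL s l).Perm l := by
  induction s with
  | nil => intro l _; exact List.Perm.refl _
  | cons p s ih =>
    intro l h
    have hp := h p (List.mem_cons_self)
    have h1 : (swl p.1 p.2 l).Perm l := swl_perm (hp.1.trans hp.2) hp.2
    refine List.Perm.trans (ih (swl p.1 p.2 l) ?_) h1
    intro q hq
    rw [swl_length]
    exact h q (List.mem_cons_of_mem _ hq)

theorem countP_card [DecidableEq α] (l : List α) (hl : l.Nodup) (S : Finset α)
    (hS : ∀ d, d ∈ l ↔ d ∈ S) (p : α → Bool) :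
    l.countP p = (S.filter (fun d => p d = true)).card := by
  rw [List.countP_eq_length_filter, ← List.toFinset_card_of_nodup (hl.filter p)]
  apply congrArg
  ext d
  rw [List.mem_toFinset, List.mem_filter, Finset.mem_filter, hS]

theorem length_card [DecidableEq α] (l : List α) (hl : l.Nodup) (S : Finset α)
    (hS : ∀ d, d ∈ l ↔ d ∈ S) : l.length = S.card := by
  rw [← List.toFinset_card_of_nodup hl]
  apply congrArg
  ext d
  rw [List.mem_toFinset, hS]

end Lists

section Tables

variable {V : Type} [Fintype V] [DecidableEq V] (G : SimpleGraph V) [DecidableRel G.Adj]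

theorem dom_sw (hS1 : St_S1) (U : Finset V) (β : List (V × V)) (t i j : ℕ) (hij : i < j)
    (hj : j < β.length) (h : DomOK G U β t) :
    DomOK G U (swl i j β) ((mkSw β.length i j).ap t) := by
  intro f k hk hb
  have h1 := hS1 β.length i j hij hj t ((swl i j β).map f) k
    (by rw [List.length_map, swl_length]) hk hb
  rw [← swl_map, swl_swl hij hj] at h1
  exact h f k hk h1

theorem cut_sw (hS2 : St_S2) (U : Finset V) (β : List (V × V)) (c i j : ℕ) (hij : i < j)
    (hj : j < β.length) (h : CutOK G U β c) :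
    CutOK G U (swl i j β) ((mkSx β.length i j).ap c) := by
  intro S m hm hb
  have h1 := hS2 β.length i j hij hj c ((swl i j β).map S) m
    (by rw [List.length_map, swl_length]) hm hb
  rw [← swl_map, swl_swl hij hj] at h1
  exact h S m hm h1

theorem dom_swL (hS1 : St_S1) (U : Finset V) (s : List (ℕ × ℕ)) :
    ∀ (β : List (V × V)) (t : ℕ), Val β.length s → DomOK G U β t →
      DomOK G U (swlL s β) (swT β.length s t) := by
  induction s with
  | nil => intro β t _ h; exact h
  | cons p s ih =>
    intro β t hv h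
    have hp := hv p (List.mem_cons_self)
    have h1 := dom_sw G hS1 U β t p.1 p.2 hp.1 hp.2 h
    have h2 := ih (swl p.1 p.2 β) ((mkSw β.length p.1 p.2).ap t) (by
      intro q hq
      rw [swl_length]
      exact hv q (List.mem_cons_of_mem _ hq)) h1
    rw [swl_length] at h2
    exact h2

theorem cut_swL (hS2 : St_S2) (U : Finset V) (s : List (ℕ × ℕ)) :
    ∀ (β : List (V × V)) (c : ℕ), Val β.length s → CutOK G U β c →
      CutOK G U (swlL s β) (swC β.length s c) := by
  induction s with
  | nil => intro β t _ h; exact h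
  | cons p s ih =>
    intro β c hv h
    have hp := hv p (List.mem_cons_self)
    have h1 := cut_sw G hS2 U β c p.1 p.2 hp.1 hp.2 h
    have h2 := ih (swl p.1 p.2 β) ((mkSx β.length p.1 p.2).ap c) (by
      intro q hq
      rw [swl_length]
      exact hv q (List.mem_cons_of_mem _ hq)) h1
    rw [swl_length] at h2
    exact h2

theorem bit_sub {Q t n : ℕ} (h : Q &&& t = Q) (hn : Q.testBit n = true) : t.testBit n = true := by
  rw [← h, Nat.testBit_and, Bool.and_eq_true] at hn
  exact hn.2

theorem dom_sub (U : Finset V) (β : List (V × V)) (Q t : ℕ) (h : Q &&& t = Q)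
    (ht : DomOK G U β t) : DomOK G U β Q :=
  fun f k hk hb => ht f k hk (bit_sub h hb)

theorem cut_sub (U : Finset V) (β : List (V × V)) (Q c : ℕ) (h : Q &&& c = Q)
    (ht : CutOK G U β c) : CutOK G U β Q :=
  fun S m hm hb => ht S m hm (bit_sub h hb)

theorem mem_bd (U : Finset V) (d : V × V) : d ∈ bd G U ↔ d.1 ∈ U ∧ d.2 ∉ U ∧ G.Adj d.1 d.2 := by
  unfold bd
  rw [Finset.mem_filter]
  exact ⟨fun h => h.2, fun h => ⟨Finset.mem_univ _, h⟩⟩

theorem bd_cut (W : Finset V) : (bd G W).card = cut G W Wᶜ := by
  unfold cut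
  apply congrArg
  ext d
  rw [mem_bd, Finset.mem_filter, Finset.mem_product, Finset.mem_compl, and_assoc]

theorem card_in (U : Finset V) (v : V) (hv : v ∉ U) :
    ((bd G U).filter (fun d => d.2 = v)).card = (G.neighborFinset v ∩ U).card := by
  rw [← Finset.card_image_of_injective (G.neighborFinset v ∩ U) (f := fun u => (u, v))
    (fun a b h => congrArg Prod.fst h)]
  apply congrArg
  ext d
  rw [Finset.mem_filter, mem_bd, Finset.mem_image]
  constructor
  · rintro ⟨⟨h1, h2, h3⟩, h4⟩
    refine ⟨d.1, ?_, ?_⟩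
    · rw [Finset.mem_inter, SimpleGraph.mem_neighborFinset]
      rw [h4] at h3
      exact ⟨h3.symm, h1⟩
    · rw [← h4]
  · rintro ⟨u, hu, rfl⟩
    rw [Finset.mem_inter, SimpleGraph.mem_neighborFinset] at hu
    exact ⟨⟨hu.2, hv, hu.1.symm⟩, rfl⟩

theorem card_out (U : Finset V) (v : V) :
    ((bd G (insert v U)).filter (fun d => d.1 = v)).card = (G.neighborFinset v \ U).card := by
  rw [← Finset.card_image_of_injective (G.neighborFinset v \ U) (f := fun u => (v, u))
    (fun a b h => congrArg Prod.snd h)]
  apply congrArg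
  ext d
  rw [Finset.mem_filter, mem_bd, Finset.mem_image]
  constructor
  · rintro ⟨⟨h1, h2, h3⟩, h4⟩
    refine ⟨d.2, ?_, ?_⟩
    · rw [Finset.mem_sdiff, SimpleGraph.mem_neighborFinset]
      rw [h4] at h3
      exact ⟨h3, fun h => h2 (Finset.mem_insert_of_mem h)⟩
    · rw [← h4]
  · rintro ⟨u, hu, rfl⟩
    rw [Finset.mem_sdiff, SimpleGraph.mem_neighborFinset] at hu
    refine ⟨⟨Finset.mem_insert_self _ _, ?_, hu.1⟩, rfl⟩
    intro h
    rcases Finset.mem_insert.1 h with h1 | h1
    · exact hu.1.ne h1.symm
    · exact hu.2 h1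

theorem filter_eq (U : Finset V) (v : V) (hv : v ∉ U) :
    (bd G (insert v U)).filter (fun d => ¬ d.1 = v) = (bd G U).filter (fun d => ¬ d.2 = v) := by
  ext d
  rw [Finset.mem_filter, Finset.mem_filter, mem_bd, mem_bd, Finset.mem_insert, Finset.mem_insert]
  constructor
  · rintro ⟨⟨h1, h2, h3⟩, h4⟩
    exact ⟨⟨h1.resolve_left h4, fun h => h2 (Or.inr h), h3⟩, fun h => h2 (Or.inl h)⟩
  · rintro ⟨⟨h1, h2, h3⟩, h4⟩
    refine ⟨⟨Or.inr h1, fun h => ?_, h3⟩, fun h => hv (h ▸ h1)⟩
    rcases h with h | h
    · exact h4 h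
    · exact h2 h

end Tables

section Main

variable {V : Type} [Fintype V] [DecidableEq V] (G : SimpleGraph V) [DecidableRel G.Adj]

/-- the invariant -/
def Inv (L : ℕ → Prof → Prop) (U : Finset V) : Prop :=
  ∃ (β : List (V × V)) (P : Prof), β.Nodup ∧ (∀ d, d ∈ β ↔ d ∈ bd G U) ∧ L β.length P ∧
    DomOK G U β P.t ∧ CutOK G U β P.c

theorem inv_empty (L : ℕ → Prof → Prop) (hL : Closed L) : Inv G L (∅ : Finset V) := by
  refine ⟨[], ⟨tE, 7⟩, List.nodup_nil, ?_, hL.empty, ?_, ?_⟩
  · intro d
    rw [mem_bd]
    constructor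
    · intro h
      exact absurd h List.not_mem_nil
    · rintro ⟨h, -, -⟩
      exact absurd h (Finset.notMem_empty _)
  · intro f k hk hb
    have h0 : K * i3 (([] : List (V × V)).map f) + k = k := by
      show K * 0 + k = k
      rw [mul_zero, zero_add]
    rw [h0] at hb
    refine ⟨∅, ⟨Finset.Subset.refl _, ?_, ?_⟩, ?_⟩
    · intro d hd
      rw [mem_bd] at hd
      exact absurd hd.1 (Finset.notMem_empty _)
    · intro u hu
      exact absurd hu (Finset.notMem_empty _)
    · have h7 : 7 ≤ k := by
        by_contra hc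
        have hk7 : k < 7 := by omega
        have hb' : tE.testBit k = true := hb
        interval_cases k <;> revert hb' <;> decide
      rw [Finset.card_empty]
      omega
  · intro S m hm hb
    refine ⟨∅, Finset.Subset.refl _, ?_⟩
    have h1 : cost G (∅ : Finset V) ∅ S = 0 := by
      unfold cost cut
      have h2 : bd G (∅ : Finset V) = ∅ := by
        ext d
        rw [mem_bd]
        constructor
        · rintro ⟨h, -, -⟩
          exact absurd h (Finset.notMem_empty _)
        · intro h
          exact absurd h (Finset.notMem_empty _)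
      rw [h2]
      simp
    rw [h1]
    exact Nat.zero_le _

theorem inv_step (hS1 : St_S1) (hS2 : St_S2) (hG1 : St_G1) (hG2 : St_G2) (L : ℕ → Prof → Prop)
    (hL : Closed L) (hreg : G.IsRegularOfDegree 3)
    (h3 : ∀ Y : Finset V, Y.Nonempty → Y ≠ Finset.univ → 3 ≤ cut G Y Yᶜ) (U : Finset V) (v : V)
    (hv : v ∉ U) (hne : insert v U ≠ Finset.univ) (h6 : (bd G (insert v U)).card ≤ 6)
    (h : Inv G L U) : Inv G L (insert v U) := by
  obtain ⟨β, P, hβ, hmem, hP, hD, hC⟩ := h
  have hN : (G.neighborFinset v ∩ U).card + (G.neighborFinset v \ U).card = 3 := by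
    rw [Finset.card_inter_add_card_sdiff, SimpleGraph.card_neighborFinset_eq_degree]
    exact hreg v
  -- the number of darts into `v`
  obtain ⟨j, hj⟩ : ∃ j, j = ((bd G U).filter (fun d => d.2 = v)).card := ⟨_, rfl⟩
  have hj1 : j = (G.neighborFinset v ∩ U).card := hj.trans (card_in G U v hv)
  have hj3 : j ≤ 3 := by omega
  have hb : β.length = (bd G U).card := length_card β hβ _ hmem
  have hsplit : ((bd G U).filter (fun d => d.2 = v)).card +
      ((bd G U).filter (fun d => ¬ d.2 = v)).card = (bd G U).card :=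
    Finset.card_filter_add_card_filter_not _
  have hsplit2 : ((bd G (insert v U)).filter (fun d => d.1 = v)).card +
      ((bd G (insert v U)).filter (fun d => ¬ d.1 = v)).card = (bd G (insert v U)).card :=
    Finset.card_filter_add_card_filter_not _
  rw [filter_eq G U v hv, card_out] at hsplit2
  have hjb : j ≤ β.length := by omega
  have hb' : (bd G (insert v U)).card = β.length + 3 - 2 * j := by omega
  have hge : 3 ≤ (bd G (insert v U)).card := by
    rw [bd_cut]
    exact h3 _ ⟨v, Finset.mem_insert_self _ _⟩ hne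
  have hcount : (β.map (fun d => decide (d.2 = v))).count true = j := by
    rw [List.count, List.countP_map, hj]
    have h1 := countP_card β hβ (bd G U) hmem (fun d => decide (d.2 = v))
    rw [show ((fun x => x == true) ∘ fun d : V × V => decide (d.2 = v)) =
      (fun d : V × V => decide (d.2 = v)) from by
        funext d
        simp, h1]
    apply congrArg
    ext d
    rw [Finset.mem_filter, Finset.mem_filter, decide_eq_true_iff]
  obtain ⟨s, hs, hsπ, halt⟩ := hL.step β.length j P hP hjb hj3 (by omega) (by omega)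
    (β.map (fun d => decide (d.2 = v))) (List.length_map ..) hcount
  -- the permuted list
  have hperm : (swlL s β).Perm β := swlL_perm s β hs
  have hD1 := dom_swL G hS1 U s β P.t hs hD
  have hC1 := cut_swL G hS2 U s β P.c hs hC
  rw [← swlL_map, List.map_eq_append_iff] at hsπ
  obtain ⟨ρ, α, hρα, hρ, hα⟩ := hsπ
  have hρl : ρ.length = β.length - j := by
    have := congrArg List.length hρ
    rwa [List.length_map, List.length_replicate] at this
  have hαl : α.length = j := by
    have := congrArg List.length hα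
    rwa [List.length_map, List.length_replicate] at this
  rw [hρα] at hperm hD1 hC1
  have hnd : (ρ ++ α).Nodup := hperm.nodup_iff.2 hβ
  have hρv : ∀ d ∈ ρ, d.2 ≠ v := by
    intro d hd h
    have h1 : decide (d.2 = v) ∈ ρ.map (fun d => decide (d.2 = v)) := List.mem_map_of_mem hd
    rw [hρ] at h1
    have h2 := List.eq_of_mem_replicate h1
    rw [h] at h2
    simp at h2
  have hαv : ∀ d ∈ α, d.2 = v := by
    intro d hd
    have h1 : decide (d.2 = v) ∈ α.map (fun d => decide (d.2 = v)) := List.mem_map_of_mem hd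
    rw [hα] at h1
    exact of_decide_eq_true (List.eq_of_mem_replicate h1)
  have hmem1 : ∀ d, d ∈ ρ ++ α ↔ d ∈ bd G U := fun d => (hperm.mem_iff).trans (hmem d)
  have hρm : ∀ d, d ∈ ρ ↔ d ∈ bd G U ∧ d.2 ≠ v := by
    intro d
    constructor
    · intro hd
      exact ⟨(hmem1 d).1 (List.mem_append.2 (Or.inl hd)), hρv d hd⟩
    · rintro ⟨h1, h2⟩
      rcases List.mem_append.1 ((hmem1 d).2 h1) with h4 | h4
      · exact h4
      · exact absurd (hαv d h4) h2
  have hαm : ∀ d, d ∈ α ↔ d ∈ bd G U ∧ d.2 = v := by
    intro d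
    constructor
    · intro hd
      exact ⟨(hmem1 d).1 (List.mem_append.2 (Or.inr hd)), hαv d hd⟩
    · rintro ⟨h1, h2⟩
      rcases List.mem_append.1 ((hmem1 d).2 h1) with h4 | h4
      · exact absurd h2 (hρv d h4)
      · exact h4
  -- the new darts
  obtain ⟨ν, hν⟩ : ∃ ν, ν = ((bd G (insert v U)).filter (fun d => d.1 = v)).toList := ⟨_, rfl⟩
  have hνn : ν.Nodup := by
    rw [hν]
    exact Finset.nodup_toList _
  have hνm : ∀ d, d ∈ ν ↔ d ∈ bd G (insert v U) ∧ d.1 = v := by
    intro d
    rw [hν, Finset.mem_toList, Finset.mem_filter]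
  have hνl : ν.length = 3 - α.length := by
    rw [hν, Finset.length_toList, card_out, hαl]
    omega
  have hbl : ρ.length + α.length = β.length := by omega
  have hD2 := hG1 V G U v ρ α ν (swT β.length s P.t) hv (List.nodup_append.1 hnd).2.1 hρm hαm hνm
    (by omega) hνl hD1
  obtain ⟨hC2, hpr⟩ := hG2 V G U v ρ α ν (swC β.length s P.c) hv hnd hνn hρm hαm hνm
    (by omega) hνl hC1
  have hpr' := hpr h3 hne
  rw [hbl, hαl] at hD2 hC2 hpr'
  rcases halt with h4 | ⟨Q, u, hQ, hu, hQt, hQc⟩
  · rw [hpr'] at h4
    exact absurd h4 (by simp)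
  have hll : (ρ ++ ν).length = β.length + 3 - 2 * j := by
    rw [List.length_append]
    omega
  rw [← hll] at hQ hu hQt hQc
  have hD3 := dom_sub G _ _ _ _ hQt (dom_swL G hS1 (insert v U) u (ρ ++ ν) _ hu hD2)
  have hC3 := cut_sub G _ _ _ _ hQc (cut_swL G hS2 (insert v U) u (ρ ++ ν) _ hu hC2)
  have hperm2 : (swlL u (ρ ++ ν)).Perm (ρ ++ ν) := swlL_perm u _ hu
  refine ⟨swlL u (ρ ++ ν), Q, ?_, ?_, ?_, hD3, hC3⟩
  · rw [hperm2.nodup_iff, List.nodup_append]
    refine ⟨(List.nodup_append.1 hnd).1, hνn, ?_⟩
    rintro a ha b hb2 rfl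
    have h5 := (hρm a).1 ha
    have h6 := (hνm a).1 hb2
    rw [mem_bd] at h5
    exact hv (h6.2 ▸ h5.1.1)
  · intro d
    rw [hperm2.mem_iff, List.mem_append, hρm, hνm]
    by_cases h5 : d.1 = v
    · constructor
      · rintro (h6 | h6)
        · have h7 := (mem_bd G U d).1 h6.1
          exact absurd (h5 ▸ h7.1) hv
        · exact h6.1
      · intro h6
        exact Or.inr ⟨h6, h5⟩
    · have h8 := Finset.ext_iff.1 (filter_eq G U v hv) d
      rw [Finset.mem_filter, Finset.mem_filter] at h8
      constructor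
      · rintro (h6 | h6)
        · exact (h8.2 h6).1
        · exact absurd h6.2 h5
      · intro h6
        exact Or.inl (h8.1 ⟨h6, h5⟩)
  · rw [swlL_length]
    exact hQ

theorem inv_last (hG1 : St_G1) (L : ℕ → Prof → Prop) (hL : Closed L)
    (hreg : G.IsRegularOfDegree 3) (U : Finset V) (v : V) (hv : v ∉ U)
    (huniv : insert v U = Finset.univ) (h : Inv G L U) :
    ∃ D : Finset V, 3 * D.card ≤ Fintype.card V + 1 ∧ ∀ x : V, x ∈ D ∨ ∃ u ∈ D, G.Adj u x := by
  obtain ⟨β, P, hβ, hmem, hP, hD, -⟩ := h
  have hbdu : bd G (insert v U) = ∅ := by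
    rw [huniv]
    ext d
    rw [mem_bd]
    constructor
    · rintro ⟨-, h, -⟩
      exact absurd (Finset.mem_univ _) h
    · intro h
      exact absurd h (Finset.notMem_empty _)
  have hin : ∀ d ∈ bd G U, d.2 = v := by
    intro d hd
    rw [mem_bd] at hd
    have h1 : d.2 ∈ insert v U := by
      rw [huniv]
      exact Finset.mem_univ _
    exact (Finset.mem_insert.1 h1).resolve_right hd.2.1
  have hlen : β.length = 3 := by
    rw [length_card β hβ _ hmem]
    have h1 : bd G U = (bd G U).filter (fun d => d.2 = v) := by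
      ext d
      rw [Finset.mem_filter]
      exact ⟨fun h => ⟨h, hin d h⟩, fun h => h.1⟩
    rw [h1, card_in G U v hv]
    have hN : (G.neighborFinset v ∩ U).card + (G.neighborFinset v \ U).card = 3 := by
      rw [Finset.card_inter_add_card_sdiff, SimpleGraph.card_neighborFinset_eq_degree]
      exact hreg v
    have h2 := card_out G U v
    rw [hbdu, Finset.filter_empty, Finset.card_empty] at h2
    omega
  have hD2 := hG1 V G U v [] β [] P.t hv hβ
    (fun d => ⟨fun h => absurd h List.not_mem_nil, fun h => absurd (hin d h.1) h.2⟩)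
    (fun d => ⟨fun h => ⟨(hmem d).1 h, hin d ((hmem d).1 h)⟩, fun h => (hmem d).2 h.1⟩)
    (fun d => ⟨fun h => absurd h List.not_mem_nil, fun h => by
      rw [hbdu] at h
      exact absurd h.1 (Finset.notMem_empty _)⟩)
    (by omega) (by rw [hlen]; rfl) hD
  rw [hlen] at hP hD2
  obtain ⟨D, ⟨-, -, hR⟩, hc⟩ := hD2 (fun _ => 0) 8 (by decide) (hL.fin P hP)
  rw [huniv, Finset.card_univ] at hc
  refine ⟨D, by omega, fun x => ?_⟩
  rcases hR x (by rw [huniv]; exact Finset.mem_univ _) with h1 | h1 | ⟨d, hd, -⟩
  · exact Or.inl h1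
  · exact Or.inr h1
  · rw [hbdu] at hd
    exact absurd hd (Finset.notMem_empty _)

end Main

end M

open M in
theorem thm_M (hS1 : St_S1) (hS2 : St_S2) (hG1 : St_G1) (hG2 : St_G2) : St_M := by
  intro L hL V _ _ G _ hreg h4 h3 e h6
  obtain ⟨n, hn⟩ : ∃ n, n = Fintype.card V := ⟨_, rfl⟩
  let U : ℕ → Finset V := fun i => Finset.univ.filter fun v => (e v : ℕ) < i
  have hU : ∀ (i : ℕ) (x : V), x ∈ U i ↔ (e x : ℕ) < i := by
    intro i x
    show x ∈ Finset.univ.filter _ ↔ _
    rw [Finset.mem_filter]
    exact ⟨fun h => h.2, fun h => ⟨Finset.mem_univ _, h⟩⟩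
  have hins : ∀ (i : ℕ) (hi : i < Fintype.card V), U (i + 1) = insert (e.symm ⟨i, hi⟩) (U i) := by
    intro i hi
    ext x
    rw [Finset.mem_insert, hU, hU]
    constructor
    · intro h
      rcases Nat.lt_or_eq_of_le (Nat.le_of_lt_succ h) with h1 | h1
      · exact Or.inr h1
      · left
        rw [Equiv.eq_symm_apply]
        exact Fin.ext h1
    · rintro (h | h)
      · rw [h, Equiv.apply_symm_apply]
        exact Nat.lt_succ_self i
      · omega
  have hnot : ∀ (i : ℕ) (hi : i < Fintype.card V), e.symm ⟨i, hi⟩ ∉ U i := by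
    intro i hi h
    rw [hU, Equiv.apply_symm_apply] at h
    exact absurd h (lt_irrefl i)
  have hnuniv : ∀ i, i < Fintype.card V → U i ≠ Finset.univ := by
    intro i hi h
    exact hnot i hi (by rw [h]; exact Finset.mem_univ _)
  have hinv : ∀ i, i < Fintype.card V → Inv G L (U i) := by
    intro i
    induction i with
    | zero =>
      intro _
      have h0 : U 0 = ∅ := by
        ext x
        rw [hU]
        constructor
        · intro h
          exact absurd h (Nat.not_lt_zero _)
        · intro h
          exact absurd h (Finset.notMem_empty _)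
      rw [h0]
      exact inv_empty G L hL
    | succ i ih =>
      intro hi
      have hi' : i < Fintype.card V := by omega
      have h5 := hnuniv (i + 1) hi
      have h7 : (bd G (U (i + 1))).card ≤ 6 := h6 (i + 1)
      rw [hins i hi'] at h5 h7 ⊢
      exact inv_step G hS1 hS2 hG1 hG2 L hL hreg h3 (U i) _ (hnot i hi') h5 h7 (ih hi')
  have hl : Fintype.card V - 1 < Fintype.card V := by omega
  refine inv_last G hG1 L hL hreg (U (Fintype.card V - 1)) _ (hnot _ hl) ?_ (hinv _ hl)
  rw [← hins _ hl]
  ext x
  rw [hU]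
  have hx := (e x).2
  exact ⟨fun _ => Finset.mem_univ _, fun _ => by omega⟩

end Pool.Agent.DCW
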