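import Pool.Agent.DCW.St

/-!
# Facts on the codes
-/

set_option autoImplicit false

namespace Pool.Agent.DCW

namespace S0

theorem i3_lt (l : List (Fin 3)) : i3 l < 3 ^ l.length := by
  induction l with
  | nil => simp [i3]
  | cons a l ih =>
    have ha := a.isLt
    simp only [i3, List.length_cons, pow_succ]
    omega

theorem i3_app (l m : List (Fin 3)) : i3 (l ++ m) = i3 l + 3 ^ l.length * i3 m := by
  induction l with
  | nil => simp [i3]
  | cons a l ih =>
    simp only [List.cons_append, i3, List.length_cons, ih, pow_succ]
    ring

theorem i3_inj (l m : List (Fin 3)) (h : l.length = m.length) (e : i3 l = i3 m) : l = m := by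
  induction l generalizing m with
  | nil =>
    cases m with
    | nil => rfl
    | cons b m => simp at h
  | cons a l ih =>
    cases m with
    | nil => simp at h
    | cons b m =>
      have ha := a.isLt
      have hb := b.isLt
      simp only [i3] at e
      have h1 : a = b := Fin.ext (by omega)
      have h2 : i3 l = i3 m := by omega
      rw [h1, ih m (by simpa using h) h2]

theorem i3_surj (b q : ℕ) (hq : q < 3 ^ b) : ∃ l : List (Fin 3), l.length = b ∧ i3 l = q := by
  induction b generalizing q with
  | zero => exact ⟨[], rfl, by simp at hq; simp [i3, hq]⟩
  | succ b ih =>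
    obtain ⟨l, h1, h2⟩ := ih (q / 3) (by rw [pow_succ] at hq; omega)
    refine ⟨⟨q % 3, Nat.mod_lt _ (by norm_num)⟩ :: l, by simp [h1], ?_⟩
    simp only [i3, h2]
    omega

theorem dg_i3 (l : List (Fin 3)) (i : ℕ) (h : i < l.length) : dg (i3 l) i = (l[i]).val := by
  induction l generalizing i with
  | nil => simp at h
  | cons a l ih =>
    have ha := a.isLt
    cases i with
    | zero =>
      simp only [dg, i3, pow_zero, Nat.div_one, List.getElem_cons_zero]
      omega
    | succ i =>
      have h' : i < l.length := by simpa using h
      rw [List.getElem_cons_succ, ← ih i h']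
      simp only [dg, i3]
      rw [pow_succ, mul_comm (3 ^ i) 3, ← Nat.div_div_eq_div_mul]
      congr 2
      omega

theorem i2_lt (l : List Bool) : i2 l < 2 ^ l.length := by
  induction l with
  | nil => simp [i2]
  | cons a l ih =>
    have ha : a.toNat ≤ 1 := Bool.toNat_le a
    simp only [i2, List.length_cons, pow_succ]
    omega

theorem i2_app (l m : List Bool) : i2 (l ++ m) = i2 l + 2 ^ l.length * i2 m := by
  induction l with
  | nil => simp [i2]
  | cons a l ih =>
    simp only [List.cons_append, i2, List.length_cons, ih, pow_succ]
    ring

theorem i2_inj (l m : List Bool) (h : l.length = m.length) (e : i2 l = i2 m) : l = m := by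
  induction l generalizing m with
  | nil =>
    cases m with
    | nil => rfl
    | cons b m => simp at h
  | cons a l ih =>
    cases m with
    | nil => simp at h
    | cons b m =>
      have ha : a.toNat ≤ 1 := Bool.toNat_le a
      have hb : b.toNat ≤ 1 := Bool.toNat_le b
      simp only [i2] at e
      have h0 : a.toNat = b.toNat := by omega
      have h1 : a = b := by revert h0; cases a <;> cases b <;> simp
      have h2 : i2 l = i2 m := by omega
      rw [h1, ih m (by simpa using h) h2]

theorem i2_surj (b q : ℕ) (hq : q < 2 ^ b) : ∃ l : List Bool, l.length = b ∧ i2 l = q := by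
  induction b generalizing q with
  | zero => exact ⟨[], rfl, by simp at hq; simp [i2, hq]⟩
  | succ b ih =>
    obtain ⟨l, h1, h2⟩ := ih (q / 2) (by rw [pow_succ] at hq; omega)
    refine ⟨decide (q % 2 = 1) :: l, by simp [h1], ?_⟩
    simp only [i2, h2]
    rcases Nat.mod_two_eq_zero_or_one q with h | h
    · simp [h]
      omega
    · simp [h]
      omega

theorem dx_i2 (l : List Bool) (i : ℕ) (h : i < l.length) : dx (i2 l) i = (l[i]).toNat := by
  induction l generalizing i with
  | nil => simp at h
  | cons a l ih =>
    have ha : a.toNat ≤ 1 := Bool.toNat_le a
    cases i with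
    | zero =>
      simp only [dx, i2, pow_zero, Nat.div_one, List.getElem_cons_zero]
      omega
    | succ i =>
      have h' : i < l.length := by simpa using h
      rw [List.getElem_cons_succ, ← ih i h']
      simp only [dx, i2]
      rw [pow_succ, mul_comm (2 ^ i) 2, ← Nat.div_div_eq_div_mul]
      congr 2
      omega

theorem fld_bit (w x : ℕ) (g : ℕ → Bool) (n q k : ℕ) (hx : x < 2 ^ w) (hk : k < w) :
    (fld w x g n).testBit (w * q + k) = (decide (q < n) && g q && x.testBit k) := by
  induction n with
  | zero => simp [fld]
  | succ n ih =>
    have hs : (if g n = true then x <<< (w * n) else 0).testBit (w * q + k) =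
        (decide (q = n) && g n && x.testBit k) := by
      by_cases hg : g n = true
      · rw [if_pos hg, Nat.testBit_shiftLeft, hg, Bool.and_true]
        rcases lt_trichotomy q n with h | h | h
        · have h1 : w * q + k < w * n := by
            calc w * q + k < w * q + w := by omega
              _ = w * (q + 1) := by ring
              _ ≤ w * n := Nat.mul_le_mul_left _ h
          have h2 : decide (w * q + k ≥ w * n) = false := by simpa using h1
          have h3 : decide (q = n) = false := by simpa using h.ne
          rw [h2, h3, Bool.false_and, Bool.false_and]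
        · subst h
          have h2 : decide (w * q + k ≥ w * q) = true := by simp
          rw [h2, Bool.true_and]
          simp
        · have h1 : w * n + w ≤ w * q := by
            calc w * n + w = w * (n + 1) := by ring
              _ ≤ w * q := Nat.mul_le_mul_left _ h
          have h3 : decide (q = n) = false := by simpa using h.ne'
          have h4 : x.testBit (w * q + k - w * n) = false := by
            apply Nat.testBit_lt_two_pow
            refine lt_of_lt_of_le hx ?_
            exact Nat.pow_le_pow_right (by norm_num) (by omega)
          rw [h4, h3, Bool.and_false, Bool.false_and]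
      · have hg' : g n = false := by simpa using hg
        rw [if_neg hg, hg']
        simp
    simp only [fld, Nat.testBit_or, ih, hs]
    by_cases h : q = n
    · subst h
      simp
    · have h1 : decide (q = n) = false := by simpa using h
      have h2 : decide (q < n + 1) = decide (q < n) := by
        rw [decide_eq_decide]
        omega
      rw [h1, h2]
      simp

end S0

/-- [S0] -/
theorem thm_S0 : St_S0 :=
  ⟨S0.i3_lt, S0.i3_app, S0.i3_inj, S0.i3_surj, S0.dg_i3, S0.i2_lt, S0.i2_app, S0.i2_inj,
    S0.i2_surj, S0.dx_i2, fun w x g n q k hx hk => S0.fld_bit w x g n q k hx hk⟩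

end Pool.Agent.DCW
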