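import Pool.Agent.DCW.St

set_option autoImplicit false

/-!
# Module S1: interchange of two base 3 digits by masks and shifts
-/

namespace Pool.Agent.DCW

namespace S1

/-- the code after the change of one entry -/
private theorem i3_set (l : List (Fin 3)) : ∀ (i : ℕ) (x : Fin 3) (h : i < l.length),
    i3 (l.set i x) + (l[i]).val * 3 ^ i = i3 l + x.val * 3 ^ i := by
  induction l with
  | nil => intro i x h; simp at h
  | cons a l ih =>
    intro i x h
    cases i with
    | zero => simp [i3]; ring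
    | succ i =>
      have h' : i < l.length := by simpa using h
      have h1 := ih i x h'
      simp only [List.set_cons_succ, i3, List.getElem_cons_succ, pow_succ]
      linarith

private theorem swl_eq {α : Type} (l : List α) (i j : ℕ) (hi : i < l.length) (hj : j < l.length) :
    swl i j l = (l.set i l[j]).set j l[i] := by
  unfold swl
  rw [List.getElem?_eq_getElem hi, List.getElem?_eq_getElem hj]

private theorem swl_length {α : Type} (l : List α) (i j : ℕ) (hi : i < l.length)
    (hj : j < l.length) : (swl i j l).length = l.length := by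
  rw [swl_eq l i j hi hj, List.length_set, List.length_set]

private theorem swl_swl {α : Type} (l : List α) (i j : ℕ) (hij : i < j) (hj : j < l.length) :
    swl i j (swl i j l) = l := by
  have hi : i < l.length := hij.trans hj
  have hl := swl_length l i j hi hj
  rw [swl_eq (swl i j l) i j (by rw [hl]; exact hi) (by rw [hl]; exact hj)]
  refine List.ext_getElem (by rw [List.length_set, List.length_set, hl]) ?_
  intro n h1 h2
  simp only [List.getElem_set, swl_eq l i j hi hj]
  split_ifs with h3 h4 h5 h6 <;> first | (subst h3; rfl) | (subst h4; rfl) | rfl | skip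
  all_goals first | omega | (simp_all) | skip

private theorem i3_swl (l : List (Fin 3)) (i j : ℕ) (hij : i < j) (hj : j < l.length) :
    i3 (swl i j l) + (l[j]).val * (3 ^ j - 3 ^ i) = i3 l + (l[i]'(hij.trans hj)).val *
      (3 ^ j - 3 ^ i) := by
  have hi : i < l.length := hij.trans hj
  have h1 := i3_set l i l[j] hi
  have h2 := i3_set (l.set i l[j]) j l[i] (by rw [List.length_set]; exact hj)
  rw [List.getElem_set_of_ne (by omega : i ≠ j)] at h2
  rw [← swl_eq l i j hi hj] at h2
  have h3 : 3 ^ i ≤ 3 ^ j := Nat.pow_le_pow_right (by norm_num) hij.le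
  obtain ⟨D, hD⟩ := Nat.exists_eq_add_of_le h3
  rw [hD] at h2 ⊢
  rw [Nat.add_sub_cancel_left]
  nlinarith

/-- the lists -/
private theorem fin_step (hS0 : St_S0) (b i j : ℕ) (hij : i < j) (hjb : j < b)
    (l : List (Fin 3)) (hl : l.length = b) (q e1 e2 : ℕ) (hq : q < 3 ^ b)
    (hd : dg q i + e1 = dg q j + e2)
    (hQ : i3 l + e1 * (3 ^ j - 3 ^ i) = q + e2 * (3 ^ j - 3 ^ i)) :
    i3 (swl i j l) = q := by
  obtain ⟨-, -, hinj, hsur, hdg, -⟩ := hS0
  obtain ⟨l', hl', rfl⟩ := hsur b q hq
  have hj' : j < l'.length := by omega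
  have hi' : i < l'.length := by omega
  have h1 := hdg l' i hi'
  have h2 := hdg l' j hj'
  have h3 := i3_swl l' i j hij hj'
  rw [h1, h2] at hd
  have h4 : i3 l = i3 (swl i j l') := by
    generalize (3 ^ j - 3 ^ i) = D at *
    have h5 : (l'[i]).val * D + e1 * D = (l'[j]).val * D + e2 * D := by
      rw [← Nat.add_mul, ← Nat.add_mul, hd]
    omega
  have h6 := hinj l (swl i j l') (by rw [swl_length l' i j hi' hj', hl, hl']) h4
  rw [h6, swl_swl l' i j hij hj']

end S1

/-- interchange of two digits of a table -/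
theorem thm_S1 (hS0 : St_S0) : St_S1 := by
  intro b i j hij hjb t l k hl hk h
  have hfld := hS0.2.2.2.2.2.2.2.2.2.2
  have hlt : i3 l < 3 ^ b := hl ▸ hS0.1 l
  have hx : 2 ^ K - 1 < 2 ^ K := Nat.sub_lt (by positivity) one_pos
  have hK : 0 < K := by norm_num [K]
  have key : ∀ (g : ℕ → Bool) (q : ℕ), (t &&& fld K (2 ^ K - 1) g (3 ^ b)).testBit (K * q + k) = true →
      q < 3 ^ b ∧ g q = true ∧ t.testBit (K * q + k) = true := by
    intro g q hh
    rw [Nat.testBit_and, hfld K (2 ^ K - 1) g (3 ^ b) q k hx hk] at hh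
    simp only [Bool.and_eq_true, decide_eq_true_eq] at hh
    exact ⟨hh.2.1.1, hh.2.1.2, hh.1⟩
  have down : ∀ s : ℕ, K * s ≤ K * i3 l + k → s ≤ i3 l ∧ K * i3 l + k - K * s = K * (i3 l - s) + k := by
    intro s hs
    have h1 : s ≤ i3 l := by
      by_contra hc
      push Not at hc
      have h2 : K * (i3 l + 1) ≤ K * s := Nat.mul_le_mul_left K hc
      rw [Nat.mul_add] at h2
      omega
    refine ⟨h1, ?_⟩
    rw [Nat.mul_sub]
    have := Nat.mul_le_mul_left K h1
    omega
  unfold Sw.ap mkSw at h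
  simp only [Nat.testBit_or, Bool.or_eq_true] at h
  rcases h with (((h | h) | h) | h) | h
  · obtain ⟨h1, h2, h3⟩ := key _ _ h
    rw [S1.fin_step hS0 b i j hij hjb l hl (i3 l) 0 0 h1 (by simpa using h2) (by ring)]
    exact h3
  · rw [Nat.testBit_shiftLeft, Bool.and_eq_true, decide_eq_true_eq] at h
    obtain ⟨h4, h5⟩ := down _ h.1
    rw [h5] at h
    obtain ⟨h1, h2, h3⟩ := key _ _ h.2
    rw [S1.fin_step hS0 b i j hij hjb l hl (i3 l - (3 ^ j - 3 ^ i)) 0 1 h1 (by simpa using h2)
      (by omega)]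
    exact h3
  · rw [Nat.testBit_shiftLeft, Bool.and_eq_true, decide_eq_true_eq] at h
    have e : 2 * (K * (3 ^ j - 3 ^ i)) = K * (2 * (3 ^ j - 3 ^ i)) := by ring
    rw [e] at h
    obtain ⟨h4, h5⟩ := down _ h.1
    rw [h5] at h
    obtain ⟨h1, h2, h3⟩ := key _ _ h.2
    rw [S1.fin_step hS0 b i j hij hjb l hl (i3 l - 2 * (3 ^ j - 3 ^ i)) 0 2 h1 (by simpa using h2)
      (by omega)]
    exact h3
  · rw [Nat.testBit_shiftRight] at h
    have e : K * (3 ^ j - 3 ^ i) + (K * i3 l + k) = K * (i3 l + (3 ^ j - 3 ^ i)) + k := by ring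
    rw [e] at h
    obtain ⟨h1, h2, h3⟩ := key _ _ h
    rw [S1.fin_step hS0 b i j hij hjb l hl (i3 l + (3 ^ j - 3 ^ i)) 1 0 h1 (by simpa using h2)
      (by ring)]
    exact h3
  · rw [Nat.testBit_shiftRight] at h
    have e : 2 * (K * (3 ^ j - 3 ^ i)) + (K * i3 l + k) = K * (i3 l + 2 * (3 ^ j - 3 ^ i)) + k := by
      ring
    rw [e] at h
    obtain ⟨h1, h2, h3⟩ := key _ _ h
    rw [S1.fin_step hS0 b i j hij hjb l hl (i3 l + 2 * (3 ^ j - 3 ^ i)) 2 0 h1 (by simpa using h2)
      (by ring)]
    exact h3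

end Pool.Agent.DCW
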