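import Pool.Agent.DCW.St

/-!
# Interchange of two binary digits (S2)

MP_b5ee1a_co (helper75).
-/

set_option autoImplicit false

namespace Pool.Agent.DCW

namespace S2

theorem swl_eq {α : Type} (i j : ℕ) (l : List α) (hi : i < l.length) (hj : j < l.length) :
    swl i j l = (l.set i l[j]).set j l[i] := by
  unfold swl
  rw [List.getElem?_eq_getElem hi, List.getElem?_eq_getElem hj]

theorem length_swl {α : Type} (i j : ℕ) (l : List α) : (swl i j l).length = l.length := by
  unfold swl
  split <;> simp

theorem getElem_swl {α : Type} (i j : ℕ) (l : List α) (hi : i < l.length) (hj : j < l.length)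
    (k : ℕ) (hk : k < (swl i j l).length) (hk' : k < l.length) :
    (swl i j l)[k] = if j = k then l[i] else if i = k then l[j] else l[k] := by
  have h : swl i j l = (l.set i l[j]).set j l[i] := swl_eq i j l hi hj
  have h1 : (swl i j l)[k]? = ((l.set i l[j]).set j l[i])[k]? := by rw [h]
  rw [List.getElem?_eq_getElem hk, List.getElem?_eq_getElem (by simpa using hk')] at h1
  have h2 := Option.some.inj h1
  rw [h2, List.getElem_set, List.getElem_set]

theorem swl_swl {α : Type} (i j : ℕ) (l : List α) (hi : i < l.length) (hj : j < l.length) :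
    swl i j (swl i j l) = l := by
  have hi' : i < (swl i j l).length := by rwa [length_swl]
  have hj' : j < (swl i j l).length := by rwa [length_swl]
  apply List.ext_getElem
  · rw [length_swl, length_swl]
  · intro k h1 h2
    rw [getElem_swl i j _ hi' hj' k h1 (by rwa [length_swl]), getElem_swl i j l hi hj i hi' hi,
      getElem_swl i j l hi hj j hj' hj, getElem_swl i j l hi hj k (by rwa [length_swl]) h2]
    split_ifs <;> first | rfl | (subst_vars; rfl) | omega

theorem i2_set (l : List Bool) (i : ℕ) (h : i < l.length) (x : Bool) :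
    i2 (l.set i x) + (l[i]).toNat * 2 ^ i = i2 l + x.toNat * 2 ^ i := by
  induction l generalizing i with
  | nil => simp at h
  | cons a l ih =>
    cases i with
    | zero =>
      simp only [List.set_cons_zero, i2, List.getElem_cons_zero, pow_zero, mul_one]
      omega
    | succ i =>
      have h1 := ih i (by simpa using h)
      simp only [List.set_cons_succ, i2, List.getElem_cons_succ]
      rw [pow_succ]
      nlinarith

theorem i2_swl (l : List Bool) (i j : ℕ) (hij : i < j) (hi : i < l.length) (hj : j < l.length) :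
    i2 (swl i j l) + (l[j]).toNat * 2 ^ j + (l[i]).toNat * 2 ^ i =
      i2 l + (l[j]).toNat * 2 ^ i + (l[i]).toNat * 2 ^ j := by
  rw [swl_eq i j l hi hj]
  have h1 := i2_set (l.set i l[j]) j (by simpa using hj) l[i]
  have h2 := i2_set l i hi l[j]
  rw [List.getElem_set_of_ne (by omega)] at h1
  omega

end S2

theorem thm_S2 (hS0 : St_S0) : St_S2 := by
  obtain ⟨-, -, -, -, -, hlt, -, hinj, hsurj, hdx, hfld⟩ := hS0
  intro b i j hij hj c l m hl hm h
  have hi : i < b := by omega
  have h7 : (7 : ℕ) < 2 ^ 3 := by norm_num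
  have hpow : 2 ^ i < 2 ^ j := Nat.pow_lt_pow_right (by norm_num) hij
  unfold Sx.ap at h
  rw [Nat.testBit_or, Nat.testBit_or, Bool.or_eq_true, Bool.or_eq_true] at h
  have hd : ∀ (l' : List Bool) (k : ℕ) (hk : k < l'.length), dx (i2 l') k = (l'[k]).toNat := hdx
  rcases h with (h | h) | h
  · -- equal digits
    rw [Nat.testBit_and, Bool.and_eq_true] at h
    obtain ⟨h1, h2⟩ := h
    change (fld 3 7 (fun q => dx q i == dx q j) (2 ^ b)).testBit (3 * i2 l + m) = true at h2
    rw [hfld 3 7 _ _ _ _ h7 hm, Bool.and_eq_true, Bool.and_eq_true] at h2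
    have h3 := h2.1.2
    rw [beq_iff_eq, hd l i (by omega), hd l j (by omega)] at h3
    have h4 : i2 (swl i j l) = i2 l := by
      have h5 := S2.i2_swl l i j hij (by omega) (by omega)
      rw [h3] at h5
      omega
    rw [h4]
    exact h1
  · -- shifted up
    rw [Nat.testBit_shiftLeft, Nat.testBit_and] at h
    simp only [Bool.and_eq_true, decide_eq_true_eq] at h
    obtain ⟨h0, h1, h2⟩ := h
    change 3 * i2 l + m ≥ 3 * (2 ^ j - 2 ^ i) at h0
    have h3 : 2 ^ j - 2 ^ i ≤ i2 l := by omega
    have h4 : 3 * i2 l + m - (mkSx b i j).s = 3 * (i2 l - (2 ^ j - 2 ^ i)) + m := by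
      change 3 * i2 l + m - 3 * (2 ^ j - 2 ^ i) = _
      omega
    rw [h4] at h1 h2
    change (fld 3 7 (fun q => dx q i == dx q j + 1) (2 ^ b)).testBit _ = true at h2
    rw [hfld 3 7 _ _ _ _ h7 hm, Bool.and_eq_true, Bool.and_eq_true] at h2
    obtain ⟨⟨h5, h6⟩, -⟩ := h2
    obtain ⟨l', hl', h8⟩ := hsurj b _ (of_decide_eq_true h5)
    rw [beq_iff_eq, ← h8, hd l' i (by omega), hd l' j (by omega)] at h6
    have h9 := S2.i2_swl l' i j hij (by omega) (by omega)
    have h10 : swl i j l' = l := by
      refine hinj _ _ (by rw [S2.length_swl]; omega) ?_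
      cases hx : l'[i] <;> cases hy : l'[j] <;> rw [hx, hy] at h6 h9 <;> simp at h6 h9
      omega
    rw [← h10, S2.swl_swl i j l' (by omega) (by omega), h8]
    exact h1
  · -- shifted down
    rw [Nat.testBit_shiftRight, Nat.testBit_and, Bool.and_eq_true] at h
    obtain ⟨h1, h2⟩ := h
    have h4 : (mkSx b i j).s + (3 * i2 l + m) = 3 * (i2 l + (2 ^ j - 2 ^ i)) + m := by
      change 3 * (2 ^ j - 2 ^ i) + (3 * i2 l + m) = _
      omega
    rw [h4] at h1 h2
    change (fld 3 7 (fun q => dx q i + 1 == dx q j) (2 ^ b)).testBit _ = true at h2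
    rw [hfld 3 7 _ _ _ _ h7 hm, Bool.and_eq_true, Bool.and_eq_true] at h2
    obtain ⟨⟨h5, h6⟩, -⟩ := h2
    obtain ⟨l', hl', h8⟩ := hsurj b _ (of_decide_eq_true h5)
    rw [beq_iff_eq, ← h8, hd l' i (by omega), hd l' j (by omega)] at h6
    have h9 := S2.i2_swl l' i j hij (by omega) (by omega)
    have h10 : swl i j l' = l := by
      refine hinj _ _ (by rw [S2.length_swl]; omega) ?_
      cases hx : l'[i] <;> cases hy : l'[j] <;> rw [hx, hy] at h6 h9 <;> simp at h6 h9
      omega
    rw [← h10, S2.swl_swl i j l' (by omega) (by omega), h8]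
    exact h1

end Pool.Agent.DCW
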