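import Pool.Agent.DCW.TabEq
import Pool.Agent.DCW.C34
import Pool.Agent.DCW.C5
import Pool.Agent.DCW.C6

/-!
# The certificate is correct
-/

set_option autoImplicit false

namespace Pool.Agent.DCW

theorem c0 : chk0 = true := by decide +kernel

/-- The profiles of the certificate. -/
def LL (b : ℕ) (P : Prof) : Prop :=
  (b = 0 ∧ P = ⟨tE, 7⟩) ∨ (b = 3 ∧ ∃ w, R3.Mem ⟨P.t, P.c, w⟩) ∨
    (b = 4 ∧ ∃ w, R4.Mem ⟨P.t, P.c, w⟩) ∨ (b = 5 ∧ ∃ w, R5.Mem ⟨P.t, P.c, w⟩) ∨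
      (b = 6 ∧ ∃ w, R6.Mem ⟨P.t, P.c, w⟩)

/-- The conclusion of the step. -/
def Stp (b j : ℕ) (P : Prof) : Prop :=
  ∀ π : List Bool, π.length = b → π.count true = j → ∃ s : List (ℕ × ℕ), Val b s ∧
    swlL s π = List.replicate (b - j) false ++ List.replicate j true ∧
    (pr b j (swC b s P.c) = true ∨ ∃ (Q : Prof) (u : List (ℕ × ℕ)), LL (b + 3 - 2 * j) Q ∧
      Val (b + 3 - 2 * j) u ∧
      Q.t &&& swT (b + 3 - 2 * j) u (stepT b j (swT b s P.t)) = Q.t ∧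
      Q.c &&& swC (b + 3 - 2 * j) u (stepC b j (swC b s P.c)) = Q.c)

theorem stp_of (b j nb : ℕ) (hnb : b + 3 - 2 * j = nb) (R : Tr)
    (hR : ∀ Q : Prof, (∃ w, R.Mem ⟨Q.t, Q.c, w⟩) → LL nb Q) (P : Prof)
    (h : ∀ π : List Bool, π.length = b → π.count true = j →
      ∃ s : List (ℕ × ℕ), Val b s ∧
      swlL s π = List.replicate (b - j) false ++ List.replicate j true ∧
      (pr b j (swC b s P.c) = true ∨ ∃ (Q : Prof) (u : List (ℕ × ℕ)),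
        (∃ w', R.Mem ⟨Q.t, Q.c, w'⟩) ∧ Val nb u ∧
        Q.t &&& swT nb u (stepT b j (swT b s P.t)) = Q.t ∧
        Q.c &&& swC nb u (stepC b j (swC b s P.c)) = Q.c)) : Stp b j P := by
  subst hnb
  intro π h1 h2
  obtain ⟨s, h3, h4, h5⟩ := h π h1 h2
  refine ⟨s, h3, h4, ?_⟩
  rcases h5 with h5 | ⟨Q, u, h6, h7⟩
  · exact Or.inl h5
  · exact Or.inr ⟨Q, u, hR Q h6, h7⟩

theorem hR3 (Q : Prof) (h : ∃ w, R3.Mem ⟨Q.t, Q.c, w⟩) : LL 3 Q := Or.inr (Or.inl ⟨rfl, h⟩)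

theorem hR4 (Q : Prof) (h : ∃ w, R4.Mem ⟨Q.t, Q.c, w⟩) : LL 4 Q :=
  Or.inr (Or.inr (Or.inl ⟨rfl, h⟩))

theorem hR5 (Q : Prof) (h : ∃ w, R5.Mem ⟨Q.t, Q.c, w⟩) : LL 5 Q :=
  Or.inr (Or.inr (Or.inr (Or.inl ⟨rfl, h⟩)))

theorem hR6 (Q : Prof) (h : ∃ w, R6.Mem ⟨Q.t, Q.c, w⟩) : LL 6 Q :=
  Or.inr (Or.inr (Or.inr (Or.inr ⟨rfl, h⟩)))

theorem stp00 : Stp 0 0 ⟨tE, 7⟩ :=
  stp_of 0 0 3 rfl R3 hR3 _ (step_of 0 0 3 rows3 R3 cf0_0 (st0 cf0_0) 0 3 pre0_0 pp0_0 cf0_0_eq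
    (fun t => by rw [cf0_0_eq, st0_eq]) rfl rfl rows3_ok pre0_0_eq pp0_0_val pp0_0_pat _ _ _ c0)

section Cases

variable (P : Prof) (w : ℕ)

theorem stp30 (h : R3.Mem ⟨P.t, P.c, w⟩) : Stp 3 0 P :=
  stp_of 3 0 6 rfl R6 hR6 _ (step_of 3 0 6 rows6 R6 cf3_0 (st0 cf3_0) 0 3 pre3_0 pp3_0 cf3_0_eq
    (fun t => by rw [cf3_0_eq, st0_eq]) rfl rfl rows6_ok pre3_0_eq pp3_0_val pp3_0_pat _ _ _
    (and_of _ _ (and_of _ _ (all_mem _ _ c3 _ h)).2).1)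

theorem stp31 (h : R3.Mem ⟨P.t, P.c, w⟩) : Stp 3 1 P :=
  stp_of 3 1 4 rfl R4 hR4 _ (step_of 3 1 4 rows4 R4 cf3_1 (st1 cf3_1) 1 2 pre3_1 pp3_1 cf3_1_eq
    (fun t => by rw [cf3_1_eq, st1_eq]) rfl rfl rows4_ok pre3_1_eq pp3_1_val pp3_1_pat _ _ _
    (and_of _ _ (and_of _ _ (all_mem _ _ c3 _ h)).2).2)

theorem fin3 (h : R3.Mem ⟨P.t, P.c, w⟩) : (stepT 3 3 P.t).testBit 8 = true := by
  rw [← st3_eq, ← cf3_3_eq]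
  exact (and_of _ _ (all_mem _ _ c3 _ h)).1

theorem stp41 (h : R4.Mem ⟨P.t, P.c, w⟩) : Stp 4 1 P :=
  stp_of 4 1 5 rfl R5 hR5 _ (step_of 4 1 5 rows5 R5 cf4_1 (st1 cf4_1) 1 2 pre4_1 pp4_1 cf4_1_eq
    (fun t => by rw [cf4_1_eq, st1_eq]) rfl rfl rows5_ok pre4_1_eq pp4_1_val pp4_1_pat _ _ _
    (and_of _ _ (all_mem _ _ c4 _ h)).1)

theorem stp42 (h : R4.Mem ⟨P.t, P.c, w⟩) : Stp 4 2 P :=
  stp_of 4 2 3 rfl R3 hR3 _ (step_of 4 2 3 rows3 R3 cf4_2 (st2 cf4_2) 3 1 pre4_2 pp4_2 cf4_2_eq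
    (fun t => by rw [cf4_2_eq, st2_eq]) rfl rfl rows3_ok pre4_2_eq pp4_2_val pp4_2_pat _ _ _
    (and_of _ _ (all_mem _ _ c4 _ h)).2)

theorem stp51 (h : R5.Mem ⟨P.t, P.c, w⟩) : Stp 5 1 P :=
  stp_of 5 1 6 rfl R6 hR6 _ (step_of 5 1 6 rows6 R6 cf5_1 (st1 cf5_1) 1 2 pre5_1 pp5_1 cf5_1_eq
    (fun t => by rw [cf5_1_eq, st1_eq]) rfl rfl rows6_ok pre5_1_eq pp5_1_val pp5_1_pat _ _ _
    (and_of _ _ (all_mem _ _ c5 _ h)).1)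

theorem stp52 (h : R5.Mem ⟨P.t, P.c, w⟩) : Stp 5 2 P :=
  stp_of 5 2 4 rfl R4 hR4 _ (step_of 5 2 4 rows4 R4 cf5_2 (st2 cf5_2) 3 1 pre5_2 pp5_2 cf5_2_eq
    (fun t => by rw [cf5_2_eq, st2_eq]) rfl rfl rows4_ok pre5_2_eq pp5_2_val pp5_2_pat _ _ _
    (and_of _ _ (all_mem _ _ c5 _ h)).2)

theorem stp62 (h : R6.Mem ⟨P.t, P.c, w⟩) : Stp 6 2 P :=
  stp_of 6 2 5 rfl R5 hR5 _ (step_of 6 2 5 rows5 R5 cf6_2 (st2 cf6_2) 3 1 pre6_2 pp6_2 cf6_2_eq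
    (fun t => by rw [cf6_2_eq, st2_eq]) rfl rfl rows5_ok pre6_2_eq pp6_2_val pp6_2_pat _ _ _
    (and_of _ _ (all_mem _ _ c6 _ h)).1)

theorem stp63 (h : R6.Mem ⟨P.t, P.c, w⟩) : Stp 6 3 P :=
  stp_of 6 3 3 rfl R3 hR3 _ (step_of 6 3 3 rows3 R3 cf6_3 (st3 cf6_3) 7 0 pre6_3 pp6_3 cf6_3_eq
    (fun t => by rw [cf6_3_eq, st3_eq]) rfl rfl rows3_ok pre6_3_eq pp6_3_val pp6_3_pat _ _ _
    (and_of _ _ (all_mem _ _ c6 _ h)).2)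

end Cases

theorem closed_LL : Closed LL := by
  refine ⟨Or.inl ⟨rfl, rfl⟩, ?_, ?_⟩
  · intro P hP
    rcases hP with ⟨h, _⟩ | ⟨_, w, h⟩ | ⟨h, _⟩ | ⟨h, _⟩ | ⟨h, _⟩
    · exact absurd h (by decide)
    · exact fin3 P w h
    · exact absurd h (by decide)
    · exact absurd h (by decide)
    · exact absurd h (by decide)
  · intro b j P hP hjb hj h3 h6
    show Stp b j P
    rcases hP with ⟨h, h'⟩ | ⟨h, w, h'⟩ | ⟨h, w, h'⟩ | ⟨h, w, h'⟩ | ⟨h, w, h'⟩ <;> subst h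
    · obtain rfl : j = 0 := by omega
      rw [h']
      exact stp00
    · obtain rfl | rfl : j = 0 ∨ j = 1 := by omega
      · exact stp30 P w h'
      · exact stp31 P w h'
    · obtain rfl | rfl : j = 1 ∨ j = 2 := by omega
      · exact stp41 P w h'
      · exact stp42 P w h'
    · obtain rfl | rfl : j = 1 ∨ j = 2 := by omega
      · exact stp51 P w h'
      · exact stp52 P w h'
    · obtain rfl | rfl : j = 2 ∨ j = 3 := by omega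
      · exact stp62 P w h'
      · exact stp63 P w h'

end Pool.Agent.DCW
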