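import Pool.Agent.DCW.Tab
import Pool.Agent.DCW.ChkLem

/-!
# The constants are correct
-/

set_option autoImplicit false

namespace Pool.Agent.DCW

/-- Comparison. -/
def eqWb (w : W2) (b i j : ℕ) : Bool :=
  Nat.beq w.d.s (mkSw b i j).s && Nat.beq w.d.s2 (mkSw b i j).s2 &&
  Nat.beq w.d.m0 (mkSw b i j).m0 && Nat.beq w.d.m1 (mkSw b i j).m1 &&
  Nat.beq w.d.m2 (mkSw b i j).m2 && Nat.beq w.d.n1 (mkSw b i j).n1 &&
  Nat.beq w.d.n2 (mkSw b i j).n2 && Nat.beq w.x.s (mkSx b i j).s &&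
  Nat.beq w.x.m0 (mkSx b i j).m0 && Nat.beq w.x.m1 (mkSx b i j).m1 &&
  Nat.beq w.x.n1 (mkSx b i j).n1

theorem eqW (w : W2) (b i j : ℕ) (h : eqWb w b i j = true) : w = W b i j := by
  obtain ⟨⟨s, s2, m0, m1, m2, n1, n2⟩, ⟨xs, x0, x1, x2⟩⟩ := w
  simp only [eqWb, Bool.and_eq_true, Nat.beq_eq] at h
  obtain ⟨⟨⟨⟨⟨⟨⟨⟨⟨⟨h1, h2⟩, h3⟩, h4⟩, h5⟩, h6⟩, h7⟩, h8⟩, h9⟩, h10⟩, h11⟩ := h
  subst h1 h2 h3 h4 h5 h6 h7 h8 h9 h10 h11
  rfl

/-- Comparison. -/
def eqCb (d : Cf) (b j : ℕ) : Bool :=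
  Nat.beq d.A (mkCf b j).A && Nat.beq d.one (mkCf b j).one && Nat.beq d.hi (mkCf b j).hi &&
  Nat.beq d.lo (mkCf b j).lo && Nat.beq d.B (mkCf b j).B && Nat.beq d.onec (mkCf b j).onec &&
  Nat.beq d.hic (mkCf b j).hic

theorem eqC (d : Cf) (b j : ℕ) (h : eqCb d b j = true) : d = mkCf b j := by
  obtain ⟨A, one, hi, lo, B, onec, hic⟩ := d
  simp only [eqCb, Bool.and_eq_true, Nat.beq_eq] at h
  obtain ⟨⟨⟨⟨⟨⟨h1, h2⟩, h3⟩, h4⟩, h5⟩, h6⟩, h7⟩ := h
  subst h1 h2 h3 h4 h5 h6 h7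
  rfl

theorem w3_0_1_eq : w3_0_1 = W 3 0 1 := eqW _ _ _ _ (by decide +kernel)

theorem w3_0_2_eq : w3_0_2 = W 3 0 2 := eqW _ _ _ _ (by decide +kernel)

theorem w3_1_2_eq : w3_1_2 = W 3 1 2 := eqW _ _ _ _ (by decide +kernel)

theorem rows3_ok : ∀ r ∈ rows3, GoodL 3 r.l := by
  intro r hr w hw
  simp only [rows3, List.mem_cons, List.not_mem_nil, or_false] at hr
  rcases hr with rfl | rfl
  · simp only [List.mem_cons, List.not_mem_nil, or_false] at hw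
    rcases hw with rfl | rfl
    · exact ⟨0, 2, by decide, by decide, w3_0_2_eq⟩
    · exact ⟨1, 2, by decide, by decide, w3_1_2_eq⟩
  · simp only [List.mem_cons, List.not_mem_nil, or_false] at hw
    subst hw
    exact ⟨0, 1, by decide, by decide, w3_0_1_eq⟩

theorem w4_0_1_eq : w4_0_1 = W 4 0 1 := eqW _ _ _ _ (by decide +kernel)

theorem w4_0_2_eq : w4_0_2 = W 4 0 2 := eqW _ _ _ _ (by decide +kernel)

theorem w4_1_2_eq : w4_1_2 = W 4 1 2 := eqW _ _ _ _ (by decide +kernel)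

theorem w4_0_3_eq : w4_0_3 = W 4 0 3 := eqW _ _ _ _ (by decide +kernel)

theorem w4_1_3_eq : w4_1_3 = W 4 1 3 := eqW _ _ _ _ (by decide +kernel)

theorem w4_2_3_eq : w4_2_3 = W 4 2 3 := eqW _ _ _ _ (by decide +kernel)

theorem rows4_ok : ∀ r ∈ rows4, GoodL 4 r.l := by
  intro r hr w hw
  simp only [rows4, List.mem_cons, List.not_mem_nil, or_false] at hr
  rcases hr with rfl | rfl | rfl
  · simp only [List.mem_cons, List.not_mem_nil, or_false] at hw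
    rcases hw with rfl | rfl | rfl
    · exact ⟨0, 3, by decide, by decide, w4_0_3_eq⟩
    · exact ⟨1, 3, by decide, by decide, w4_1_3_eq⟩
    · exact ⟨2, 3, by decide, by decide, w4_2_3_eq⟩
  · simp only [List.mem_cons, List.not_mem_nil, or_false] at hw
    rcases hw with rfl | rfl
    · exact ⟨0, 2, by decide, by decide, w4_0_2_eq⟩
    · exact ⟨1, 2, by decide, by decide, w4_1_2_eq⟩
  · simp only [List.mem_cons, List.not_mem_nil, or_false] at hw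
    subst hw
    exact ⟨0, 1, by decide, by decide, w4_0_1_eq⟩

theorem w5_0_1_eq : w5_0_1 = W 5 0 1 := eqW _ _ _ _ (by decide +kernel)

theorem w5_0_2_eq : w5_0_2 = W 5 0 2 := eqW _ _ _ _ (by decide +kernel)

theorem w5_1_2_eq : w5_1_2 = W 5 1 2 := eqW _ _ _ _ (by decide +kernel)

theorem w5_0_3_eq : w5_0_3 = W 5 0 3 := eqW _ _ _ _ (by decide +kernel)

theorem w5_1_3_eq : w5_1_3 = W 5 1 3 := eqW _ _ _ _ (by decide +kernel)

theorem w5_2_3_eq : w5_2_3 = W 5 2 3 := eqW _ _ _ _ (by decide +kernel)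

theorem w5_0_4_eq : w5_0_4 = W 5 0 4 := eqW _ _ _ _ (by decide +kernel)

theorem w5_1_4_eq : w5_1_4 = W 5 1 4 := eqW _ _ _ _ (by decide +kernel)

theorem w5_2_4_eq : w5_2_4 = W 5 2 4 := eqW _ _ _ _ (by decide +kernel)

theorem w5_3_4_eq : w5_3_4 = W 5 3 4 := eqW _ _ _ _ (by decide +kernel)

theorem rows5_ok : ∀ r ∈ rows5, GoodL 5 r.l := by
  intro r hr w hw
  simp only [rows5, List.mem_cons, List.not_mem_nil, or_false] at hr
  rcases hr with rfl | rfl | rfl | rfl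
  · simp only [List.mem_cons, List.not_mem_nil, or_false] at hw
    rcases hw with rfl | rfl | rfl | rfl
    · exact ⟨0, 4, by decide, by decide, w5_0_4_eq⟩
    · exact ⟨1, 4, by decide, by decide, w5_1_4_eq⟩
    · exact ⟨2, 4, by decide, by decide, w5_2_4_eq⟩
    · exact ⟨3, 4, by decide, by decide, w5_3_4_eq⟩
  · simp only [List.mem_cons, List.not_mem_nil, or_false] at hw
    rcases hw with rfl | rfl | rfl
    · exact ⟨0, 3, by decide, by decide, w5_0_3_eq⟩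
    · exact ⟨1, 3, by decide, by decide, w5_1_3_eq⟩
    · exact ⟨2, 3, by decide, by decide, w5_2_3_eq⟩
  · simp only [List.mem_cons, List.not_mem_nil, or_false] at hw
    rcases hw with rfl | rfl
    · exact ⟨0, 2, by decide, by decide, w5_0_2_eq⟩
    · exact ⟨1, 2, by decide, by decide, w5_1_2_eq⟩
  · simp only [List.mem_cons, List.not_mem_nil, or_false] at hw
    subst hw
    exact ⟨0, 1, by decide, by decide, w5_0_1_eq⟩

theorem w6_0_1_eq : w6_0_1 = W 6 0 1 := eqW _ _ _ _ (by decide +kernel)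

theorem w6_0_2_eq : w6_0_2 = W 6 0 2 := eqW _ _ _ _ (by decide +kernel)

theorem w6_1_2_eq : w6_1_2 = W 6 1 2 := eqW _ _ _ _ (by decide +kernel)

theorem w6_0_3_eq : w6_0_3 = W 6 0 3 := eqW _ _ _ _ (by decide +kernel)

theorem w6_1_3_eq : w6_1_3 = W 6 1 3 := eqW _ _ _ _ (by decide +kernel)

theorem w6_2_3_eq : w6_2_3 = W 6 2 3 := eqW _ _ _ _ (by decide +kernel)

theorem w6_0_4_eq : w6_0_4 = W 6 0 4 := eqW _ _ _ _ (by decide +kernel)

theorem w6_1_4_eq : w6_1_4 = W 6 1 4 := eqW _ _ _ _ (by decide +kernel)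

theorem w6_2_4_eq : w6_2_4 = W 6 2 4 := eqW _ _ _ _ (by decide +kernel)

theorem w6_3_4_eq : w6_3_4 = W 6 3 4 := eqW _ _ _ _ (by decide +kernel)

theorem w6_0_5_eq : w6_0_5 = W 6 0 5 := eqW _ _ _ _ (by decide +kernel)

theorem w6_1_5_eq : w6_1_5 = W 6 1 5 := eqW _ _ _ _ (by decide +kernel)

theorem w6_2_5_eq : w6_2_5 = W 6 2 5 := eqW _ _ _ _ (by decide +kernel)

theorem w6_3_5_eq : w6_3_5 = W 6 3 5 := eqW _ _ _ _ (by decide +kernel)

theorem w6_4_5_eq : w6_4_5 = W 6 4 5 := eqW _ _ _ _ (by decide +kernel)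

theorem rows6_ok : ∀ r ∈ rows6, GoodL 6 r.l := by
  intro r hr w hw
  simp only [rows6, List.mem_cons, List.not_mem_nil, or_false] at hr
  rcases hr with rfl | rfl | rfl | rfl | rfl
  · simp only [List.mem_cons, List.not_mem_nil, or_false] at hw
    rcases hw with rfl | rfl | rfl | rfl | rfl
    · exact ⟨0, 5, by decide, by decide, w6_0_5_eq⟩
    · exact ⟨1, 5, by decide, by decide, w6_1_5_eq⟩
    · exact ⟨2, 5, by decide, by decide, w6_2_5_eq⟩
    · exact ⟨3, 5, by decide, by decide, w6_3_5_eq⟩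
    · exact ⟨4, 5, by decide, by decide, w6_4_5_eq⟩
  · simp only [List.mem_cons, List.not_mem_nil, or_false] at hw
    rcases hw with rfl | rfl | rfl | rfl
    · exact ⟨0, 4, by decide, by decide, w6_0_4_eq⟩
    · exact ⟨1, 4, by decide, by decide, w6_1_4_eq⟩
    · exact ⟨2, 4, by decide, by decide, w6_2_4_eq⟩
    · exact ⟨3, 4, by decide, by decide, w6_3_4_eq⟩
  · simp only [List.mem_cons, List.not_mem_nil, or_false] at hw
    rcases hw with rfl | rfl | rfl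
    · exact ⟨0, 3, by decide, by decide, w6_0_3_eq⟩
    · exact ⟨1, 3, by decide, by decide, w6_1_3_eq⟩
    · exact ⟨2, 3, by decide, by decide, w6_2_3_eq⟩
  · simp only [List.mem_cons, List.not_mem_nil, or_false] at hw
    rcases hw with rfl | rfl
    · exact ⟨0, 2, by decide, by decide, w6_0_2_eq⟩
    · exact ⟨1, 2, by decide, by decide, w6_1_2_eq⟩
  · simp only [List.mem_cons, List.not_mem_nil, or_false] at hw
    subst hw
    exact ⟨0, 1, by decide, by decide, w6_0_1_eq⟩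

theorem cf0_0_eq : cf0_0 = mkCf 0 0 := eqC _ _ _ (by decide +kernel)

/-- The preparations. -/
def pp0_0 : List (List (ℕ × ℕ)) :=
  [[]]

theorem pre0_0_eq : pre0_0 = pp0_0.map (List.map fun p => W 0 p.1 p.2) := by
  simp only [pre0_0, pp0_0, List.map_cons, List.map_nil]

theorem pp0_0_val : ∀ s ∈ pp0_0, Val 0 s := by
  unfold Val
  decide

theorem pp0_0_pat : patB 0 0 pp0_0 = true := by decide +kernel

theorem cf3_0_eq : cf3_0 = mkCf 3 0 := eqC _ _ _ (by decide +kernel)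

/-- The preparations. -/
def pp3_0 : List (List (ℕ × ℕ)) :=
  [[]]

theorem pre3_0_eq : pre3_0 = pp3_0.map (List.map fun p => W 3 p.1 p.2) := by
  simp only [pre3_0, pp3_0, List.map_cons, List.map_nil]

theorem pp3_0_val : ∀ s ∈ pp3_0, Val 3 s := by
  unfold Val
  decide

theorem pp3_0_pat : patB 3 0 pp3_0 = true := by decide +kernel

theorem cf3_1_eq : cf3_1 = mkCf 3 1 := eqC _ _ _ (by decide +kernel)

/-- The preparations. -/
def pp3_1 : List (List (ℕ × ℕ)) :=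
  [[(0, 2)],
  [(1, 2)],
  []]

theorem pre3_1_eq : pre3_1 = pp3_1.map (List.map fun p => W 3 p.1 p.2) := by
  simp only [pre3_1, pp3_1, List.map_cons, List.map_nil, w3_0_2_eq, w3_1_2_eq]

theorem pp3_1_val : ∀ s ∈ pp3_1, Val 3 s := by
  unfold Val
  decide

theorem pp3_1_pat : patB 3 1 pp3_1 = true := by decide +kernel

theorem cf3_3_eq : cf3_3 = mkCf 3 3 := eqC _ _ _ (by decide +kernel)

theorem cf4_1_eq : cf4_1 = mkCf 4 1 := eqC _ _ _ (by decide +kernel)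

/-- The preparations. -/
def pp4_1 : List (List (ℕ × ℕ)) :=
  [[(0, 3)],
  [(1, 3)],
  [(2, 3)],
  []]

theorem pre4_1_eq : pre4_1 = pp4_1.map (List.map fun p => W 4 p.1 p.2) := by
  simp only [pre4_1, pp4_1, List.map_cons, List.map_nil, w4_0_3_eq, w4_1_3_eq, w4_2_3_eq]

theorem pp4_1_val : ∀ s ∈ pp4_1, Val 4 s := by
  unfold Val
  decide

theorem pp4_1_pat : patB 4 1 pp4_1 = true := by decide +kernel

theorem cf4_2_eq : cf4_2 = mkCf 4 2 := eqC _ _ _ (by decide +kernel)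

/-- The preparations. -/
def pp4_2 : List (List (ℕ × ℕ)) :=
  [[(1, 3), (0, 2)],
  [(2, 3), (0, 2)],
  [(2, 3), (1, 2)],
  [(0, 2)],
  [(1, 2)],
  []]

theorem pre4_2_eq : pre4_2 = pp4_2.map (List.map fun p => W 4 p.1 p.2) := by
  simp only [pre4_2, pp4_2, List.map_cons, List.map_nil, w4_0_2_eq, w4_1_2_eq, w4_1_3_eq, w4_2_3_eq]

theorem pp4_2_val : ∀ s ∈ pp4_2, Val 4 s := by
  unfold Val
  decide

theorem pp4_2_pat : patB 4 2 pp4_2 = true := by decide +kernel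

theorem cf5_1_eq : cf5_1 = mkCf 5 1 := eqC _ _ _ (by decide +kernel)

/-- The preparations. -/
def pp5_1 : List (List (ℕ × ℕ)) :=
  [[(0, 4)],
  [(1, 4)],
  [(2, 4)],
  [(3, 4)],
  []]

theorem pre5_1_eq : pre5_1 = pp5_1.map (List.map fun p => W 5 p.1 p.2) := by
  simp only [pre5_1, pp5_1, List.map_cons, List.map_nil, w5_0_4_eq, w5_1_4_eq, w5_2_4_eq, w5_3_4_eq]

theorem pp5_1_val : ∀ s ∈ pp5_1, Val 5 s := by
  unfold Val
  decide

theorem pp5_1_pat : patB 5 1 pp5_1 = true := by decide +kernel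

theorem cf5_2_eq : cf5_2 = mkCf 5 2 := eqC _ _ _ (by decide +kernel)

/-- The preparations. -/
def pp5_2 : List (List (ℕ × ℕ)) :=
  [[(1, 4), (0, 3)],
  [(2, 4), (0, 3)],
  [(2, 4), (1, 3)],
  [(3, 4), (0, 3)],
  [(3, 4), (1, 3)],
  [(3, 4), (2, 3)],
  [(0, 3)],
  [(1, 3)],
  [(2, 3)],
  []]

theorem pre5_2_eq : pre5_2 = pp5_2.map (List.map fun p => W 5 p.1 p.2) := by
  simp only [pre5_2, pp5_2, List.map_cons, List.map_nil, w5_0_3_eq, w5_1_3_eq, w5_1_4_eq, w5_2_3_eq, w5_2_4_eq, w5_3_4_eq]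

theorem pp5_2_val : ∀ s ∈ pp5_2, Val 5 s := by
  unfold Val
  decide

theorem pp5_2_pat : patB 5 2 pp5_2 = true := by decide +kernel

theorem cf6_2_eq : cf6_2 = mkCf 6 2 := eqC _ _ _ (by decide +kernel)

/-- The preparations. -/
def pp6_2 : List (List (ℕ × ℕ)) :=
  [[(1, 5), (0, 4)],
  [(2, 5), (0, 4)],
  [(2, 5), (1, 4)],
  [(3, 5), (0, 4)],
  [(3, 5), (1, 4)],
  [(3, 5), (2, 4)],
  [(4, 5), (0, 4)],
  [(4, 5), (1, 4)],
  [(4, 5), (2, 4)],
  [(4, 5), (3, 4)],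
  [(0, 4)],
  [(1, 4)],
  [(2, 4)],
  [(3, 4)],
  []]

theorem pre6_2_eq : pre6_2 = pp6_2.map (List.map fun p => W 6 p.1 p.2) := by
  simp only [pre6_2, pp6_2, List.map_cons, List.map_nil, w6_0_4_eq, w6_1_4_eq, w6_1_5_eq, w6_2_4_eq, w6_2_5_eq, w6_3_4_eq, w6_3_5_eq, w6_4_5_eq]

theorem pp6_2_val : ∀ s ∈ pp6_2, Val 6 s := by
  unfold Val
  decide

theorem pp6_2_pat : patB 6 2 pp6_2 = true := by decide +kernel

theorem cf6_3_eq : cf6_3 = mkCf 6 3 := eqC _ _ _ (by decide +kernel)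

/-- The preparations. -/
def pp6_3 : List (List (ℕ × ℕ)) :=
  [[(2, 5), (1, 4), (0, 3)],
  [(3, 5), (1, 4), (0, 3)],
  [(3, 5), (2, 4), (0, 3)],
  [(3, 5), (2, 4), (1, 3)],
  [(4, 5), (1, 4), (0, 3)],
  [(4, 5), (2, 4), (0, 3)],
  [(4, 5), (2, 4), (1, 3)],
  [(4, 5), (3, 4), (0, 3)],
  [(4, 5), (3, 4), (1, 3)],
  [(4, 5), (3, 4), (2, 3)],
  [(1, 4), (0, 3)],
  [(2, 4), (0, 3)],
  [(2, 4), (1, 3)],
  [(3, 4), (0, 3)],
  [(3, 4), (1, 3)],
  [(3, 4), (2, 3)],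
  [(0, 3)],
  [(1, 3)],
  [(2, 3)],
  []]

theorem pre6_3_eq : pre6_3 = pp6_3.map (List.map fun p => W 6 p.1 p.2) := by
  simp only [pre6_3, pp6_3, List.map_cons, List.map_nil, w6_0_3_eq, w6_1_3_eq, w6_1_4_eq, w6_2_3_eq, w6_2_4_eq, w6_2_5_eq, w6_3_4_eq, w6_3_5_eq, w6_4_5_eq]

theorem pp6_3_val : ∀ s ∈ pp6_3, Val 6 s := by
  unfold Val
  decide

theorem pp6_3_pat : patB 6 3 pp6_3 = true := by decide +kernel

end Pool.Agent.DCW
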